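import Pool.Agent.V5helper32.CM.Stm

/-!
# Project CM (helper32), wave 2: rational Cherednik algebras

Statements of the parts about Cherednik algebras (`t = 0`), in coordinates.
-/

namespace Pool.Agent.V5helper32.CM

open MvPolynomial
open scoped TensorProduct

/-! ## F. The relations, Dunkl operators and the PBW theorem -/

/-- Elements `x_a` (coordinate functions on `V = ℂ^n`), `y_a` (basis vectors of `V`) and `u w`
(`w ∈ W`) of an algebra `B` which satisfy the relations of the rational Cherednik algebra at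
`t = 0` with parameter `c`: `[y_a, x_b] = Σ_w c_w (x_b(w⁻¹ e_a) - x_b(e_a)) w`. -/
structure ChRel {n : ℕ} {W : Type} [Group W] [Fintype W] (ρ : W →* Gl n) (c : W → ℂ) (B : Type)
    [Ring B] [Algebra ℂ B] where
  x : Fin n → B
  y : Fin n → B
  u : W →* B
  xx : ∀ a b, x a * x b = x b * x a
  yy : ∀ a b, y a * y b = y b * y a
  ux : ∀ w a, u w * x a = (∑ b, ((ρ w)⁻¹).val a b • x b) * u w
  uy : ∀ w a, u w * y a = (∑ b, (ρ w).val b a • y b) * u w
  yx : ∀ a b, y a * x b - x b * y a =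
    ∑ w, (c w * (((ρ w)⁻¹).val b a - (1 : Matrix (Fin n) (Fin n) ℂ) b a)) • u w

/-- `c` is a class function supported on the reflections. -/
def ClsRefl {n : ℕ} {W : Type} [Group W] (ρ : W →* Gl n) (c : W → ℂ) : Prop :=
  (∀ w w', c (w * w' * w⁻¹) = c w') ∧ ∀ w, c w ≠ 0 → ((ρ w).val - 1).rank = 1

/-- The universal property and generation. -/
def Univ {n : ℕ} {W : Type} [Group W] [Fintype W] {ρ : W →* Gl n} {c : W → ℂ} {H : Type}
    [Ring H] [Algebra ℂ H] (R : ChRel ρ c H) : Prop :=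
  (∀ (B : Type) [Ring B] [Algebra ℂ B] (R' : ChRel ρ c B),
    ∃ F : H →ₐ[ℂ] B, (∀ a, F (R.x a) = R'.x a) ∧ (∀ a, F (R.y a) = R'.y a) ∧
      ∀ w, F (R.u w) = R'.u w) ∧
  Algebra.adjoin ℂ (Set.range R.x ∪ Set.range R.y ∪ Set.range R.u) = ⊤

/-- `f ⊗ g ↦ f w g`. -/
noncomputable def mu {n : ℕ} {W : Type} [Group W] {H : Type} [Ring H] [Algebra ℂ H]
    (i j : MvPolynomial (Fin n) ℂ →ₐ[ℂ] H) (u : W →* H) (w : W) :
    MvPolynomial (Fin n) ℂ ⊗[ℂ] MvPolynomial (Fin n) ℂ →ₗ[ℂ] H :=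
  TensorProduct.lift
    ((LinearMap.mul ℂ H).compl₁₂ (LinearMap.mulRight ℂ (u w) ∘ₗ i.toLinearMap) j.toLinearMap)

/-- Triangular decomposition (PBW) and the two central subalgebras. -/
structure Tri {n : ℕ} {W : Type} [Group W] [Fintype W] (ρ : W →* Gl n) (H : Type) [Ring H]
    [Algebra ℂ H] where
  i : MvPolynomial (Fin n) ℂ →ₐ[ℂ] H
  j : MvPolynomial (Fin n) ℂ →ₐ[ℂ] H
  u : W →* H
  ui : ∀ w f, u w * i f = i (act (ρ w) f) * u w
  uj : ∀ w g, u w * j g = j (act (dualG (ρ w)) g) * u w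
  yx : ∀ a b, ∃ κ : W → ℂ, j (X a) * i (X b) - i (X b) * j (X a) = ∑ w, κ w • u w
  pbw : Function.Bijective fun q : W → MvPolynomial (Fin n) ℂ ⊗[ℂ] MvPolynomial (Fin n) ℂ =>
    ∑ w, mu i j u w (q w)
  ci : ∀ f, (∀ w, act (ρ w) f = f) → ∀ h, i f * h = h * i f
  cj : ∀ g, (∀ w, act (dualG (ρ w)) g = g) → ∀ h, j g * h = h * j g

/-- The field of rational functions on `V`. -/
abbrev Kf (n : ℕ) := FractionRing (MvPolynomial (Fin n) ℂ)

/-- Polynomials in the `y_a` over the rational functions of the `x_a` (a commutative domain). -/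
abbrev Un (n : ℕ) := MvPolynomial (Fin n) (Kf n)

/-- The Dunkl representation. -/
structure DunklData {n : ℕ} {W : Type} [Group W] [Fintype W] (ρ : W →* Gl n) (c : W → ℂ) where
  e : W →* (Un n ≃ₐ[ℂ] Un n)
  eC : ∀ w (k : Kf n), ∃ k' : Kf n, e w (C k) = C k'
  ef : ∀ w f, e w (C (algebraMap (MvPolynomial (Fin n) ℂ) (Kf n) f)) =
    C (algebraMap (MvPolynomial (Fin n) ℂ) (Kf n) (act (ρ w) f))
  eX : ∀ w a, e w (X a) = ∑ b, C (algebraMap ℂ (Kf n) ((ρ w).val b a)) * X b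
  A : W → Fin n → Kf n
  R : ChRel ρ c (Module.End ℂ (Un n))
  Rx : ∀ a, R.x a =
    LinearMap.mulLeft ℂ (C (algebraMap (MvPolynomial (Fin n) ℂ) (Kf n) (X a)))
  Ru : ∀ w, R.u w = (e w).toLinearMap
  Ry : ∀ a, R.y a = LinearMap.mulLeft ℂ (X a) +
    ∑ w, LinearMap.mulLeft ℂ (C (A w a)) ∘ₗ (e w).toLinearMap

open Classical in
/-- **Job DK1** (200 lines): the identity behind the commutation of the Dunkl operators.
`(ρ s)⁻¹ - 1 = β_s α_sᵀ` for the reflections `s` with `c s ≠ 0`, `α_s(x) = Σ_j (α_s)_j x_j`.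

Proof. Fix `w, a, b`.  Put `θ(γ, δ) = (γ_a δ_b - γ_b δ_a)/(γ(x) δ(x))` for `γ, δ ∈ ℂ^n` nonzero;
it does not change if `γ` or `δ` is multiplied by a nonzero scalar.  The terms are
`c_s c_r θ(α_s, α_r)` for the pairs `(s, r)` with `r s = w`, `c_s, c_r ≠ 0`; if `α_s, α_r` are
proportional the term is zero.  If this is so for all pairs we are done.  Otherwise fix
`(s₀, r₀)` with `α_{s₀}, α_{r₀}` independent, and let `X = {v | ρ w v = v}`.
(1) For `s` with `c_s ≠ 0` the vector `β_s` is orthogonal to `ker α_s` for a `W`-invariant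
hermitian inner product (`s β_s = λ β_s` with `λ ≠ 1`, as otherwise `ρ s` is unipotent, `≠ 1`, of
infinite order; for `v ∈ ker α_s`: `⟨β, v⟩ = ⟨s β, s v⟩ = λ⟨β, v⟩`); so if `β_s, β_r` are
proportional then so are `α_s, α_r`.
(2) `X = ker α_{s₀} ∩ ker α_{r₀}`: if `r₀ s₀ v = v` then `s₀ v - v = r₀⁻¹ v - v` is in
`ℂ β_{s₀} ∩ ℂ β_{r₀} = 0`.  [`ρ s v - v ∈ ℂ β_s` and is `0` iff `α_s(v) = 0`.]
(3) For every pair `(s, r)` with `r s = w`, `c_s, c_r ≠ 0`: `ker α_s ∩ ker α_r ⊆ X`, which has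
codimension `2`, so `α_s, α_r` are independent, `X = ker α_s ∩ ker α_r` by (2), and
`α_s, α_r ∈ P = span(α_{s₀}, α_{r₀})` (the annihilator of `X`).
(4) For `γ, δ, ε ∈ P` nonzero: `θ(γ, δ) = θ(γ, ε) - θ(δ, ε)`: multiply by `γ(x) δ(x) ε(x)`, it is
`[γδ] ε + [δε] γ + [εγ] δ = 0` with `[γδ] = γ_a δ_b - γ_b δ_a`, true in a plane.
(5) Let `h(s) = θ(α_s, α_{s₀})`.  The sum is `Σ c_s c_r (h(s) - h(r))`.  The map
`(s, r) ↦ (r, r s r⁻¹)` is a bijection of `{(s, r) | r s = w}` onto itself and `c` is a class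
function, so `Σ c_s c_r h(s) = Σ c_r c_{r s r⁻¹} h(r) = Σ c_s c_r h(r)`. -/
def S_DK1 : Prop :=
  ∀ (n : ℕ) (W : Type) [Group W] [Fintype W] (ρ : W →* Gl n) (c : W → ℂ), ClsRefl ρ c →
    ∀ (α β : W → Fin n → ℂ),
      (∀ s, c s ≠ 0 → ((ρ s)⁻¹).val - 1 = Matrix.of fun p q => β s p * α s q) →
      ∀ (w : W) (a b : Fin n),
        (∑ s, ∑ r, if r * s = w then
          algebraMap ℂ (Kf n) (c s * c r * (α s a * α r b - α s b * α r a)) *
            (algebraMap (MvPolynomial (Fin n) ℂ) (Kf n) (∑ l, C (α s l) * X l))⁻¹ *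
            (algebraMap (MvPolynomial (Fin n) ℂ) (Kf n) (∑ l, C (α r l) * X l))⁻¹
          else 0) = 0

/-- **Job DK2** (300 lines; may use DK1): the Dunkl representation.

Proof. `act (ρ w)` is an automorphism of `F = MvPolynomial (Fin n) ℂ` and extends to `Kf n`; let
`e w` be the automorphism of `Un n` which is this on the coefficients and
`X_a ↦ Σ_b (ρ w)_{ba} X_b`; `e` is a group homomorphism.  For `s` with `c_s ≠ 0` write
`(ρ s)⁻¹ - 1 = β_s α_sᵀ` (rank one), put `A_s(a) = c_s (α_s)_a / α_s(x)` with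
`α_s(x) = Σ_j (α_s)_j x_j ≠ 0` (and `A_s = 0` if `c_s = 0`), `T_a = Σ_s A_s(a) e_s`,
`D_a = X_a + T_a`.  `A_s(a)` does not change if `α_s` is rescaled.
`ux`: clear.  `xx`, commutativity.
`yx`: `e_s x_b - x_b e_s = (β_s)_b α_s(x) e_s` (as `act (ρ s) X_b = X_b + (β_s)_b α_s(X)`) so
`[D_a, x_b] = Σ_s c_s (α_s)_a (β_s)_b e_s = Σ_s c_s ((ρ s)⁻¹ - 1)_{ba} e_s`.
`uy`: let `s' = w s w⁻¹`; `(ρ s')⁻¹ - 1 = (ρ w β_s)(α_sᵀ (ρ w)⁻¹)`, so
`A_{s'}(b) = c_s (α')_b/α'(x)` with `α'ᵀ = α_sᵀ (ρ w)⁻¹` and `α'(x) = e_w(α_s(x))`, thus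
`Σ_b (ρ w)_{ba} A_{s'}(b) = c_s (α_s)_a / e_w(α_s(x)) = e_w(A_s(a))` and
`e_w T_a = Σ_s e_w(A_s(a)) e_{s'} e_w = (Σ_b (ρ w)_{ba} T_b) e_w`.
`yy`: `[X_a, T_b] - [X_b, T_a] = Σ_s (A_s(b) (X_a - e_s X_a) - A_s(a) (X_b - e_s X_b)) e_s`, and
`ρ s - 1 = - λ β_s α_sᵀ` (`λ = 1/(1 + α_sᵀβ_s)`), so `X_a - e_s X_a = (α_s)_a η_s` with
`η_s = λ Σ_l (β_s)_l X_l`: the difference is zero.
`T_a T_b = Σ_{s,t} A_s(a) e_s(A_t(b)) e_{st}`.  Put `r = s t s⁻¹`, `r s = s t`.  By the formula above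
(with `w = s`) `e_s(A_t(b)) = Σ_l (ρ s)_{lb} A_r(l) = A_r(b) - λ (α_s)_b Σ_l (β_s)_l A_r(l)`.  So
`A_s(a) e_s(A_t(b)) - A_s(b) e_s(A_t(a)) = A_s(a) A_r(b) - A_s(b) A_r(a)` (the other terms cancel:
`A_s(a) (α_s)_b = A_s(b) (α_s)_a`), and the sum over all pairs `(s, r)` with `r s = w` vanishes by
DK1.  So `[T_a, T_b] = 0`. -/
def S_DK2 : Prop :=
  ∀ (n : ℕ) (W : Type) [Group W] [Fintype W] (ρ : W →* Gl n) (c : W → ℂ), ClsRefl ρ c →
    Nonempty (DunklData ρ c)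

/-- **Job POLY** (50 lines): algebra homomorphisms from a polynomial ring to a noncommutative
algebra.

Proof. The subalgebra generated by the `x a` is commutative
(`Algebra.adjoinCommRingOfComm`), use `aeval` with values there. -/
def S_POLY : Prop :=
  ∀ (n : ℕ) (B : Type) [Ring B] [Algebra ℂ B] (x : Fin n → B), (∀ a b, x a * x b = x b * x a) →
    ∃ i : MvPolynomial (Fin n) ℂ →ₐ[ℂ] B, ∀ a, i (X a) = x a

/-- **Job SPAN** (120 lines): surjectivity in PBW.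

Proof. Let `T` be the span of all `i f * u w * j g`; `1 ∈ T`.  It is enough that `T` is stable under
left multiplication by `x_a`, `u w'`, `y_a` (then by the algebra they generate, which is
everything).  `x_a`: clear; `u w' i f u w j g = i (act f) u (w' w) j g` (first prove
`u w * i f = i (act (ρ w) f) * u w` from `ux` by induction on `f`).  `y_a`: `y_a i f = i f y_a +
k` with `k` in the span of the `i f' * u w` (induction on `f`: for `f = g x_b`,
`y_a i(g) x_b = i(g) y_a x_b + k x_b`, and use `yx` and `ux`), `y_a u w = u w Σ_b .. y_b`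
(from `uy` for `w`: invert the matrix), and `y_b j g = j (X_b g)`. -/
def S_SPAN : Prop :=
  ∀ (n : ℕ) (W : Type) [Group W] [Fintype W] (ρ : W →* Gl n) (c : W → ℂ) (H : Type) [Ring H]
    [Algebra ℂ H] (R : ChRel ρ c H) (i j : MvPolynomial (Fin n) ℂ →ₐ[ℂ] H),
    (∀ a, i (X a) = R.x a) → (∀ a, j (X a) = R.y a) →
    Algebra.adjoin ℂ (Set.range R.x ∪ Set.range R.y ∪ Set.range R.u) = ⊤ →
    (∀ w f, R.u w * i f = i (act (ρ w) f) * R.u w) ∧
    (∀ w g, R.u w * j g = j (act (dualG (ρ w)) g) * R.u w) ∧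
    Function.Surjective fun q : W → MvPolynomial (Fin n) ℂ ⊗[ℂ] MvPolynomial (Fin n) ℂ =>
      ∑ w, mu i j R.u w (q w)

/-- **Job INJ** (300 lines): injectivity in PBW, from the Dunkl representation.

Proof. (1) Automorphisms are independent: if `Σ_w B_w e_w = 0` as an operator on `Un n`,
`B_w ∈ Un n`, then all `B_w = 0` (the `e_w` are distinct ring homomorphisms of a domain, as `ρ` is
injective and `e_w(X_a) = Σ (ρ w)_{ba} X_b`; Dedekind / `linearIndependent_monoidHom` for maps into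
the fraction field of `Un n`).
(2) For a monomial `Y^m` of degree `d`, the operator `j(Y^m)` (through `F`) is `Σ_w mult(P_w) e_w`
where `P_1 - Y^m` and `P_w` (`w ≠ 1`) have total degree `< d` in the variables of
`Un n = MvPolynomial (Fin n) (Kf n)` (`totalDegree`); induction on `m` using `Ry` (the `e_w`
preserve the total degree: `eC`, `eX`).
[If `d = 0`: exactly `1`.  State the bound as: coefficients in `restrictTotalDegree`/homogeneous
components of degree `≥ d` vanish.]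
(3) Suppose `F (Σ_w μ_w(q_w)) = 0`, write `q_w = Σ_m f_{w,m} ⊗ Y^m` (finite sums over monomials; `F`
free), and let `d` be the maximal degree of the `Y^m` with some `f_{w,m} ≠ 0`.  The operator is
`Σ_w mult(C f) e_w (Σ_v mult(P_{m,v}) e_v)`; its coefficient at `e_w` is
`Σ_m C(f_{w,m}) e_w(Y^m) + (total degree < d)` for `|m| = d` plus terms of degree `< d`.  By (1) it
vanishes, so `Σ_{|m| = d} C(f_{w,m}) e_w(Y^m) = 0`; apply `e_w⁻¹`: `Σ C(e_w⁻¹ f_{w,m}) Y^m = 0`, so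
`f_{w,m} = 0` for `|m| = d`, a contradiction.  Hence all `q_w = 0`. -/
def S_INJ : Prop :=
  ∀ (n : ℕ) (W : Type) [Group W] [Fintype W] (ρ : W →* Gl n), Function.Injective ρ →
    ∀ (c : W → ℂ) (DD : DunklData ρ c) (H : Type) [Ring H] [Algebra ℂ H] (R : ChRel ρ c H)
      (F : H →ₐ[ℂ] Module.End ℂ (Un n)), (∀ a, F (R.x a) = DD.R.x a) →
      (∀ a, F (R.y a) = DD.R.y a) → (∀ w, F (R.u w) = DD.R.u w) →
      ∀ i j : MvPolynomial (Fin n) ℂ →ₐ[ℂ] H, (∀ a, i (X a) = R.x a) → (∀ a, j (X a) = R.y a) →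
        Function.Injective fun q : W → MvPolynomial (Fin n) ℂ ⊗[ℂ] MvPolynomial (Fin n) ℂ =>
          F (∑ w, mu i j R.u w (q w))

/-- **Job CI** (80 lines; may use DK2, POLY, SPAN, INJ): invariants are central.

Proof. Let `F : H → End (Un n)` be the map to the Dunkl representation (universal property).  By
SPAN and INJ `F` is injective (`h = Σ μ_w(q_w)` and `F h = 0` gives `q = 0`).  For an invariant `f`
the operator `F (i f)` is multiplication by `C f`
(by induction on `f` from `Rx`), and it commutes with `X_a + Σ A e_w` because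
`e_w (C f) = C (act (ρ w) f) = C f`.  So `i f` commutes with the generators. -/
def S_CI : Prop :=
  ∀ (n : ℕ) (W : Type) [Group W] [Fintype W] (ρ : W →* Gl n), Function.Injective ρ →
    ∀ c : W → ℂ, ClsRefl ρ c → ∀ (H : Type) [Ring H] [Algebra ℂ H] (R : ChRel ρ c H), Univ R →
      ∀ i : MvPolynomial (Fin n) ℂ →ₐ[ℂ] H, (∀ a, i (X a) = R.x a) →
        ∀ f, (∀ w, act (ρ w) f = f) → ∀ h, i f * h = h * i f

/-- **Job TRI** (150 lines; may use DK2, POLY, SPAN, INJ, CI): the triangular decomposition.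

Proof. Everything except `cj` is in the other jobs (`yx`: from `R.yx`).  `cj`: the elements
`x' = y`, `y' = x`, `u' = u` satisfy `ChRel (dualG.comp ρ) c' H` with `c'_w = c_w (det ρ w)⁻¹`:
for a reflection `w`, `ρ w - 1` has rank one, and its image is a line on which `ρ w` acts by
`det (ρ w)` (`ρ w = 1 + β γᵀ`, `det = 1 + γᵀβ`, `ρ w β = det β`), so
`(ρ w)⁻¹ - 1 = - (ρ w)⁻¹ (ρ w - 1) = - det⁻¹ (ρ w - 1)`, hence
`x_b y_a - y_a x_b = - Σ c_w ((ρ w)⁻¹ - 1)_{ba} w = Σ c_w det⁻¹ (ρ w - 1)_{ba} w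
= Σ c'_w ((dualG (ρ w))⁻¹ - 1)_{ab} w`.  `c'` is a class function supported on reflections of the
dual representation, `dualG.comp ρ` is injective, and the universal property is inherited
(the construction is an involution: a `ChRel (dualG.comp ρ) c' B` gives a `ChRel ρ c B`, note
`dualG (dualG g) = g`).  Apply CI to it. -/
def S_TRI : Prop :=
  ∀ (n : ℕ) (W : Type) [Group W] [Fintype W] (ρ : W →* Gl n), Function.Injective ρ →
    ∀ c : W → ℂ, ClsRefl ρ c → ∀ (H : Type) [Ring H] [Algebra ℂ H] (R : ChRel ρ c H), Univ R →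
      ∃ T : Tri ρ H, (∀ a, T.i (X a) = R.x a) ∧ (∀ a, T.j (X a) = R.y a) ∧ T.u = R.u

/-! ## G. Families -/

/-- The algebra with its automorphism `σ` (induced by `t`) and its grading automorphisms `γ`. -/
structure Full {n : ℕ} {W : Type} [Group W] [Fintype W] (D : Rd n W) (H : Type) [Ring H]
    [Algebra ℂ H] where
  T : Tri D.ρ H
  σ : H ≃ₐ[ℂ] H
  σi : ∀ f, σ (T.i f) = T.i (act D.t f)
  σj : ∀ g, σ (T.j g) = T.j (act (dualG D.t) g)
  σu : ∀ w, σ (T.u w) = T.u (D.θ w)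
  γ : ℂˣ → H →ₐ[ℂ] H
  γi : ∀ z a, γ z (T.i (X a)) = (z : ℂ) • T.i (X a)
  γj : ∀ z a, γ z (T.j (X a)) = ((z⁻¹ : ℂˣ) : ℂ) • T.j (X a)
  γu : ∀ z w, γ z (T.u w) = T.u w

section

variable {n : ℕ} {W : Type} [Group W] [Fintype W] {D : Rd n W} {H : Type} [Ring H] [Algebra ℂ H]

/-- `p` is fixed by the grading action. -/
def PG (Φ : Full D H) (p : Zc H →ₐ[ℂ] ℂ) : Prop :=
  ∀ (z : ℂˣ) (a b : Zc H), (b : H) = Φ.γ z a → p b = p a

/-- `p` is fixed by `σ`. -/
def PS (Φ : Full D H) (p : Zc H →ₐ[ℂ] ℂ) : Prop :=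
  ∀ a b : Zc H, (b : H) = Φ.σ a → p b = p a

/-- `E` belongs to the family of `p`: every central `z` of degree `0` is congruent to an element
`a` of the group algebra modulo the left ideal generated by the `y_b`, and `a` acts on `E` by
the scalar `p z`. -/
def Fam (Φ : Full D H) (p : Zc H →ₐ[ℂ] ℂ) {E : Type} [AddCommGroup E] [Module ℂ E]
    (ρE : Representation ℂ W E) : Prop :=
  ∀ (z : Zc H) (a : MonoidAlgebra ℂ W), (∀ s, Φ.γ s z = z) →
    ((z : H) - MonoidAlgebra.lift ℂ H W Φ.T.u a ∈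
      Submodule.span H (Set.range fun b => Φ.T.j (X b))) →
    ∀ x, ρE.asAlgebraHom a x = p z • x

end

/-- **Job OM** (200 lines): the degree zero part of central elements.

Proof. PBW.  `γ` acts on `i f u w j g` (`f, g` homogeneous of degrees `d, e`) by `s^(d-e)`.
For `h` fixed by all `γ s` only the components with `d = e` occur (compare coefficients via
`pbw`; `s = 2`); those with `e > 0` are in the left ideal of the `y_b`, and `d = e = 0` gives
`Σ_w a_w u w`.  (2) uniqueness: `H j(X) = {Σ μ_w(q_w) | q_w ∈ F ⊗ F_+}` (`F_+` zero constant term;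
this set is a left ideal as `i f u w j g j(X_b) = i f u w j(g X_b)` spans it).
(3) `z` central: `u w z (u w)⁻¹ = z`, and `u w (H j(X)) (u w)⁻¹ = H j(X)`, so `u w a (u w)⁻¹ = a` by
(2).  (4) If `z ≡ a`, `z' ≡ a'` (central of degree 0) then `z z' - a a' = z (z' - a') + (z - a) a'`
and `(z - a) a' ∈ H j(X) u(a') ⊆ H j(X)`.  (5) `γ s` maps the centre to the centre (it is bijective
with inverse `γ s⁻¹` on generators), and every central `z` is a finite sum of central elements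
`z_d` with `γ s z_d = s^d z_d`. -/
def S_OM : Prop :=
  ∀ (n : ℕ) (W : Type) [Group W] [Fintype W] (D : Rd n W) (H : Type) [Ring H] [Algebra ℂ H]
    (Φ : Full D H),
    (∀ h : H, (∀ s, Φ.γ s h = h) → ∃ a : MonoidAlgebra ℂ W,
      h - MonoidAlgebra.lift ℂ H W Φ.T.u a ∈ Submodule.span H (Set.range fun b => Φ.T.j (X b))) ∧
    (∀ a : MonoidAlgebra ℂ W, MonoidAlgebra.lift ℂ H W Φ.T.u a ∈
      Submodule.span H (Set.range fun b => Φ.T.j (X b)) → a = 0) ∧
    (∀ (z : Zc H) (a : MonoidAlgebra ℂ W), (z : H) - MonoidAlgebra.lift ℂ H W Φ.T.u a ∈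
      Submodule.span H (Set.range fun b => Φ.T.j (X b)) → ∀ b, a * b = b * a) ∧
    (∀ (z z' : Zc H) (a a' : MonoidAlgebra ℂ W), (z : H) - MonoidAlgebra.lift ℂ H W Φ.T.u a ∈
      Submodule.span H (Set.range fun b => Φ.T.j (X b)) →
      (z' : H) - MonoidAlgebra.lift ℂ H W Φ.T.u a' ∈
      Submodule.span H (Set.range fun b => Φ.T.j (X b)) →
      ((z * z' : Zc H) : H) - MonoidAlgebra.lift ℂ H W Φ.T.u (a * a') ∈
      Submodule.span H (Set.range fun b => Φ.T.j (X b))) ∧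
    (∀ s (z : Zc H), Φ.γ s z ∈ Zc H) ∧
    (∀ z : Zc H, ∃ (J : Finset ℤ) (zd : ℤ → Zc H), z = ∑ d ∈ J, zd d ∧
      ∀ d s, Φ.γ s (zd d) = ((s ^ d : ℂˣ) : ℂ) • (zd d : H))

/-- **Job GRD** (120 lines; may use OM): the grading of the centre.

Proof. `𝒟 d = {z | ∀ s, γ s z = s^d z}`; independence of eigenspaces of `γ 2` (`2^d` distinct),
spanning by OM, multiplicativity; `GradedAlgebra` from `DirectSum.Decomposition` /
`DirectSum.IsInternal.chooseDecomposition`. -/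
def S_GRD : Prop :=
  ∀ (n : ℕ) (W : Type) [Group W] [Fintype W] (D : Rd n W) (H : Type) [Ring H] [Algebra ℂ H]
    (Φ : Full D H), ∃ 𝒟 : ℤ → Submodule ℂ (Zc H), Nonempty (GradedAlgebra 𝒟) ∧
      ∀ d (z : Zc H), z ∈ 𝒟 d ↔ ∀ s, Φ.γ s z = ((s ^ d : ℂˣ) : ℂ) • (z : H)

/-- **Job CHAR** (150 lines; may use OM, GRD): every irreducible representation belongs to the
family of exactly one point fixed by the grading action; twists.

Proof. For central `z` let `z₀` be its component of degree `0` (GRD) and `z₀ ≡ a`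
(OM (1)); `a` is central in `ℂW` (OM (3)), so it acts on `E` by a scalar `p z` (Schur:
an eigenvalue of `a` on `E`, the eigenspace is stable).  `p` is an algebra homomorphism (OM (2),
(4); `(z z')_0 = Σ_d z_d z'_{-d}`, and for `d ≠ 0` `z_d z'_{-d} ≡ 0`: if `e > 0`,
the component of degree `-e` of the centre is in `H j(X)` (PBW: `d(f) - d(g) = -e` forces
`d(g) > 0`), and `z_d z'_{-d} = z'_{-d} z_d`, so this product is in `H j(X)`).  Uniqueness: both
characters agree on degree `0` and vanish in degree `≠ 0` (`p (z_d) = p(γ s z_d) = s^d p (z_d)`).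
Twist: if `E_j ≅ E_i` twisted by `θ` and `E_i` is in the family of `p` and `p` is fixed by `σ`, then
`E_j` is in the family of `p`: `z ≡ a` implies `σ z ≡ θ(a)` (`σ` preserves `H j(X)`), `σ z` is
central of degree 0, `θ(a)` acts on `E_i` by `p (σ z) = p z`, so `a` acts on `E_j` by `p z`;
conversely as well (inverse).  Similarly if `Tw i i` and `E_i` is in the family of `p` then `p` is
fixed by `σ`. -/
def S_CHAR : Prop :=
  ∀ (n : ℕ) (W : Type) [Group W] [Fintype W] (D : Rd n W) (H : Type) [Ring H] [Algebra ℂ H]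
    (Φ : Full D H) (S : IrrSys W),
    (∀ i, ∃ p : Zc H →ₐ[ℂ] ℂ, PG Φ p ∧ Fam Φ p (S.ρ i) ∧
      ∀ p' : Zc H →ₐ[ℂ] ℂ, PG Φ p' → Fam Φ p' (S.ρ i) → p' = p) ∧
    (∀ p : Zc H →ₐ[ℂ] ℂ, PG Φ p → PS Φ p → ∀ i j, Tw S D.θ i j →
      (Fam Φ p (S.ρ i) ↔ Fam Φ p (S.ρ j))) ∧
    (∀ p : Zc H →ₐ[ℂ] ℂ, PG Φ p → ∀ i, Tw S D.θ i i → Fam Φ p (S.ρ i) → PS Φ p)

/-- **Job BV** (250 lines; may use OM, GRD, CST5): the definition with baby Verma modules.
`ys` spans the same subspace as the `y_b`.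

Proof. Let `B = (H ⊗ E)/BVrel`, `ē` the class of `1 ⊗ e`.
(i) `e ↦ ē` is injective: define `π : H → ℂW`, `π(Σ μ_w(q_w)) = Σ_w (ε⊗ε)(q_w) w` (`ε` = constant
coefficient) and `H ⊗ E → E`, `h ⊗ e ↦ π(h) e`; it kills the generators of `BVrel` multiplied by
any `h' ∈ H`: `π(h' y) = 0`, `π(h' w) = π(h') w`, `π(h' f) = π(f h') = 0` for an invariant `f`
(central, `ci`) without constant term (`π(i f · h) = ε(f) π(h)`), and maps `1 ⊗ e` to `e`.
(→) Let `z` be central of degree 0, `z ≡ a` mod `H j(X)`.  Then `z ē = (a e)‾`, `a` is central in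
`ℂW` (OM) so it acts by a scalar `λ` on the irreducible `E` (Schur), and
`(z - p z)^N ē = (λ - p z)^N ē = 0` gives `λ = p z`.
(←) `z = Σ z_d` (GRD); `p z_d = 0` for `d ≠ 0` (PG).  `z_0 - p z_0` kills `ē` for all `e` (OM (1)
and Fam), hence all of `B` (`B` is generated by the `ē`, `z_0` central).  For `d ≠ 0`, `z_d` is
nilpotent on `B`: `B` is spanned by the `i f ē`, `z_d i f ē = i f z_d ē` and
`z_d ē ∈ Σ i(F_d) E‾` (`F_d` polynomials of degree `d`; `0` if `d < 0`) by PBW and degrees; and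
`i(F_m) E‾ = 0` for large `m` because `F/(F^W_+)F` has finite dimension (CST5: `F / (f)` is
isomorphic to `W → ℂ`; so homogeneous polynomials of large degree are in `(f)`: finite dimension of
a graded quotient).  Sums of commuting nilpotents are nilpotent. -/
def S_BV : Prop :=
  ∀ (n : ℕ) (W : Type) [Group W] [Fintype W] (D : Rd n W) (H : Type) [Ring H] [Algebra ℂ H]
    (Φ : Full D H) (ys : Set H),
    Submodule.span ℂ ys = Submodule.span ℂ (Set.range fun b => Φ.T.j (X b)) →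
    ∀ p : Zc H →ₐ[ℂ] ℂ, PG Φ p →
    ∀ (E : Type) [AddCommGroup E] [Module ℂ E] [FiniteDimensional ℂ E]
      (ρE : Representation ℂ W E), Nontrivial E →
      (∀ U : Submodule ℂ E, (∀ w, ∀ x ∈ U, ρE w x ∈ U) → U = ⊥ ∨ U = ⊤) →
      (BVfam H Φ.T.u ys {h | ∃ f : MvPolynomial (Fin n) ℂ, (∀ w, act (D.ρ w) f = f) ∧
        constantCoeff f = 0 ∧ h = Φ.T.i f} p ρE ↔ Fam Φ p ρE)

/-! ## H. The spherical module and the trace formula -/

/-- All data attached to the algebra: basic invariants of both sides (central elements `F_a`,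
`G_a`), the skew group algebra `Λ` of the centre, and the spherical module `Sp ≅ e H e`
(`e = |W|⁻¹ Σ w`) with its action of the centre and of `t`. -/
structure Su {n : ℕ} {W : Type} [Group W] [Fintype W] (D : Rd n W) (H : Type) [Ring H]
    [Algebra ℂ H] (Λ : Type) [Ring Λ] [Algebra ℂ Λ] (Sp : Type) [AddCommGroup Sp] [Module ℂ Sp]
    [Module Λ Sp] [IsScalarTower ℂ Λ Sp] where
  Φ : Full D H
  CF : Cdat D
  D' : Rd n W
  hρ : D'.ρ = dualG.comp D.ρ
  hθ : D'.θ = D.θ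
  ht : D'.t = dualG D.t
  CG : Cdat D'
  F : Fin n → Zc H
  hF : ∀ a, (F a : H) = Φ.T.i (CF.f a)
  G : Fin n → Zc H
  hG : ∀ a, (G a : H) = Φ.T.j (CG.f a)
  σ : Zc H ≃ₐ[ℂ] Zc H
  hσ : ∀ z, (σ z : H) = Φ.σ z
  s : Skew (Zc H) σ Λ
  ψ : Sp →ₗ[ℂ] H
  ψinj : Function.Injective ψ
  ψran : ∀ h : H, (∃ m, ψ m = h) ↔
    ((∑ w, Φ.T.u w) * h = (Fintype.card W : ℂ) • h ∧ h * ∑ w, Φ.T.u w = (Fintype.card W : ℂ) • h)
  ψz : ∀ (z : Zc H) m, ψ (s.ι z • m) = z * ψ m
  ψt : ∀ m, ψ (s.t • m) = Φ.σ (ψ m)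

/-- **Job SU** (200 lines; may use DUAL, CST5, LAM): existence of all data.

Proof. `F a`, `G a`: `ci`, `cj`.  `σ` of the centre: restriction of `Φ.σ`.  `Φ.σ` has finite order
on `H`: `σ^k` is the identity on generators for `k = D.m` (`act (t^m) = 1`; `θ^m = 1` because `ρ` is
injective (by `vreg`) and `ρ (θ^m w) = t^m ρ w t^(-m) = ρ w`).  LAM for `n = D.m`.
`Sp = {h | (Σ u w) h = |W| h, h (Σ u w) = |W| h}` as a subspace of `H`, stable under the
centre and `Φ.σ`; module structure by the universal property in LAM with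
`B = Module.End ℂ Sp` (`Module.compHom`). -/
def S_SU : Prop :=
  ∀ (n : ℕ) (W : Type) [Group W] [Fintype W] (D : Rd n W) (H : Type) [Ring H] [Algebra ℂ H]
    (Φ : Full D H),
    ∃ (Λ : Type) (_ : Ring Λ) (_ : Algebra ℂ Λ) (Sp : Type) (_ : AddCommGroup Sp)
      (_ : Module ℂ Sp) (_ : Module Λ Sp) (_ : IsScalarTower ℂ Λ Sp) (A : Su D H Λ Sp),
      A.Φ = Φ ∧ ∀ (B : Type) [Ring B] [Algebra ℂ B] (f : Zc H →ₐ[ℂ] B) (T : B),
        T ^ A.s.n = 1 → (∀ z, T * f z = f (A.σ z) * T) →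
        ∃ K : Λ →ₐ[ℂ] B, (∀ z, K (A.s.ι z) = f z) ∧ K A.s.t = T

/-- **Job ZFIN** (200 lines; may use FG): finiteness.

Proof. `P = MvPolynomial (Fin n ⊕ Fin n) ℂ` acts on `H` through `f_a, g_a` (central).  `H` is a
finitely generated `P`-module: `H = Σ_{w,k,l} P · i(c_k) u w j(c'_l)` by PBW and `free` of both
`Cdat`s.  `P` is noetherian, so the submodules `Zc H` and (the image of) `Sp` of `H` are
finitely generated over `P`, which gives the two `FG` statements; `Zc H` is a finitely generated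
algebra, so noetherian. -/
def S_ZFIN : Prop :=
  ∀ (n : ℕ) (W : Type) [Group W] [Fintype W] (D : Rd n W) (H : Type) [Ring H] [Algebra ℂ H]
    (Λ : Type) [Ring Λ] [Algebra ℂ Λ] (Sp : Type) [AddCommGroup Sp] [Module ℂ Sp]
    [Module Λ Sp] [IsScalarTower ℂ Λ Sp] (A : Su D H Λ Sp),
    IsNoetherianRing (Zc H) ∧ FG (List.ofFn A.F ++ List.ofFn A.G) (Zc H) ∧
      FG ((List.ofFn A.F ++ List.ofFn A.G).map A.s.ι) Sp

/-- **Job REGN** (250 lines; may use EREG, PHI): reduction of the Euler characteristic of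
`N = Sp/(F_a, G_b : ζ ≠ 1) Sp` over the remaining parameters to `Sp/(all F_a, G_b) Sp`.
`en` enumerates the parameters with eigenvalue `1` and `a` evaluates at them.

Proof. Let `A = MvPolynomial (Fin r) ℂ`.  By EREG it is enough that `N` is an `A`-linear direct
summand of a free `A`-module; EREG gives `E = φ(N / Σ x_i N)` and `N/Σ x_i N ≅ Sp/(all) Sp`.
`He = {h | h e = h}` is, by PBW, `≅ F ⊗ F` by `f ⊗ g ↦ i f j g e`
(`i f u w j g e = i f j(w g) e`), the central elements act by `F_a (f ⊗ g) = f_a f ⊗ g` and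
`G_a (f ⊗ g) = f ⊗ g_a g` (centrality), so with `free` of both `Cdat`s
`He = ⊕_{k,l} P · i(c_k) j(c'_l) e` is free over `P = ℂ[F_a, G_a] = MvPolynomial (Fin n ⊕ Fin n)`,
and `He/(F_a, G_b : ζ ≠ 1)He` is free over `P/(those variables) = A`.  `Sp = e H e` is a direct
summand of `He` (`h ↦ e h`), compatibly with the centre; hence `N` is a direct summand of
`He/(..)He`. -/
def S_REGN : Prop :=
  ∀ (n : ℕ) (W : Type) [Group W] [Fintype W] (D : Rd n W) (H : Type) [Ring H] [Algebra ℂ H]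
    (Λ : Type) [Ring Λ] [Algebra ℂ Λ] (Sp : Type) [AddCommGroup Sp] [Module ℂ Sp]
    [Module Λ Sp] [IsScalarTower ℂ Λ Sp] (A : Su D H Λ Sp) (φ : Fn Λ), IsoFn φ → AddFn φ →
    ∀ (r : ℕ) (en : Fin r ≃ {i // A.CF.ζ i = 1} ⊕ {i // A.CG.ζ i = 1})
      (a : MvPolynomial (Fin r) ℂ →ₐ[ℂ] Zc H),
      (∀ k, a (X k) = Sum.elim (fun i => A.F i.1) (fun i => A.G i.1) (en k)) →
      EE φ (List.ofFn fun k => A.s.ι (a (X k)))
        (Sp ⧸ Submodule.span Λ {v : Sp | ∃ (i : Fin n) (m : Sp),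
          (A.CF.ζ i ≠ 1 ∧ v = A.s.ι (A.F i) • m) ∨ (A.CG.ζ i ≠ 1 ∧ v = A.s.ι (A.G i) • m)}) =
      φ (Sp ⧸ Submodule.span Λ {v : Sp | ∃ (i : Fin n) (m : Sp),
          v = A.s.ι (A.F i) • m ∨ v = A.s.ι (A.G i) • m})

/-- **Job TRACE** (400 lines; may use PHI, OM, GRD): the trace of `t` on the `p`-part of
`S₀ = Sp/(all F_a, G_b)Sp` is the trace of `θ` on the sum `U` of the blocks of the family of `p`
in the group algebra.

Proof. (a) As in REGN: `He ≅ F ⊗ F`, `f ⊗ g ↦ i f j g e`; `W` acts by left multiplication: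
`w (f ⊗ g) = w f ⊗ w g`, `σ (f ⊗ g) = t f ⊗ t g` (`σ e = e`), so modulo `(F_a, G_a)`:
`M = He/(..)He ≅ C₁ ⊗ C₂`, `C₁ = F/(f_a) ≅ (W → ℂ)` by `CF.Ψ`, `C₂ = F/(g_a) ≅ (W → ℂ)` by
`CG.Ψ`, and `S₀ ≅ e M = M^W`.
(b) `M` is filtered by the `H`-submodules `M_{≥ m} = C₁ ⊗ (C₂)_{≥ m}` (`C₂` is graded by the
degree in the `y`'s: `y_a i f j g e = i f j (X_a g) e + (terms i f' u w j g e)`, and
`u w j g e = j (w g) e` has the same degree).  A central `z` of degree `0`, `z ≡ a` mod `H j(X)`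
(OM (1)), acts: `z i f j g e = i f z j g e`, and `z - a = Σ i f' u w j g'` with `g'` without
constant term, so `z (f ⊗ g) ≡ f ⊗ a g` mod `M_{≥ m+1}` for `g` of degree `m`.  Central elements of
degree `≠ 0` are nilpotent on `M` (graded by `deg f - deg g`, finite dimension), and `p` is zero on
them.
(c) For a module `M'` of finite dimension over `ℂW` let `M'_P` be the sum of the isotypic parts of
the `E_i` in the family.  Since `a` (central in `ℂW`) acts on `E_i` by the scalar `p_i(z)`, and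
for `i` not in the family there is `z` with `p_i(z) ≠ p(z)` [by definition of `Fam`], the
generalised `p`-eigenspace of `C₁ ⊗ (C₂)_m` (action by `id ⊗ a`) is
`C₁ ⊗ ((C₂)_m)_P`.  The functor `M' ↦ M'^W` and generalised eigenspaces are exact, so by
additivity of the trace (filtration of `S₀`)
`phi(S₀) = Σ_m tr(t | (C₁ ⊗ ((C₂)_m)_P)^W) = tr (t | (C₁ ⊗ (C₂)_P)^W)`.
(d) `C₁ ≅ (W → ℂ)` equivariantly: `(C₁ ⊗ X)^W ≅ X` as a `t`-module for `X` with compatible actions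
of `W` and `t`: invariants of functions `W → X`, `φ(w u) = w φ(u)`, correspond to `φ(1)`, and
`(t φ)(u) = t φ(θ⁻¹ u)`, `(tφ)(1) = t φ(1)`.  So `phi(S₀) = tr(t | (C₂)_P)`.
(e) `C₂ ≅ (W → ℂ) ≅ ℂW` (`u ↦ δ_u`, `w δ_u = δ_{wu}`, `t δ_u = δ_{θ u}`), and `(ℂW)_P = U`. -/
def S_TRACE : Prop :=
  ∀ (n : ℕ) (W : Type) [Group W] [Fintype W] (D : Rd n W) (H : Type) [Ring H] [Algebra ℂ H]
    (Λ : Type) [Ring Λ] [Algebra ℂ Λ] (Sp : Type) [AddCommGroup Sp] [Module ℂ Sp]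
    [Module Λ Sp] [IsScalarTower ℂ Λ Sp] (A : Su D H Λ Sp) (p : Zc H →ₐ[ℂ] ℂ), PG A.Φ p →
    PS A.Φ p → ∀ (S : IrrSys W) (U : Submodule ℂ (MonoidAlgebra ℂ W)),
      (∀ a, a ∈ U ↔ ∀ i, ¬ Fam A.Φ p (S.ρ i) → (S.ρ i).asAlgebraHom a = 0) →
      ∀ T : U →ₗ[ℂ] U,
        (∀ u : U, (T u : MonoidAlgebra ℂ W) =
          MonoidAlgebra.mapDomain D.θ (u : MonoidAlgebra ℂ W)) →
        phi A.s.ι p A.s.t (Sp ⧸ Submodule.span Λ {v : Sp | ∃ (i : Fin n) (m : Sp),
          v = A.s.ι (A.F i) • m ∨ v = A.s.ι (A.G i) • m}) = LinearMap.trace ℂ U T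

end Pool.Agent.V5helper32.CM
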