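import Pool.Agent.V5helper32.CM.Def

/-!
# Project CM (helper32): character sums over Calogero-Moser families (MP_c89606_al)

Wave 1: statements of the parts which do not mention Cherednik algebras.
A job XX proves `theorem t_XX (h1 : S_A) (h2 : S_B) ... : S_XX` (the jobs it may use are listed in
the table `cm_jobs`), in a file `Pool/Agent/V5<seat>/CM/XX.lean` which imports this file.
Complete proofs are in the comments.
-/

namespace Pool.Agent.V5helper32.CM

open MvPolynomial

/-! ## A. Euler characteristics of Koszul complexes -/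

/-- A number attached to every module over the complex algebra `Λ`. -/
abbrev Fn (Λ : Type) [Ring Λ] [Algebra ℂ Λ] :=
  ∀ (M : Type) [AddCommGroup M] [Module ℂ M] [Module Λ M] [IsScalarTower ℂ Λ M], ℂ

section

variable {Λ : Type} [Ring Λ] [Algebra ℂ Λ]

/-- The largest submodule killed by `x` (for central `x`: the kernel of `x`). -/
def kx (x : Λ) (M : Type) [AddCommGroup M] [Module Λ M] : Submodule Λ M where
  carrier := {m | ∀ l : Λ, x • l • m = 0}
  add_mem' := by
    intro a b ha hb l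
    rw [smul_add, smul_add, ha l, hb l, add_zero]
  zero_mem' := by
    intro l
    rw [smul_zero, smul_zero]
  smul_mem' := by
    intro c m hm l
    rw [smul_smul l c m]
    exact hm (l * c)

/-- The submodule generated by `x • M` (for central `x`: the range of `x`). -/
def rx (x : Λ) (M : Type) [AddCommGroup M] [Module Λ M] : Submodule Λ M :=
  Submodule.span Λ (Set.range fun m : M => x • m)

/-- The Euler characteristic `E(xs; M)` with respect to `φ`: `E([]; M) = φ M` and
`E(x :: xs; M) = E(xs; M / x M) - E(xs; M[x])`. -/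
noncomputable def EE (φ : Fn Λ) : List Λ → Fn Λ
  | [] => φ
  | x :: xs => fun M _ _ _ _ => EE φ xs (M ⧸ rx x M) - EE φ xs (kx x M)

/-- All members of the list are central. -/
def CenL (xs : List Λ) : Prop := ∀ x ∈ xs, ∀ l : Λ, x * l = l * x

/-- `M` is finitely generated over `ℂ[xs]`: there is a finite set `s` such that every complex
subspace which contains `s` and is stable under all `x ∈ xs` is everything. -/
def FG (xs : List Λ) (M : Type) [AddCommGroup M] [Module ℂ M] [Module Λ M] : Prop :=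
  ∃ s : Finset M, ∀ N : Submodule ℂ M, (∀ v ∈ s, v ∈ N) →
    (∀ x ∈ xs, ∀ m ∈ N, x • m ∈ N) → N = ⊤

/-- `φ` is invariant under isomorphisms. -/
def IsoFn (φ : Fn Λ) : Prop :=
  ∀ (M M' : Type) [AddCommGroup M] [Module ℂ M] [Module Λ M] [IsScalarTower ℂ Λ M]
    [AddCommGroup M'] [Module ℂ M'] [Module Λ M'] [IsScalarTower ℂ Λ M'] (_ : M ≃ₗ[Λ] M'),
    φ M = φ M'

/-- `φ` is additive on the modules of finite dimension. -/
def AddFn (φ : Fn Λ) : Prop :=
  ∀ (M : Type) [AddCommGroup M] [Module ℂ M] [Module Λ M] [IsScalarTower ℂ Λ M]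
    [FiniteDimensional ℂ M] (N : Submodule Λ M), φ M = φ N + φ (M ⧸ N)

end

/-- A property of a list of elements of `Λ` and a `Λ`-module. -/
abbrev Pr (Λ : Type) [Ring Λ] [Algebra ℂ Λ] :=
  List Λ → ∀ (M : Type) [AddCommGroup M] [Module ℂ M] [Module Λ M] [IsScalarTower ℂ Λ M], Prop

/-- A finiteness condition which is good enough for the theory of Euler characteristics. -/
structure Good {Λ : Type} [Ring Λ] [Algebra ℂ Λ] (P : Pr Λ) : Prop where
  sub : ∀ xs : List Λ, CenL xs → ∀ (M : Type) [AddCommGroup M] [Module ℂ M] [Module Λ M]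
    [IsScalarTower ℂ Λ M] (N : Submodule Λ M), P xs M → P xs N
  quo : ∀ xs : List Λ, CenL xs → ∀ (M : Type) [AddCommGroup M] [Module ℂ M] [Module Λ M]
    [IsScalarTower ℂ Λ M] (N : Submodule Λ M), P xs M → P xs (M ⧸ N)
  ext : ∀ xs : List Λ, CenL xs → ∀ (M : Type) [AddCommGroup M] [Module ℂ M] [Module Λ M]
    [IsScalarTower ℂ Λ M] (N : Submodule Λ M), P xs N → P xs (M ⧸ N) → P xs M
  iso : ∀ xs : List Λ, CenL xs → ∀ (M M' : Type) [AddCommGroup M] [Module ℂ M] [Module Λ M]
    [IsScalarTower ℂ Λ M] [AddCommGroup M'] [Module ℂ M'] [Module Λ M'] [IsScalarTower ℂ Λ M']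
    (_ : M ≃ₗ[Λ] M'), P xs M → P xs M'
  cons : ∀ (x : Λ) (xs : List Λ), CenL (x :: xs) → ∀ (M : Type) [AddCommGroup M] [Module ℂ M]
    [Module Λ M] [IsScalarTower ℂ Λ M], (∀ m : M, x • m = 0) → P (x :: xs) M → P xs M
  nil : ∀ (M : Type) [AddCommGroup M] [Module ℂ M] [Module Λ M] [IsScalarTower ℂ Λ M],
    P [] M → FiniteDimensional ℂ M
  perm : ∀ xs ys : List Λ, CenL xs → xs.Perm ys → ∀ (M : Type) [AddCommGroup M] [Module ℂ M]
    [Module Λ M] [IsScalarTower ℂ Λ M], P xs M → P ys M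

/-- For a commutative algebra `D`: `M` is finitely generated over `D` and
`D / (ann M + (xs))` has finite dimension. -/
def FDc {D : Type} [CommRing D] [Algebra ℂ D] : Pr D := fun xs M _ _ _ _ =>
  Module.Finite D M ∧
    FiniteDimensional ℂ (D ⧸ (Module.annihilator D M ⊔ Ideal.span {x | x ∈ xs}))

/-- `FG` as a property. -/
def FGp (Λ : Type) [Ring Λ] [Algebra ℂ Λ] : Pr Λ := fun xs M _ _ _ _ => FG xs M

/-- **Job FG** (120 lines).  Let `xs` be a list of central elements.
(1) `FG` is a good condition.  (2) `FG xs M` implies that `M` is a noetherian `Λ`-module.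
(3) `FG xs M` implies `FG ys M` if `xs ⊆ ys`.

Proof. `A = Algebra.adjoin ℂ {x | x ∈ xs}` is a commutative subalgebra of `Λ`, generated by
finitely many elements, so it is noetherian, and `FG xs M` means that `M` is a finitely generated
`A`-module (the `A`-span of `s` is a complex subspace stable under `xs`).  So `M` is a noetherian
`A`-module; all `Λ`-submodules are `A`-submodules.  (3), `cons`, `nil`, `perm`, `iso` are immediate
from the definition. -/
def S_FG : Prop :=
  ∀ (Λ : Type) [Ring Λ] [Algebra ℂ Λ], Good (FGp Λ) ∧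
    ∀ xs : List Λ, CenL xs →
      ∀ (M : Type) [AddCommGroup M] [Module ℂ M] [Module Λ M] [IsScalarTower ℂ Λ M],
        FG xs M → IsNoetherian Λ M ∧ ∀ ys : List Λ, xs ⊆ ys → FG ys M

/-- **Job FDC** (100 lines): `FDc` is a good condition over a noetherian commutative algebra.

Proof. `sub`, `quo`: the annihilator grows.  `ext`: if `I = ann N + (xs)` and `J = ann (M/N) + (xs)`
have finite codimension then so has `I J` (`I / I J` is a finitely generated `D/J`-module), and
`I J ⊆ ann M + (xs)`.  `cons`: `x ∈ ann M`.  `nil`: `M` is a finitely generated module over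
`D / ann M`, which has finite dimension. -/
def S_FDC : Prop :=
  ∀ (D : Type) [CommRing D] [Algebra ℂ D] [IsNoetherianRing D], Good (FDc (D := D))

/-- **Job ECMP** (100 lines): comparison of Euler characteristics over two algebras.
`l k ∈ Λ` and `l' k ∈ Λ'` (`k : K`) are corresponding elements.  Suppose `φ M = η φ' M'` whenever
there is a complex linear isomorphism `M ≃ M'` which intertwines all pairs.  Then the same holds
for `EE` over a list of corresponding central elements.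

Proof. Induction on the list.  For central `x`, `kx x M = {m | x • m = 0}` and
`rx x M = {x • m}`, so `ψ : M ≃ M'` restricts to `kx (l k) M ≃ kx (l' k) M'` and induces
`M / rx (l k) M ≃ M' / rx (l' k) M'`, and these intertwine all pairs (the new modules get the
intertwining property for ALL `k : K`: for the kernel note `l k' • m` is in the kernel again). -/
def S_ECMP : Prop :=
  ∀ (Λ Λ' : Type) [Ring Λ] [Algebra ℂ Λ] [Ring Λ'] [Algebra ℂ Λ'] (K : Type) (l : K → Λ)
    (l' : K → Λ') (η : ℂ) (φ : Fn Λ) (φ' : Fn Λ'),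
    (∀ (M M' : Type) [AddCommGroup M] [Module ℂ M] [Module Λ M] [IsScalarTower ℂ Λ M]
      [AddCommGroup M'] [Module ℂ M'] [Module Λ' M'] [IsScalarTower ℂ Λ' M'] (ψ : M ≃ₗ[ℂ] M'),
      (∀ k m, ψ (l k • m) = l' k • ψ m) → φ M = η * φ' M') →
    ∀ ks : List K, CenL (ks.map l) → CenL (ks.map l') →
    ∀ (M M' : Type) [AddCommGroup M] [Module ℂ M] [Module Λ M] [IsScalarTower ℂ Λ M]
      [AddCommGroup M'] [Module ℂ M'] [Module Λ' M'] [IsScalarTower ℂ Λ' M'] (ψ : M ≃ₗ[ℂ] M'),
      (∀ k m, ψ (l k • m) = l' k • ψ m) → EE φ (ks.map l) M = η * EE φ' (ks.map l') M'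

/-- **Job EISO** (40 lines): `EE φ xs` is invariant under isomorphisms.  Induction on `xs` (an
isomorphism maps `kx x M` onto `kx x M'` and `rx x M` onto `rx x M'`). -/
def S_EISO : Prop :=
  ∀ (Λ : Type) [Ring Λ] [Algebra ℂ Λ] (φ : Fn Λ), IsoFn φ → ∀ xs : List Λ, IsoFn (EE φ xs)

/-- **Job EADD** (150 lines; may use EISO): additivity of the Euler characteristic.

Proof. Induction on `xs`; `xs = []` is `AddFn` (with `Good.nil`).  For `x :: xs` and
`0 → N → M → M/N → 0` let `K = {m ∈ M | x m ∈ N}` (a `Λ`-submodule, `x` central).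
There are exact sequences of `Λ`-modules, all with `P xs` (`sub`, `quo`, `iso`, `cons`; they are
subquotients of `M` killed by `x`):
`0 → N[x] → M[x] → I → 0` with `I ⊆ (M/N)[x]` the image,
`0 → I → (M/N)[x] → J → 0` with `J = xK / xN ⊆ N/xN` (`(M/N)[x] = K/N`, `k ↦ x k mod x N`, the
kernel is `(N + M[x])/N = I`),
`0 → J → N/xN → L → 0`, `L = N/xK = N/(N ∩ xM) = (N + xM)/xM ⊆ M/xM`,
`0 → L → M/xM → (M/N)/x(M/N) → 0`.
By induction `E(xs;-)` is additive on these, and it is invariant under isomorphisms, so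
`E(M/xM) - E(M[x]) = [E(L) + E((M/N)/x)] - [E(N[x]) + E(I)]
 = E(N/xN) - E(J) + E((M/N)/x) - E(N[x]) - E((M/N)[x]) + E(J)`. -/
def S_EADD : Prop :=
  ∀ (Λ : Type) [Ring Λ] [Algebra ℂ Λ] (φ : Fn Λ), IsoFn φ → AddFn φ →
    ∀ P : Pr Λ, Good P → ∀ xs : List Λ, CenL xs →
    ∀ (M : Type) [AddCommGroup M] [Module ℂ M] [Module Λ M] [IsScalarTower ℂ Λ M],
      P xs M → ∀ N : Submodule Λ M, EE φ xs M = EE φ xs N + EE φ xs (M ⧸ N)

/-- **Job ESWAP** (150 lines; may use EISO, EADD): the order of the list does not matter.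

Proof. Induction on the permutation; `cons` and `trans` are clear.  Exchange of
the first two: `x, y` central, `E = E(xs; -)`.  With `A = M/xM`, `B = M[x]`:
`E(x::y::xs; M) = E(A/yA) - E(A[y]) - E(B/yB) + E(B[y])` and symmetrically.  Here
`A/yA ≅ M/(xM+yM)` and `B[y] ≅ M[x] ∩ M[y]` are symmetric in `x, y`.  It remains to show that
`E(A[y]) + E(B/yB)` is symmetric.  Let `H = {(a, b) ∈ M × M | x a + y b = 0} / {(y m, - x m)}`
(a `Λ`-module killed by `x` and `y`: `x (a, b) = (- y b, x b)`).  The map `H → A[y]`,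
`(a, b) ↦ b mod x M` is
surjective (`y b ∈ x M` means `y b = - x a`), its kernel consists of the classes with `b = x m'`,
i.e. (adding `(y m', -x m')`) of the classes of `(a, 0)` with `x a = 0`, and `(a, 0)`,
`a ∈ M[x]`, is zero in `H` iff `a = y m`, `x m = 0` for some `m`, that is iff `a ∈ y B`.  So
`E(H) = E(A[y]) + E(B/yB)` (EADD for `xs`; `P (x::y::xs) H` by `ext`, then `cons`), and `H` is
symmetric up to the isomorphism `(a, b) ↦ (b, a)` (up to a sign on the relations). -/
def S_ESWAP : Prop :=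
  ∀ (Λ : Type) [Ring Λ] [Algebra ℂ Λ] (φ : Fn Λ), IsoFn φ → AddFn φ →
    ∀ P : Pr Λ, Good P → ∀ xs ys : List Λ, xs.Perm ys → CenL xs →
    ∀ (M : Type) [AddCommGroup M] [Module ℂ M] [Module Λ M] [IsScalarTower ℂ Λ M],
      P xs M → EE φ xs M = EE φ ys M

/-- **Job ETOR** (200 lines; may use FG, EISO, EADD): the Euler characteristic of a torsion module
vanishes.

Proof. Induction on `r`.  If `r = 0` then `q` is a nonzero constant, so `M = 0`, and `E = φ(0) = 0`
by additivity (`φ 0 = φ 0 + φ 0`).  Let `r ≥ 1`, `x = a (X 0)`, `xs'` the rest, `a'` the restriction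
of `a` to the polynomials in `X 1, ..., X (r-1)` (`MvPolynomial.rename Fin.succ`).
(i) If `x` kills `M` then `M / x M = M`, `M[x] = M`, so `E(x::xs'; M) = 0` without any condition.
By additivity and induction the same holds if `x ^ k` kills `M` (filtration by `x ^ j M`).
(ii) In general let `M'` be the submodule of the elements killed by a power of `x`; as `M` is
noetherian one power `x ^ k` kills `M'`, and `x` is injective on `M'' = M / M'`.  By additivity
and (i) we may assume that `x` is injective on `M`.  Write `q = (X 0) ^ k q'` with `X 0 ∤ q'`; then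
`a q'` kills `M` (as `x ^ k` is injective).  Let `q₀` be `q'` with `X 0` replaced by `0`, a nonzero
polynomial in `X 1, ...`.  `a' q₀` kills `M / x M` (as `q' - q₀` is divisible by `X 0`), which has
`FG xs'`, so `E(x::xs';M) = E(xs'; M/xM) - E(xs'; 0) = 0` by induction. -/
def S_ETOR : Prop :=
  ∀ (Λ : Type) [Ring Λ] [Algebra ℂ Λ] (φ : Fn Λ), IsoFn φ → AddFn φ →
    ∀ (r : ℕ) (a : MvPolynomial (Fin r) ℂ →ₐ[ℂ] Λ), (∀ q l, a q * l = l * a q) →
    ∀ (M : Type) [AddCommGroup M] [Module ℂ M] [Module Λ M] [IsScalarTower ℂ Λ M],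
      FG (List.ofFn fun i => a (X i)) M →
      ∀ q : MvPolynomial (Fin r) ℂ, q ≠ 0 → (∀ m : M, a q • m = 0) →
        EE φ (List.ofFn fun i => a (X i)) M = 0

/-- **Job EREG** (200 lines; may use EISO; additivity is only needed for `φ 0 = 0`): the
Euler characteristic of a module `M` which is a direct summand (as a module over
`A = ℂ[X_0, ..., X_(r-1)]`) of a free `A`-module `F`.

Proof. Induction on `r` (`A' = ` polynomials in `X 1, ...`).  For `r = 0`: `M / ⊥ ≅ M`.  For
`r ≥ 1`, `x = a (X 0)`: `X 0` is injective on the free module `F`, and `j : M → F` is injective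
(`π j = 1`), so `x` is injective on `M` and `E(x::xs';M) = E(xs'; M/xM) - E(xs'; 0)`,
`E(xs'; 0) = 0`.  `M/xM` is an `A'`-linear direct summand of `F/X_0 F`, which is free over
`A/X_0 ≅ A'`.  By induction `E(xs'; M/xM) = φ((M/xM)/Σ x_i (M/xM))` and this quotient is
isomorphic to `M/Σ x_i M`. -/
def S_EREG : Prop :=
  ∀ (Λ : Type) [Ring Λ] [Algebra ℂ Λ] (φ : Fn Λ), IsoFn φ → AddFn φ →
    ∀ (r : ℕ) (a : MvPolynomial (Fin r) ℂ →ₐ[ℂ] Λ), (∀ q l, a q * l = l * a q) →
    ∀ (M : Type) [AddCommGroup M] [Module ℂ M] [Module Λ M] [IsScalarTower ℂ Λ M]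
      (F : Type) [AddCommGroup F] [Module (MvPolynomial (Fin r) ℂ) F]
      [Module.Free (MvPolynomial (Fin r) ℂ) F] (j : M →+ F) (π : F →+ M),
      (∀ q m, j (a q • m) = q • j m) → (∀ (q : MvPolynomial (Fin r) ℂ) v, π (q • v) = a q • π v) →
      (∀ m, π (j m) = m) →
      ∀ N : Submodule Λ M, N = Submodule.span Λ {v | ∃ (i : Fin r) (m : M), v = a (X i) • m} →
        EE φ (List.ofFn fun i => a (X i)) M = φ (M ⧸ N)

/-! ## B. Modules over a commutative algebra with an automorphism of finite order -/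

/-- `Λ` is generated by the commutative algebra `Z` and an element `t` of finite order with
`t z = τ(z) t`. -/
structure Skew (Z : Type) [CommRing Z] [Algebra ℂ Z] (τ : Z ≃ₐ[ℂ] Z) (Λ : Type) [Ring Λ]
    [Algebra ℂ Λ] where
  ι : Z →ₐ[ℂ] Λ
  t : Λ
  n : ℕ
  npos : 0 < n
  tn : t ^ n = 1
  τn : ∀ z, (τ ^ n) z = z
  comm : ∀ z, t * ι z = ι (τ z) * t
  gen : ∀ l : Λ, ∃ c : ℕ → Z, l = ∑ k ∈ Finset.range n, ι (c k) * t ^ k

/-- **Job LAM** (120 lines): existence of the skew group algebra with its universal property.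

Proof.  For instance `SkewMonoidAlgebra Z (Multiplicative (ZMod n))` of Mathlib with the action
of the generator by `τ` (it has `lift`), or `RingQuot` of a free algebra. -/
def S_LAM : Prop :=
  ∀ (Z : Type) [CommRing Z] [Algebra ℂ Z] (τ : Z ≃ₐ[ℂ] Z) (n : ℕ), 0 < n →
    (∀ z, (τ ^ n) z = z) →
    ∃ (Λ : Type) (_ : Ring Λ) (_ : Algebra ℂ Λ) (s : Skew Z τ Λ), s.n = n ∧
      ∀ (B : Type) [Ring B] [Algebra ℂ B] (f : Z →ₐ[ℂ] B) (T : B), T ^ n = 1 →
        (∀ z, T * f z = f (τ z) * T) →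
        ∃ F : Λ →ₐ[ℂ] B, (∀ z, F (s.ι z) = f z) ∧ F s.t = T

section

variable {Λ : Type} [Ring Λ] [Algebra ℂ Λ] {Z : Type} [CommRing Z] [Algebra ℂ Z]

/-- The generalised eigenspace of `Z` for the character `p`. -/
def gsp (ι : Z →ₐ[ℂ] Λ) (p : Z →ₐ[ℂ] ℂ) (M : Type) [AddCommGroup M] [Module ℂ M] [Module Λ M]
    [IsScalarTower ℂ Λ M] : Submodule ℂ M where
  carrier := {m | ∀ z : Z, ∃ N : ℕ, (ι z - algebraMap ℂ Λ (p z)) ^ N • m = 0}
  add_mem' := by
    intro a b ha hb z
    obtain ⟨N, hN⟩ := ha z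
    obtain ⟨N', hN'⟩ := hb z
    refine ⟨N + N', ?_⟩
    rw [smul_add]
    nth_rewrite 1 [add_comm N N']
    rw [pow_add, pow_add, mul_smul, mul_smul, hN, hN', smul_zero, smul_zero, add_zero]
  zero_mem' := by
    intro z
    exact ⟨0, by rw [smul_zero]⟩
  smul_mem' := by
    intro c m hm z
    obtain ⟨N, hN⟩ := hm z
    refine ⟨N, ?_⟩
    rw [smul_comm, hN, smul_zero]

open Classical in
/-- The trace of `t` on the generalised eigenspace of `Z` for the character `p`. -/
noncomputable def phi (ι : Z →ₐ[ℂ] Λ) (p : Z →ₐ[ℂ] ℂ) (t : Λ) : Fn Λ := fun M _ _ _ _ =>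
  if h : ∀ m ∈ gsp ι p M, Algebra.lsmul ℂ ℂ M t m ∈ gsp ι p M then
    LinearMap.trace ℂ (gsp ι p M) ((Algebra.lsmul ℂ ℂ M t).restrict h)
  else 0

end

/-- **Job PHI** (150 lines): `phi` is additive and invariant under isomorphisms if `p ∘ τ = p`.
Also `phi` only depends on the actions of `Z` and `t`.

Proof. `t` maps `gsp` into itself: `(ι z - p z)^N t m = t (ι (τ⁻¹ z) - p (τ⁻¹ z))^N m`.
On a module of finite dimension the image of `Z` is a commuting family of endomorphisms, so `M` is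
the direct sum of the simultaneous generalised eigenspaces
(`Module.End.iSup_iInf_maxGenEigenspace_eq_top_of_forall_mapsTo`, `independent_...`).  So
for a submodule `N`, `gsp N = N ∩ gsp M` and `gsp M → gsp (M/N)` is surjective (decompose a lift;
the components outside of `p` lie in `N`); the trace is additive in `0 → gsp N → gsp M →
gsp (M/N) → 0`.  The third claim is transport of structure. -/
def S_PHI : Prop :=
  (∀ (Z : Type) [CommRing Z] [Algebra ℂ Z] (τ : Z ≃ₐ[ℂ] Z) (Λ : Type) [Ring Λ] [Algebra ℂ Λ]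
    (s : Skew Z τ Λ) (p : Z →ₐ[ℂ] ℂ), (∀ z, p (τ z) = p z) →
    IsoFn (phi s.ι p s.t) ∧ AddFn (phi s.ι p s.t) ∧
    ∀ (M : Type) [AddCommGroup M] [Module ℂ M] [Module Λ M] [IsScalarTower ℂ Λ M],
      ∀ m ∈ gsp s.ι p M, s.t • m ∈ gsp s.ι p M) ∧
  (∀ (Z Z' : Type) [CommRing Z] [Algebra ℂ Z] [CommRing Z'] [Algebra ℂ Z']
    (Λ Λ' : Type) [Ring Λ] [Algebra ℂ Λ] [Ring Λ'] [Algebra ℂ Λ']
    (ι : Z →ₐ[ℂ] Λ) (t : Λ) (ι' : Z' →ₐ[ℂ] Λ') (t' : Λ') (e : Z → Z') (p : Z →ₐ[ℂ] ℂ)
    (p' : Z' →ₐ[ℂ] ℂ) (η : ℂ)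
    (M M' : Type) [AddCommGroup M] [Module ℂ M] [Module Λ M] [IsScalarTower ℂ Λ M]
      [AddCommGroup M'] [Module ℂ M'] [Module Λ' M'] [IsScalarTower ℂ Λ' M'] (ψ : M ≃ₗ[ℂ] M'),
    Function.Surjective e → (∀ z, p z = p' (e z)) → η ≠ 0 →
    (∀ z m, ψ (ι z • m) = ι' (e z) • ψ m) → (∀ m, ψ (t • m) = η • t' • ψ m) →
    phi ι p t M = η * phi ι' p' t' M')

/-- **Job DEV** (300 lines; may use FG, ECMP, EISO, EADD, ETOR, PHI): devissage.  `Q` is an ideal
which is the only prime ideal `q` with `τ z - z ∈ q` for all `z` and `q ∩ A = 0`.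
`D` is the cyclic module `Z/Q` on which `t` acts trivially.

Proof. Write `E_p(M) = EE (phi ι p t) xs M`; everything is `FG xs` and noetherian.  An eigenvector
means `m ≠ 0` in a `Λ`-module with `t m = η m`; `ann m = {z | ι z • m = 0}` is a `τ`-stable ideal.
`t` acts diagonalisably (`t^n = 1`), so a nonzero module has an eigenvector.
Claim 1. Let `m` be an eigenvector such that `q = ann m` is maximal among the annihilators of
eigenvectors of `M`; `M₁ = ι(Z) m` (a `Λ`-submodule).  If `u ∈ Z`, `τ u = ζ u`, `u ∉ q`, then `u m`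
is an eigenvector and `ann (u m) ⊇ q`, so `ann (u m) = q`: `u z ∈ q → z ∈ q`.  (*)
 Case a: there is `0 ≠ b ∈ A` with `a b ∈ q`.  Then `E_p(M₁) = 0` by ETOR.
 Case b: `A ∩ q = 0` and there is `u` as in (*) with `ζ ≠ 1`.  Multiplication by `u` is injective
 on `M₁` by (*) (`M₁ ≅ Z/q`) with image `u M₁`, a submodule, and `ψ = (m ↦ u m) : M₁ ≃ u M₁`
 satisfies `t ψ = ζ ψ t`, so `E_p(u M₁) = ζ E_p(M₁)` (ECMP + PHI second part; `ζ ≠ 0` as `τ` is
 bijective).  `M₁/uM₁` is torsion: `u` is integral over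
 `A` modulo `q` (`M₁` is finitely generated over `A` and faithful over `Z/q`: Cayley-Hamilton); take
 a monic equation `u^k + b_1 u^(k-1) + ... + b_k ∈ q` of minimal degree; `b_k ≠ 0` as otherwise
 `u (u^(k-1) + ...) ∈ q` and (*) gives a smaller equation [`k = 1`: `u ∈ q`, impossible]; so
 `a b_k` kills `M₁ / u M₁`.  So `E_p(M₁) = ζ E_p(M₁) + 0`, `E_p(M₁) = 0`.
 Case c: `A ∩ q = 0` and every `u` with `τ u = ζ u`, `ζ ≠ 1` is in `q`.  As `τ^n = 1` every `z` is
 a sum of `τ`-eigenvectors (`z_ζ = (1/n) Σ_k ζ^(-k) τ^k z`, `ζ^n = 1`), so `τ z - z ∈ q` for all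
 `z` and each `z` is congruent mod `q`
 to a `τ`-eigenvector with eigenvalue `1`; so `q` is prime by (*) (`q ≠ Z` as `m ≠ 0`), so `q = Q`
 by hypothesis, and `ι z d ↦ ι z m` is an isomorphism `ψ : D ≃ M₁` with `t ψ = η ψ t`:
 `E_p(M₁) = η E_p(D)` (`η ≠ 0`).
Claim 2.  Call a submodule `N` of `M` good if there is `c` with `E_p(N) = c E_p(D)` for all
`τ`-stable `p`.  `0` is good; if `N ≠ M` is good then by claim 1 for `M/N` there is a larger good
submodule (additivity, third isomorphism theorem).  By noetherianity `M` is good.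
NOTE: the choice of `m`, `q` and the cases do not depend on `p`. -/
def S_DEV : Prop :=
  ∀ (Z : Type) [CommRing Z] [Algebra ℂ Z] [IsNoetherianRing Z] (τ : Z ≃ₐ[ℂ] Z) (Λ : Type) [Ring Λ]
    [Algebra ℂ Λ] (s : Skew Z τ Λ) (r : ℕ) (a : MvPolynomial (Fin r) ℂ →ₐ[ℂ] Z),
    (∀ b, τ (a b) = a b) → ∀ Q : Ideal Z,
    (∀ q : Ideal Z, q.IsPrime → (∀ z, τ z - z ∈ q) → (∀ b, a b ∈ q → b = 0) → q = Q) →
    ∀ (M : Type) [AddCommGroup M] [Module ℂ M] [Module Λ M] [IsScalarTower ℂ Λ M]
      (D : Type) [AddCommGroup D] [Module ℂ D] [Module Λ D] [IsScalarTower ℂ Λ D] (d : D),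
      FG (List.ofFn fun i => s.ι (a (X i))) M → (∀ v : D, ∃ z : Z, v = s.ι z • d) →
      (∀ z : Z, s.ι z • d = 0 ↔ z ∈ Q) → s.t • d = d →
      ∃ c : ℂ, ∀ p : Z →ₐ[ℂ] ℂ, (∀ z, p (τ z) = p z) →
        EE (phi s.ι p s.t) (List.ofFn fun i => s.ι (a (X i))) M =
          c * EE (phi s.ι p s.t) (List.ofFn fun i => s.ι (a (X i))) D

/-- **Job DIM** (80 lines): a dimension inequality for prime ideals of an algebra `Z` such that
`Z/Q` and `Z/q` are integral over the polynomial ring `A = ℂ[X_0..X_(r-1)]` and `A ∩ q = 0`.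

Proof. `dim Z/Q ≤ dim A` (integral extension of a quotient of `A`) and `dim A ≤ dim Z/q`
(integral extension, injective: lying over and going up; Mathlib has
`Algebra.IsIntegral` / `ringKrullDim` lemmas). -/
def S_DIM : Prop :=
  ∀ (Z : Type) [CommRing Z] [Algebra ℂ Z] (r : ℕ) (a : MvPolynomial (Fin r) ℂ →ₐ[ℂ] Z)
    (Q q : Ideal Z), Q.IsPrime → q.IsPrime →
    (∀ z : Z, ∃ f : Polynomial (MvPolynomial (Fin r) ℂ), f.Monic ∧
      Polynomial.eval₂ a.toRingHom z f ∈ Q ⊓ q) →
    (∀ b, a b ∈ q → b = 0) → ringKrullDim (Z ⧸ Q) ≤ ringKrullDim (Z ⧸ q)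

/-! ## C. Change of parameters -/

/-- The difference operator `(1 - S^d) h`. -/
def dif (d : ℤ) (h : ℤ → ℤ) : ℤ → ℤ := fun j => h j - h (j - d)

/-- Iterated difference operators `∏ (1 - S^(d_i)) h`. -/
def difs (ds : List ℤ) (h : ℤ → ℤ) : ℤ → ℤ := ds.foldr dif h

/-- **Job HILC** (120 lines): pure combinatorics.

Proof. Let `Q, Q'` be the Laurent polynomials with the coefficients `difs ds h` and `difs ds' h`.
The difference operators commute, so `∏_j (1 - T^(d'_j)) Q = ∏_i (1 - T^(d_i)) Q'` in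
`ℤ[T, T⁻¹]` (both are `difs ds' (difs ds h)`; multiplication of a finitely supported function by
`1 - T^d` is `dif d`).  Divide by `(1 - T)^b`, `b = ds'.length ≤ a = ds.length` (domain):
`∏ [d'_j] Q = (1 - T)^(a-b) ∏ [d_i] Q'`, `[d] = 1 + T + ... + T^(d-1)`.  At `T = 1`:
`(∏ d'_j) Q(1) = 0^(a-b) (∏ d_i) Q'(1)`. -/
def S_HILC : Prop :=
  ∀ (ds ds' : List ℤ) (h : ℤ → ℤ), (∀ d ∈ ds, 0 < d) → (∀ d ∈ ds', 0 < d) →
    ds'.length ≤ ds.length → (Function.support (difs ds h)).Finite →
    (Function.support (difs ds' h)).Finite →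
    ds'.prod * ∑ᶠ j, difs ds h j =
      (0 : ℤ) ^ (ds.length - ds'.length) * ds.prod * ∑ᶠ j, difs ds' h j

/-- The dimension of the generalised eigenspace of the degree `0` part `𝒟 0` of a graded algebra,
for the character `p`, in the subspace `U` of `M`. -/
noncomputable def hp {D : Type} [CommRing D] [Algebra ℂ D] (𝒟 : ℤ → Submodule ℂ D)
    (p : D →ₐ[ℂ] ℂ) {M : Type} [AddCommGroup M] [Module ℂ M] [Module D M] [IsScalarTower ℂ D M]
    (U : Submodule ℂ M) : ℤ :=
  Module.finrank ℂ (Submodule.span ℂ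
    {m : M | m ∈ U ∧ ∀ z ∈ 𝒟 0, ∃ N : ℕ, (z - algebraMap ℂ D (p z)) ^ N • m = 0})

/-- **Job HILB** (300 lines; may use FG, PHI [with `Λ = Z = D`, `τ = 1`, `t = 1`]): Hilbert
function and Euler characteristic of a graded module `M = ⊕ ℳ j` over a graded algebra `D`;
`fs` are homogeneous elements of positive degrees `ds`.

Proof. Induction on `fs`, for all graded modules.
(0) Every homogeneous part `ℳ j` has finite dimension, and `ℳ j = 0` for `j` very negative
(`M` is spanned by the monomials in the `f` times finitely many homogeneous elements).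
`fs = []`: `M` has finite dimension; homogeneous `z ∈ 𝒟 d`, `d ≠ 0`, are nilpotent on `M` and
`p z = 0`; so `gsp M = ⊕_j (gsp M ∩ ℳ j)` and `gsp M ∩ ℳ j` is the space in `hp`
(sum of commuting nilpotents), `Σ_j hp = dim gsp M = phi M` (trace of the identity).
`f :: fs`: `M / fM` and `M[f]` are graded (by the images of `ℳ j`, and by `ℳ j ∩ M[f]`), and
`h_M(j) - h_M(j-d) = h_{M/fM}(j) - h_{M[f]}(j-d)`, `h = hp`, because
`0 → M[f]_{j-d} → M_{j-d} → M_j → (M/fM)_j → 0` is an exact sequence of modules of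
finite dimension over `𝒟 0` and the generalised eigenspace is an exact functor on these
(direct sum decomposition as in job PHI).  So `difs (d::ds) h_M = difs ds h_{M/fM} - difs ds
(shift h_{M[f]})`; finite support and the sum over `j` by induction (a shift does not change the
sum): `E(fs; M/fM) - E(fs; M[f]) = E(f::fs; M)`. -/
def S_HILB : Prop :=
  ∀ (D : Type) [CommRing D] [Algebra ℂ D] (𝒟 : ℤ → Submodule ℂ D) [GradedAlgebra 𝒟]
    (p : D →ₐ[ℂ] ℂ), (∀ d, d ≠ 0 → ∀ x ∈ 𝒟 d, p x = 0) →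
    ∀ (M : Type) [AddCommGroup M] [Module ℂ M] [Module D M] [IsScalarTower ℂ D M]
      (ℳ : ℤ → Submodule ℂ M), DirectSum.IsInternal ℳ →
      (∀ i j, ∀ x ∈ 𝒟 i, ∀ m ∈ ℳ j, x • m ∈ ℳ (i + j)) →
      ∀ (fs : List D) (ds : List ℤ), List.Forall₂ (fun f d => 0 < d ∧ f ∈ 𝒟 d) fs ds →
        FG fs M →
        (Function.support (difs ds fun j => hp 𝒟 p (ℳ j))).Finite ∧
        ((∑ᶠ j, difs ds (fun j => hp 𝒟 p (ℳ j)) j : ℤ) : ℂ) =
          EE (phi (AlgHom.id ℂ D) p 1) fs M

/-- **Job CHG** (300 lines; may use FG, FDC, EISO, EADD, ESWAP, PHI, HILC, HILB): change of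
parameters.  `f, f'` are lists of homogeneous elements of positive degrees, `g, g'` of negative
degrees of the graded algebra `D`, which is finitely generated over `ℂ[f, g]` and over
`ℂ[f', g']`.

Proof. (a) One-sided: let `M` be a graded module with `FG f M` and `FG f' M`.  By HILB and HILC
(`h = hp (ℳ ·)` for both lists, same `h`!)
`(∏ d'_j) E_p(f; M) = 0^(a-b) (∏ d_i) E_p(f'; M)`, that is `E_p(f; M) = κ E_p(f'; M)` where `κ`
depends only on the degrees.  (`ds` is a list of degrees for `f`; fix one.)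
(b) Let `M` be a graded `D`-module, finitely generated over `D` [so `FG (f ++ g) M` and
`FG (f' ++ g') M`], on which all members of `g` act by zero.  Then `FG f M` (`cons`), so `M` is
bounded below: `ℳ j = 0` for `j < j₀`.  The members of `g'` have negative degrees, so they are
nilpotent on `M`: `M = Σ D m_i` with `m_i` homogeneous of degree `≤ j₁`, and
`g'_k^N D m_i = D g'_k^N m_i = 0` if `N > j₁ - j₀`.  So `FG (f' ++ g') M` implies `FG f' M`
(finitely many monomials in the `g'_k` times the generators).  By (a),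
`E_p(f; M) = κ E_p(f'; M)`.
(c) Claim: for every final part `ys` of `g` and every graded finitely generated `M` such that the
members of `g` before `ys` act by zero on `M`: `E_p(ys ++ f; M) = κ E_p(ys ++ f'; M)`.
Induction on `ys`; `ys = []` is (b); `y :: ys`: by definition of `EE`, as
`M/yM` and `M[y]` are graded, finitely generated over the noetherian ring `D`
(`D` is finitely generated over a polynomial ring), and `y` acts by zero on them.
(d) So `E_p(g ++ f; D) = κ E_p(g ++ f'; D)`.  By (b) for `M = D/(g)D` we have `FG f' (D/(g)D)`, so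
`D/(f', g)D` has finite dimension, that is `FDc (g ++ f') D`.  By ESWAP for the good condition
`FDc`, `E_p(g ++ f'; D) = E_p(f' ++ g; D)` and `E_p(f ++ g; D) = E_p(g ++ f; D)`, and the mirror
image of (c) (grading reversed: `𝒟' d = 𝒟 (-d)`) gives
`E_p(f' ++ g; D) = κ' E_p(f' ++ g'; D)`. -/
def S_CHG : Prop :=
  ∀ (D : Type) [CommRing D] [Algebra ℂ D] (𝒟 : ℤ → Submodule ℂ D) [GradedAlgebra 𝒟]
    (f f' g g' : List D), (∀ x ∈ f, ∃ d, 0 < d ∧ x ∈ 𝒟 d) → (∀ x ∈ f', ∃ d, 0 < d ∧ x ∈ 𝒟 d) →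
    (∀ x ∈ g, ∃ d, d < 0 ∧ x ∈ 𝒟 d) → (∀ x ∈ g', ∃ d, d < 0 ∧ x ∈ 𝒟 d) →
    f'.length ≤ f.length → g'.length ≤ g.length → FG (f ++ g) D → FG (f' ++ g') D →
    ∃ κ : ℂ, ∀ p : D →ₐ[ℂ] ℂ, (∀ d, d ≠ 0 → ∀ x ∈ 𝒟 d, p x = 0) →
      EE (phi (AlgHom.id ℂ D) p 1) (f ++ g) D =
        κ * EE (phi (AlgHom.id ℂ D) p 1) (f' ++ g') D

/-! ## D. Invariant theory of reflection groups -/

/-- The general linear group. -/
abbrev Gl (n : ℕ) := Matrix.GeneralLinearGroup (Fin n) ℂ

/-- The action of `g` on polynomial functions on `ℂ^n`: `(act g f)(v) = f (g⁻¹ v)`. -/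
noncomputable def act {n : ℕ} (g : Gl n) : MvPolynomial (Fin n) ℂ →ₐ[ℂ] MvPolynomial (Fin n) ℂ :=
  MvPolynomial.aeval fun i => ∑ j, C ((g⁻¹).val i j) * X j

/-- The contragredient: inverse transpose. -/
noncomputable def dualG {n : ℕ} : Gl n →* Gl n where
  toFun g := ⟨(g⁻¹).val.transpose, g.val.transpose, by
    rw [← Matrix.transpose_mul, ← Units.val_mul, mul_inv_cancel, Units.val_one,
      Matrix.transpose_one], by
    rw [← Matrix.transpose_mul, ← Units.val_mul, inv_mul_cancel, Units.val_one,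
      Matrix.transpose_one]⟩
  map_one' := by
    apply Units.ext
    simp
  map_mul' g h := by
    apply Units.ext
    simp [mul_inv_rev, Matrix.transpose_mul]

/-- A finite reflection group `W` on `ℂ^n` (`ρ`), an element `t` of finite order of `GL_n` which
normalises it (`θ` is conjugation by `t`), and a regular vector `v` fixed by `t`. -/
structure Rd (n : ℕ) (W : Type) [Group W] [Fintype W] where
  ρ : W →* Gl n
  θ : W ≃* W
  t : Gl n
  m : ℕ
  mpos : 0 < m
  tm : t ^ m = 1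
  tρ : ∀ w, ρ (θ w) = t * ρ w * t⁻¹
  refl : Subgroup.closure {s : W | ((ρ s).val - 1).rank = 1} = ⊤
  v : Fin n → ℂ
  tv : t.val.mulVec v = v
  vreg : ∀ w, (ρ w).val.mulVec v = v → w = 1

/-- **Job DUAL** (120 lines): the contragredient data.

Proof. `dualG g - 1 = -(dualG g) (gᵀ - 1)`..., so ranks agree.  Regular vector: let
`B = Σ_{k<m} Σ_w (ρ w t^k)ᴴ (ρ w t^k)`, positive definite and invariant under `ρ W` and `t`
(the elements `ρ w t^k` form a group as a multiset: `g B g`-invariance by reindexing; `θ` is an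
automorphism and `t^m = 1`): `gᴴ B g = B` for `g ∈ ρ W` and `g = t`.  Let `v* = conj (B v)`.
From `gᴴ B g = B`: `B g = (gᴴ)⁻¹ B`, conj: `conj (B g v) = (gᵀ)⁻¹ conj (B v) = dualG g v*`.  So
`dualG g v* = v*` iff `B g v = B v` iff `g v = v`. -/
def S_DUAL : Prop :=
  ∀ (n : ℕ) (W : Type) [Group W] [Fintype W] (D : Rd n W),
    ∃ D' : Rd n W, D'.ρ = dualG.comp D.ρ ∧ D'.θ = D.θ ∧ D'.t = dualG D.t

section

variable {n : ℕ} {W : Type} [Group W] [Fintype W]

/-- Invariant polynomials. -/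
def IsInv (D : Rd n W) (h : MvPolynomial (Fin n) ℂ) : Prop := ∀ w, act (D.ρ w) h = h

/-- The ideal generated by the homogeneous invariants of positive degree. -/
noncomputable def hilb (D : Rd n W) : Ideal (MvPolynomial (Fin n) ℂ) :=
  Ideal.span {h | IsInv D h ∧ ∃ e, 0 < e ∧ h.IsHomogeneous e}

/-- Basic invariants which are eigenvectors of `t`. -/
structure Bas (D : Rd n W) (k : ℕ) where
  f : Fin k → MvPolynomial (Fin n) ℂ
  d : Fin k → ℕ
  ζ : Fin k → ℂ
  hom : ∀ i, (f i).IsHomogeneous (d i)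
  dpos : ∀ i, 0 < d i
  inv : ∀ i, IsInv D (f i)
  eig : ∀ i, act D.t (f i) = ζ i • f i
  gen : ∀ h, IsInv D h → ∃ q : MvPolynomial (Fin k) ℂ, h = aeval f q
  ind : AlgebraicIndependent ℂ f
  hil : hilb D = Ideal.span (Set.range f)

/-- The result on invariants and coinvariants which is used in the sequel. -/
structure Cdat (D : Rd n W) where
  f : Fin n → MvPolynomial (Fin n) ℂ
  d : Fin n → ℕ
  ζ : Fin n → ℂ
  hom : ∀ i, (f i).IsHomogeneous (d i)
  dpos : ∀ i, 0 < d i
  inv : ∀ i, IsInv D (f i)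
  eig : ∀ i, act D.t (f i) = ζ i • f i
  N : ℕ
  c : Fin N → MvPolynomial (Fin n) ℂ
  chom : ∀ j, ∃ e, (c j).IsHomogeneous e
  free : ∀ h, ∃! q : Fin N → MvPolynomial (Fin n) ℂ, h = ∑ j, aeval f (q j) * c j
  Ψ : MvPolynomial (Fin n) ℂ →ₗ[ℂ] (W → ℂ)
  surj : Function.Surjective Ψ
  ker : ∀ h, Ψ h = 0 ↔ h ∈ Ideal.span (Set.range f)
  Ψw : ∀ w h u, Ψ (act (D.ρ w) h) u = Ψ h (w⁻¹ * u)
  Ψt : ∀ h u, Ψ (act D.t h) u = Ψ h (D.θ.symm u)
  dim : Module.finrank ℂ (LinearMap.ker (Matrix.toLin' (D.t.val - 1))) ≤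
    Nat.card {i // ζ i = 1}

end

/-- **Job CST1** (150 lines): Chevalley's lemma.  (`F = MvPolynomial (Fin n) ℂ`, `I = hilb D`.)

Proof. Induction on the degree `e` of `p 0`, for all `p`.  `act` is `act (g h) = act g ∘ act h`.
If `e = 0`, `p 0 = C c`: average the relation over `W` (`h ↦ h# = |W|⁻¹ Σ_w w h`, which fixes
invariants and is linear over invariants): `c r_0 + Σ r_i (p_i)# = 0`; if `c ≠ 0` this
contradicts `h0`.  So `p 0 = 0`.
If `e > 0`: let `s` be a reflection (`rank (ρ s - 1) = 1`), `α` a linear form with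
`ρ s⁻¹ v - v = α(v) b`, so `act s h - h` is divisible by `α` for every polynomial `h` (check on
`X_i`, then `s(hk) - hk = s h (s k - k) + (s h - h) k`), `α ≠ 0`.  So `s p_i - p_i = α h_i` and
`Σ r_i h_i = 0` (`F` is a domain), and `h_0` is homogeneous of degree `e - 1`
(`p_0`, `s p_0` homogeneous of degree `e`, `α` of degree `1`).  By induction `h_0 ∈ I`, so
`s p_0 - p_0 ∈ I`.  As `I` is `W`-stable and the reflections generate `W`, `w p_0 - p_0 ∈ I` for
all `w`, so `p_0 - (p_0)# ∈ I`, and `(p_0)#` is a homogeneous invariant of degree `e > 0`. -/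
def S_CST1 : Prop :=
  ∀ (n : ℕ) (W : Type) [Group W] [Fintype W] (D : Rd n W) (k : ℕ)
    (r p : Fin (k + 1) → MvPolynomial (Fin n) ℂ), (∀ i, IsInv D (r i)) →
    (¬ ∃ q : Fin k → MvPolynomial (Fin n) ℂ, (∀ i, IsInv D (q i)) ∧
      r 0 = ∑ i, q i * r i.succ) →
    (∃ e, (p 0).IsHomogeneous e) → ∑ i, r i * p i = 0 → p 0 ∈ hilb D

/-- **Job CST2** (300 lines; may use CST1): basic invariants.

Proof. The set of homogeneous invariants `h` of positive degree with `act t h = ζ h` for some `ζ`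
spans the homogeneous invariants of positive degree (`t` acts on the invariants of degree `e`,
because it normalises `W`, and `t^m = 1`: `h = Σ_ζ h_ζ`), so it generates `I`; `F` is
noetherian: choose a finite subset `f_1, ..., f_k` generating `I`, with `k` minimal.
Generation of invariants: let `h` be a homogeneous invariant of degree `e`; induction on `e`;
`e > 0`: `h = Σ q_i f_i` with `q_i` homogeneous of degree `e - d_i`, average: `q_i` may be replaced
by `(q_i)#`, which are polynomials in the `f_j` by induction.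
Independence: suppose `P(f) = 0`, `P ≠ 0`; we may take `P` weighted homogeneous (weights `d_i`) of
minimal weighted degree (take a weighted homogeneous component).
Let `P_i = ∂P/∂y_i (f)`, invariants, homogeneous (of degree `deg P - d_i`); not all zero, since
some `∂P/∂y_i ≠ 0` (char 0, `P` is not constant) has smaller weighted degree.  Let `J` be the ideal
of the ring of invariants generated by the `P_i`; choose a minimal subset `P_i`, `i ∈ A`,
generating `J` (`A ≠ ∅`), `P_j = Σ_{i ∈ A} g_{ji} P_i` for `j ∉ A`, `g_{ji}` homogeneous invariants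
of degree `deg P_j - deg P_i`.  Chain rule: `0 = ∂/∂x_l P(f) = Σ_i P_i ∂f_i/∂x_l =
Σ_{i ∈ A} P_i (∂f_i/∂x_l + Σ_{j ∉ A} g_{ji} ∂f_j/∂x_l)`.  The bracket `p_{il}` is homogeneous of
degree `d_i - 1` and `P_i` is not in the ideal generated by the other `P_{i'}`, `i' ∈ A` (in the
ring of invariants), so `p_{il} ∈ I` by CST1.  Fix `i ∈ A`.  Euler: `Σ_l x_l p_{il} = d_i f_i +
Σ_{j ∉ A} d_j g_{ji} f_j`, and `p_{il} = Σ_m c_{ilm} f_m` with `c_{ilm}` homogeneous of degree
`d_i - 1 - d_m`, so `Σ_l x_l p_{il} = Σ_m b_m f_m` where `b_m = Σ_l x_l c_{ilm}` is homogeneous of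
degree `d_i - d_m` and has no constant term, so `b_i = 0`.  Hence `d_i f_i` is in the ideal
generated by the other `f_m`, contradicting minimality. -/
def S_CST2 : Prop :=
  ∀ (n : ℕ) (W : Type) [Group W] [Fintype W] (D : Rd n W), ∃ k, Nonempty (Bas D k)

/-- **Job CST3** (250 lines; may use CST1): `F` is free over `ℂ[f]`.

Proof. `F / I` has finite dimension: each `X_i` is integral over the invariants (root of
`∏_w (T - w X_i)`), so a power of `X_i` is in `I` (take the equation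
`X_i^N + a_1 X_i^(N-1) + ... + a_N = 0`, `a_j` homogeneous invariants of degree `j > 0`).
Let `c_1, ..., c_N` be homogeneous elements whose classes are a basis of `F/I`.
Spanning: graded Nakayama (`F = span(c) + Σ f_i F`, induction on the degree).
Independence over the ring `R` of invariants: claim: if `c_1, ..., c_N` are homogeneous and
linearly independent modulo `I`, and `Σ r_j c_j = 0`, `r_j ∈ R`, then all `r_j = 0`.  We may
assume that `r_j` is homogeneous of degree `e - deg c_j` (components).  Induction on `N`.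
`c_1 ∉ I`, so CST1 gives `r_1 = Σ_{j ≥ 2} q_j r_j` with `q_j ∈ R`, and we may take `q_j`
homogeneous of degree `deg r_1 - deg r_j = deg c_j - deg c_1`.  Then
`Σ_{j ≥ 2} r_j (c_j + q_j c_1) = 0`, the elements `c_j + q_j c_1` are homogeneous and linearly
independent mod `I` (`q_j c_1 ∈ I` if `q_j` has positive degree, otherwise `q_j` is a constant), so
`r_j = 0` for `j ≥ 2` by induction and then `r_1 = 0`.
(`N = 1`: `r_1 = 0` as it is in the ideal generated by nothing.)
Finally `R = ℂ[f] ≅ MvPolynomial (Fin k) ℂ` by `gen` and `ind`. -/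
def S_CST3 : Prop :=
  ∀ (n : ℕ) (W : Type) [Group W] [Fintype W] (D : Rd n W) (k : ℕ) (B : Bas D k),
    ∃ (N : ℕ) (c : Fin N → MvPolynomial (Fin n) ℂ), (∀ j, ∃ e, (c j).IsHomogeneous e) ∧
      ∀ h, ∃! q : Fin N → MvPolynomial (Fin k) ℂ, h = ∑ j, aeval B.f (q j) * c j

/-- **Job CST4** (250 lines): numbers.

Proof. `F` is integral over `ℂ[f]` (a finitely generated module), so the algebraically independent
family `f` is a transcendence basis of `F` over `ℂ` and so is `X`; `k = n`.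
`N = |W|`: let `K = Frac F`, `W` acts on `K` (faithfully, by `vreg`), `K^W = Frac R` (`R` the
invariants: `a/b = (a ∏_{w ≠ 1} w b)/∏_w w b`), `[K : K^W] = |W|` (Artin,
`FixedPoints.finrank_eq_card`), and `c_1, ..., c_N` is a basis of `K` over `Frac R`.
Fixed space: let `U = ker (t - 1) ⊆ ℂ^n` of dimension `u`, choose a basis to get an injective linear
map `ℂ^u → ℂ^n` with image `U` and the restriction `res : F → MvPolynomial (Fin u) ℂ`, which is
surjective.  If `ζ_i ≠ 1` then `res f_i = 0` (`(act t f_i)(x) = f_i(t⁻¹ x) = f_i(x)` for `x ∈ U`;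
polynomials over `ℂ` are functions).  So `MvPolynomial (Fin u) ℂ` is integral over the algebra
generated by the `res f_i` with `ζ_i = 1`, so `u ≤ #{i | ζ_i = 1}` (transcendence degree). -/
def S_CST4 : Prop :=
  ∀ (n : ℕ) (W : Type) [Group W] [Fintype W] (D : Rd n W) (k : ℕ) (B : Bas D k) (N : ℕ)
    (c : Fin N → MvPolynomial (Fin n) ℂ),
    (∀ h, ∃! q : Fin N → MvPolynomial (Fin k) ℂ, h = ∑ j, aeval B.f (q j) * c j) →
    k = n ∧ N = Fintype.card W ∧
      Module.finrank ℂ (LinearMap.ker (Matrix.toLin' (D.t.val - 1))) ≤ Nat.card {i // B.ζ i = 1}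

/-- **Job CST5** (250 lines; may use CST2, CST3, CST4): the coinvariants are the regular
representation, also for `t`.

Proof. `I = (f)` is stable under `W` and `t` and homogeneous.  The finite group generated by the
operators of `W` and `t` (products `w t^k`, `k < m`) acts on the space `F_e` of homogeneous
polynomials of degree `e`; by averaging a projection over the products `w t^k` there is a
complement `C_e` of `I ∩ F_e` in `F_e` stable under `W` and `t`.  Let `C = ⊕ C_e`; so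
`F = C ⊕ I`, `dim C = dim F/I = N = |W|` (the `c_j` of CST3 are a basis of `F/I`: from `∃!`, or
because `F/(f) = ⊕ ℂ c_j`).  Let
`π : F → C` be the projection along `I` (it commutes with `W` and `t`), and
`Ψ h u = (π h)(ρ(u) v)` (evaluation).  Then `Ψ (w h) u = (w π h)(u v) = (π h)(w⁻¹ u v)` and
`Ψ (t h) u = (π h)(t⁻¹ u v) = (π h)(t⁻¹ u t v) = (π h)(θ⁻¹(u) v)`.
`Ψ` is surjective: the points `u v`, `u ∈ W`, are distinct, so every function on `W` is
`u ↦ h(u v)` for a polynomial `h`; graded Nakayama: `h = Σ q_j(f) c'_j` with `c'_j ∈ C`; so the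
function is `Σ q_j(f(v)) Ψ(c'_j)`.  As `dim C = |W|`, `Ψ` is bijective on `C`, so its kernel is
`I = (f)`.  (`N = 0` cannot occur.)  Use `k = n` from CST4 (`subst`). -/
def S_CST5 : Prop :=
  ∀ (n : ℕ) (W : Type) [Group W] [Fintype W] (D : Rd n W), Nonempty (Cdat D)

/-! ## E. Characters -/

/-- `E_j` is isomorphic to `E_i` twisted by `θ`. -/
def Tw {W : Type} [Group W] (S : IrrSys W) (θ : W ≃* W) (i j : S.I) : Prop :=
  ∃ e : S.E j ≃ₗ[ℂ] S.E i, ∀ w x, e (S.ρ j w x) = S.ρ i (θ w) (e x)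

open Classical in
/-- **Job REP** (250 lines): trace of `θ` on a sum of blocks of the group algebra.

Proof. Let `ε_i = (dim E_i / |W|) Σ_w χ_i(w⁻¹) w`, `ε = Σ_{P i} ε_i`; orthogonality: `ρ_j(ε_i) =
δ_ij`, `Σ_i ε_i = 1` and an element killed by all `ρ_i` is zero (semisimplicity), so `U = ε ℂW` and
`tr T = tr (a ↦ θ(ε a)) = Σ_u ε(θ⁻¹(u) u⁻¹)` (`ε(g)` the coefficient)
`= Σ_{P i} (dim E_i/|W|) Σ_u χ_i(u θ⁻¹(u)⁻¹)`.  If `Tw i i`, with `R = R_i`:
`ρ_i(θ⁻¹ u) = R⁻¹ ρ_i(u) R`, so `Σ_u χ_i(u θ⁻¹(u)⁻¹) = Σ_u tr(ρ(u) R⁻¹ ρ(u)⁻¹ R) =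
(|W|/dim) tr(R⁻¹) tr(R)` (Schur: `Σ_u ρ(u) B ρ(u)⁻¹ = (|W|/dim) tr B`), and
`tr (R⁻¹) = conj (tr R)` because `R` has finite order.  If not `Tw i i`: the representations
`ρ_i` and `ρ_i ∘ θ⁻¹` are irreducible and not isomorphic, and `Σ_u ρ_i(u) B ρ_i(θ⁻¹ u)⁻¹ = 0` for
all `B` by Schur, so `Σ_u tr(ρ_i(u) ρ_i(θ⁻¹(u))⁻¹) = 0`.
Second part: `P = True`: `U = ⊤` and the trace of a permutation matrix. -/
def S_REP : Prop :=
  ∀ (W : Type) [Group W] [Fintype W] (θ : W ≃* W) (S : IrrSys W)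
    (R : ∀ i, S.E i →ₗ[ℂ] S.E i) (P : S.I → Prop),
    (∀ i, P i → Tw S θ i i → (∃ m, 0 < m ∧ R i ^ m = 1) ∧
      ∀ w x, R i (S.ρ i w x) = S.ρ i (θ w) (R i x)) →
    (∀ i j, Tw S θ i j → (P i ↔ P j)) →
    (∀ (U : Submodule ℂ (MonoidAlgebra ℂ W)),
      (∀ a, a ∈ U ↔ ∀ i, ¬ P i → (S.ρ i).asAlgebraHom a = 0) →
      ∀ T : U →ₗ[ℂ] U,
        (∀ u : U, (T u : MonoidAlgebra ℂ W) = MonoidAlgebra.mapDomain θ (u : MonoidAlgebra ℂ W)) →
        LinearMap.trace ℂ U T =
          ∑ i, if P i ∧ Tw S θ i i then ((‖LinearMap.trace ℂ _ (R i)‖ ^ 2 : ℝ) : ℂ) else 0) ∧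
    ((∀ i, P i) → (∑ i, if P i ∧ Tw S θ i i then ‖LinearMap.trace ℂ _ (R i)‖ ^ 2 else 0) =
      (Nat.card {w : W // θ w = w} : ℝ))

end Pool.Agent.V5helper32.CM
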