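import Pool.Agent.V5helper32.CM.FINAL
import Pool.Agent.V5helper1.CM.INJ
import Pool.Agent.V5helper13.CM.DIM
import Pool.Agent.V5helper17.CM.EADD
import Pool.Agent.V5helper17.CM.ESWAP
import Pool.Agent.V5helper17.CM.HILB
import Pool.Agent.V5helper18.CM.INV
import Pool.Agent.V5helper18.CM.KAP
import Pool.Agent.V5helper19.CM.FDC
import Pool.Agent.V5helper19.CM.FG
import Pool.Agent.V5helper19.CM.FULLX
import Pool.Agent.V5helper19.CM.LAM
import Pool.Agent.V5helper19.CM.OM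
import Pool.Agent.V5helper19.CM.RUN
import Pool.Agent.V5helper19.CM.ZFIN
import Pool.Agent.V5helper33.CM.EISO
import Pool.Agent.V5helper33.CM.ETOR
import Pool.Agent.V5helper4.CM.CST4
import Pool.Agent.V5helper4.CM.CST5
import Pool.Agent.V5helper45.CM.CI
import Pool.Agent.V5helper45.CM.POLY
import Pool.Agent.V5helper45.CM.TRI
import Pool.Agent.V5helper46.CM.DUAL
import Pool.Agent.V5helper46.CM.HILC
import Pool.Agent.V5helper46.CM.TRACE
import Pool.Agent.V5helper50.CM.DK2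
import Pool.Agent.V5helper50.CM.EREG
import Pool.Agent.V5helper50.CM.PHI
import Pool.Agent.V5helper50.CM.SPAN
import Pool.Agent.V5helper61.CM.RD
import Pool.Agent.V5helper61.CM.THMA
import Pool.Agent.V5helper68.CM.REP
import Pool.Agent.V5helper69.CM.DK1
import Pool.Agent.V5helper7.CM.CST2
import Pool.Agent.V5helper7.CM.CST3
import Pool.Agent.V5helper7.CM.LEFT
import Pool.Agent.V5helper74.CM.CHAR
import Pool.Agent.V5helper74.CM.SU
import Pool.Agent.V5helper85.CM.CHG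
import Pool.Agent.V5helper85.CM.REGN
import Pool.Agent.V5helper98.CM.BV
import Pool.Agent.V5helper98.CM.DEV

/-!
# Project CM: all jobs together
-/

namespace Pool.Agent.V5helper32.CM

theorem a_EADD : S_EADD := V5helper17.CM.t_EADD V5helper33.CM.t_EISO

theorem a_ESWAP : S_ESWAP := V5helper17.CM.t_ESWAP V5helper33.CM.t_EISO a_EADD

theorem a_ETOR : S_ETOR :=
  V5helper33.CM.t_ETOR V5helper19.CM.t_FG V5helper33.CM.t_EISO a_EADD

theorem a_DEV : S_DEV :=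
  V5helper98.CM.t_DEV V5helper19.CM.t_FG V5helper33.CM.t_ECMP V5helper33.CM.t_EISO a_EADD a_ETOR
    V5helper50.CM.t_PHI

theorem a_HILB : S_HILB := V5helper17.CM.t_HILB V5helper19.CM.t_FG V5helper50.CM.t_PHI

theorem a_CHG : S_CHG :=
  V5helper85.CM.t_CHG V5helper19.CM.t_FG V5helper19.CM.t_FDC a_ESWAP V5helper50.CM.t_PHI
    V5helper46.CM.t_HILC a_HILB

theorem a_CST5 : S_CST5 :=
  V5helper4.CM.t_CST5 V5helper7.CM.t_CST2' V5helper7.CM.t_CST3' V5helper4.CM.t_CST4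

theorem a_DK2 : S_DK2 := V5helper50.CM.DK.t_DK2 V5helper69.CM.t_DK1

theorem a_CI : S_CI :=
  V5helper45.CM.t_CI a_DK2 V5helper45.CM.t_POLY V5helper50.CM.t_SPAN V5helper1.CM.t_INJ

theorem a_TRI : S_TRI :=
  V5helper45.CM.t_TRI a_DK2 V5helper45.CM.t_POLY V5helper50.CM.t_SPAN V5helper1.CM.t_INJ a_CI

theorem a_BV : S_BV := V5helper98.CM.BV.t_BV V5helper19.CM.t_OM

theorem a_SU : S_SU := V5helper74.CM.t_SU V5helper46.CM.t_DUAL a_CST5 V5helper19.CM.t_LAM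

theorem a_ZFIN : S_ZFIN := V5helper19.CM.t_ZFIN V5helper19.CM.t_FG

theorem a_REGN : S_REGN :=
  V5helper85.CM.REGN.t_REGN (V5helper50.CM.t_EREG V5helper33.CM.t_EISO)

theorem a_TRACE : S_TRACE := V5helper46.CM.t_TRACE V5helper19.CM.t_OM

theorem a_THMA : S_THMA :=
  V5helper61.CM.t_THMA a_REGN a_TRACE V5helper68.CM.REP.t_REP V5helper74.CM.t_CHAR
    V5helper50.CM.t_PHI

theorem a_LEFT : S_LEFT :=
  V5helper7.CM.t_LEFT V5helper19.CM.t_FG V5helper33.CM.t_ECMP V5helper50.CM.t_PHI a_DEV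
    V5helper13.CMDIM.t_DIM a_SU a_ZFIN a_THMA V5helper74.CM.t_CHAR

theorem a_MAIN : S_MAIN :=
  t_MAIN a_LEFT a_CHG V5helper74.CM.t_CHAR V5helper68.CM.REP.t_REP V5helper19.CM.t_GRD
    V5helper19.CM.t_OM

theorem a_FULLX : S_FULLX := V5helper19.CM.t_FULLX V5helper19.CM.t_RUN a_TRI

theorem a_geom : S_KAP ∧ S_RD ∧ S_FULLX ∧ S_INV ∧ S_BV ∧ S_OM ∧ S_MAIN :=
  ⟨V5helper18.CM.t_KAP, V5helper61.CM.t_RD, a_FULLX, V5helper18.CM.t_INV, a_BV,
    V5helper19.CM.t_OM, a_MAIN⟩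

end Pool.Agent.V5helper32.CM
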