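import Pool.Agent.V5helper32.CM.ALL
import Pool.Agent.V5helper68.CM.SIG
import Pool.Agent.V5helper8.CM.SPR
import Pool.Agent.V5helper61.CM.GRTR
import Pool.Agent.V5helper61.CM.JACD
import Pool.Agent.V5helper11.CM.DEG
import Pool.Agent.V5helper3.CM.GEN
import Pool.Agent.V5helper87.CM.MOL

/-!
# Project CM: Springer's theorem and the induced automorphism
-/

namespace Pool.Agent.V5helper32.CM

theorem a_GRTR : S_GRTR := V5helper61.CM.GRTR.t_GRTR V5helper3.CM.t_DIFF

theorem a_JACD : S_JACD := V5helper61.CM.JACD.t_JACD V5helper8.CM.t_JACI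

theorem a_DEG : S_DEG := V5helper11.CM.t_DEG V5helper8.CM.t_JACI

theorem a_SPR : S_SPR :=
  V5helper8.CM.t_SPR V5helper61.CM.t_RD a_CST5 V5helper3.CM.t_GEN V5helper3.CM.t_DIFF a_GRTR
    V5helper8.CM.t_JACI V5helper87.CM.t_MOL a_JACD a_DEG

end Pool.Agent.V5helper32.CM
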