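import Mathlib

/-!
# Rational Cherednik algebras at `t = 0` and Calogero-Moser families: definitions (helper32)
-/

namespace Pool.Agent.V5helper32.CM

open scoped TensorProduct

/-- The centre. -/
abbrev Zc (H : Type) [Ring H] [Algebra ℂ H] := Subalgebra.center ℂ H

/-- The submodule of `H ⊗ E` whose quotient is the baby Verma module: generated by `y ⊗ e`
(`y ∈ ys`), `w ⊗ e - 1 ⊗ w e`, `f ⊗ e` (`f ∈ fs`). -/
noncomputable def BVrel {W : Type} [Group W] (H : Type) [Ring H] [Algebra ℂ H] (u : W →* H)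
    (ys fs : Set H) {E : Type} [AddCommGroup E] [Module ℂ E] (ρE : Representation ℂ W E) :
    Submodule H (H ⊗[ℂ] E) :=
  Submodule.span H ({m | ∃ y ∈ ys, ∃ e : E, m = y ⊗ₜ[ℂ] e} ∪
    {m | ∃ (w : W) (e : E), m = u w ⊗ₜ[ℂ] e - (1 : H) ⊗ₜ[ℂ] ρE w e} ∪
    {m | ∃ f ∈ fs, ∃ e : E, m = f ⊗ₜ[ℂ] e})

/-- The centre acts on the baby Verma module of `E` through `p`: `z - p(z)` is nilpotent. -/
def BVfam {W : Type} [Group W] (H : Type) [Ring H] [Algebra ℂ H] (u : W →* H)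
    (ys fs : Set H) (p : Zc H →ₐ[ℂ] ℂ) {E : Type} [AddCommGroup E] [Module ℂ E]
    (ρE : Representation ℂ W E) : Prop :=
  ∀ z : Zc H, ∃ N : ℕ, ∀ m : (H ⊗[ℂ] E) ⧸ BVrel H u ys fs ρE,
    ((z : H) - algebraMap ℂ H (p z)) ^ N • m = 0

/-- `Q` is the ideal of the unique irreducible closed subset of maximal dimension of the fixed
points of `σ` in the spectrum of the centre. -/
def IsMaxQ {H : Type} [Ring H] [Algebra ℂ H] (σ : H ≃ₐ[ℂ] H) (Q : Ideal (Zc H)) : Prop :=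
  Q.IsPrime ∧ (∀ a b : Zc H, (b : H) = σ a → b - a ∈ Q) ∧
    ∀ Q' : Ideal (Zc H), Q'.IsPrime → (∀ a b : Zc H, (b : H) = σ a → b - a ∈ Q') → Q' ≠ Q →
      ringKrullDim (Zc H ⧸ Q') < ringKrullDim (Zc H ⧸ Q)

/-- A complete irredundant system of irreducible representations of `W`. -/
structure IrrSys (W : Type) [Group W] where
  I : Type
  fin : Fintype I
  E : I → Type
  acg : ∀ i, AddCommGroup (E i)
  mod : ∀ i, Module ℂ (E i)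
  fd : ∀ i, FiniteDimensional ℂ (E i)
  ρ : ∀ i, Representation ℂ W (E i)
  nt : ∀ i, Nontrivial (E i)
  irr : ∀ i, ∀ U : Submodule ℂ (E i), (∀ w, ∀ x ∈ U, ρ i w x ∈ U) → U = ⊥ ∨ U = ⊤
  inj : ∀ i j (e : E i ≃ₗ[ℂ] E j), (∀ w x, e (ρ i w x) = ρ j w (e x)) → i = j
  surj : ∀ (E' : Type) [AddCommGroup E'] [Module ℂ E'] [FiniteDimensional ℂ E']
    (ρ' : Representation ℂ W E'), Nontrivial E' →
    (∀ U : Submodule ℂ E', (∀ w, ∀ x ∈ U, ρ' w x ∈ U) → U = ⊥ ∨ U = ⊤) →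
    ∃ i, ∃ e : E i ≃ₗ[ℂ] E', ∀ w x, e (ρ i w x) = ρ' w (e x)

attribute [instance] IrrSys.fin IrrSys.acg IrrSys.mod IrrSys.fd

section

variable {V : Type} [AddCommGroup V] [Module ℂ V]

/-- `s - 1` has rank one. -/
def IsRefl (s : V ≃ₗ[ℂ] V) : Prop :=
  Module.finrank ℂ (LinearMap.range ((s : V →ₗ[ℂ] V) - LinearMap.id)) = 1

/-- A finite group generated by reflections. -/
def IsReflGrp (W : Subgroup (V ≃ₗ[ℂ] V)) : Prop :=
  Finite W ∧ Subgroup.closure {s | s ∈ W ∧ IsRefl s} = W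

/-- The set of reflecting hyperplanes of `W`. -/
def hyps (W : Subgroup (V ≃ₗ[ℂ] V)) : Set (Submodule ℂ V) :=
  {H | ∃ s ∈ W, IsRefl s ∧ H = LinearMap.ker ((s : V →ₗ[ℂ] V) - LinearMap.id)}

/-- `e_H`: the order of the pointwise stabiliser of `H` in `W`. -/
noncomputable def eH (W : Subgroup (V ≃ₗ[ℂ] V)) (H : Submodule ℂ V) : ℕ :=
  Nat.card {w : W // ∀ v ∈ H, (w : V ≃ₗ[ℂ] V) v = v}

open Classical in
/-- `ε_{H,j} = e_H⁻¹ Σ_{w ∈ W_H} det(w)^j w`, an element of the group algebra given by its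
coefficients. -/
noncomputable def epsH (W : Subgroup (V ≃ₗ[ℂ] V)) (H : Submodule ℂ V) (j : ℕ) (w : W) : ℂ :=
  if ∀ v ∈ H, (w : V ≃ₗ[ℂ] V) v = v then
    (eH W H : ℂ)⁻¹ * LinearMap.det ((w : V ≃ₗ[ℂ] V) : V →ₗ[ℂ] V) ^ j else 0

/-- A parameter: a complex number `k H j` for every reflecting hyperplane `H` and every `j`,
invariant under `W` and periodic in `j` with period `e_H`. -/
def IsPar (W : Subgroup (V ≃ₗ[ℂ] V)) (k : Submodule ℂ V → ℕ → ℂ) : Prop :=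
  (∀ w ∈ W, ∀ H ∈ hyps W, ∀ j, k (H.map (w : V →ₗ[ℂ] V)) j = k H j) ∧
    ∀ H ∈ hyps W, ∀ j, k H (j + eH W H) = k H j

/-- `α H` is a linear form with kernel `H` and `β H` spans a complement of `H` stable under the
pointwise stabiliser of `H` (for all reflecting hyperplanes `H`). -/
def IsRoots (W : Subgroup (V ≃ₗ[ℂ] V)) (α : Submodule ℂ V → Module.Dual ℂ V)
    (β : Submodule ℂ V → V) : Prop :=
  ∀ H ∈ hyps W, LinearMap.ker (α H) = H ∧ β H ∉ H ∧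
    ∀ w ∈ W, (∀ v ∈ H, w v = v) → ∃ c : ℂ, w (β H) = c • β H

/-- The coefficient of `w` in
`Σ_H Σ_{j < e_H} e_H (k_{H,j} - k_{H,j+1}) (⟨y, α_H⟩⟨β_H, x⟩/⟨β_H, α_H⟩) ε_{H,j}`. -/
noncomputable def kap (W : Subgroup (V ≃ₗ[ℂ] V)) (k : Submodule ℂ V → ℕ → ℂ)
    (α : Submodule ℂ V → Module.Dual ℂ V) (β : Submodule ℂ V → V) (y : V)
    (x : Module.Dual ℂ V) (w : W) : ℂ :=
  ∑ᶠ H ∈ hyps W, ∑ j ∈ Finset.range (eH W H),
    (eH W H : ℂ) * (k H j - k H (j + 1)) * (α H y * x (β H) / α H (β H)) * epsH W H j w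

/-- Generators of the algebra: `V^*`, `V` and `W`. -/
inductive Gen (V : Type) [AddCommGroup V] [Module ℂ V] (W : Subgroup (V ≃ₗ[ℂ] V)) : Type
  | x (ξ : Module.Dual ℂ V) : Gen V W
  | y (v : V) : Gen V W
  | g (w : W) : Gen V W

/-- The relations of `T(V ⊕ V^*) ⋊ W` and `[x,x'] = [y,y'] = 0`, `[y,x] = Σ_w κ(y,x,w) w`. -/
inductive Rel (W : Subgroup (V ≃ₗ[ℂ] V)) (κ : V → Module.Dual ℂ V → W → ℂ) :
    FreeAlgebra ℂ (Gen V W) → FreeAlgebra ℂ (Gen V W) → Prop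
  | x_add (ξ η : Module.Dual ℂ V) : Rel W κ (FreeAlgebra.ι ℂ (Gen.x (ξ + η)))
      (FreeAlgebra.ι ℂ (Gen.x ξ) + FreeAlgebra.ι ℂ (Gen.x η))
  | x_smul (c : ℂ) (ξ : Module.Dual ℂ V) : Rel W κ (FreeAlgebra.ι ℂ (Gen.x (c • ξ)))
      (c • FreeAlgebra.ι ℂ (Gen.x ξ))
  | y_add (v v' : V) : Rel W κ (FreeAlgebra.ι ℂ (Gen.y (v + v')))
      (FreeAlgebra.ι ℂ (Gen.y v) + FreeAlgebra.ι ℂ (Gen.y v'))
  | y_smul (c : ℂ) (v : V) : Rel W κ (FreeAlgebra.ι ℂ (Gen.y (c • v)))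
      (c • FreeAlgebra.ι ℂ (Gen.y v))
  | g_one : Rel W κ (FreeAlgebra.ι ℂ (Gen.g 1)) 1
  | g_mul (w w' : W) : Rel W κ (FreeAlgebra.ι ℂ (Gen.g (w * w')))
      (FreeAlgebra.ι ℂ (Gen.g w) * FreeAlgebra.ι ℂ (Gen.g w'))
  | g_x (w : W) (ξ : Module.Dual ℂ V) :
      Rel W κ (FreeAlgebra.ι ℂ (Gen.g w) * FreeAlgebra.ι ℂ (Gen.x ξ))
      (FreeAlgebra.ι ℂ (Gen.x (ξ ∘ₗ ((w : V ≃ₗ[ℂ] V)⁻¹ : V ≃ₗ[ℂ] V).toLinearMap)) *
        FreeAlgebra.ι ℂ (Gen.g w))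
  | g_y (w : W) (v : V) : Rel W κ (FreeAlgebra.ι ℂ (Gen.g w) * FreeAlgebra.ι ℂ (Gen.y v))
      (FreeAlgebra.ι ℂ (Gen.y ((w : V ≃ₗ[ℂ] V) v)) * FreeAlgebra.ι ℂ (Gen.g w))
  | x_x (ξ η : Module.Dual ℂ V) :
      Rel W κ (FreeAlgebra.ι ℂ (Gen.x ξ) * FreeAlgebra.ι ℂ (Gen.x η))
      (FreeAlgebra.ι ℂ (Gen.x η) * FreeAlgebra.ι ℂ (Gen.x ξ))
  | y_y (v v' : V) : Rel W κ (FreeAlgebra.ι ℂ (Gen.y v) * FreeAlgebra.ι ℂ (Gen.y v'))
      (FreeAlgebra.ι ℂ (Gen.y v') * FreeAlgebra.ι ℂ (Gen.y v))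
  | y_x (v : V) (ξ : Module.Dual ℂ V) :
      Rel W κ (FreeAlgebra.ι ℂ (Gen.y v) * FreeAlgebra.ι ℂ (Gen.x ξ) -
        FreeAlgebra.ι ℂ (Gen.x ξ) * FreeAlgebra.ι ℂ (Gen.y v))
      (∑ᶠ w : W, κ v ξ w • FreeAlgebra.ι ℂ (Gen.g w))

/-- The algebra with these generators and relations. -/
abbrev Rca (W : Subgroup (V ≃ₗ[ℂ] V)) (κ : V → Module.Dual ℂ V → W → ℂ) : Type :=
  RingQuot (Rel W κ)

/-- The element `x ∈ V^*` of the algebra. -/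
noncomputable def Rca.X {W : Subgroup (V ≃ₗ[ℂ] V)} (κ : V → Module.Dual ℂ V → W → ℂ)
    (ξ : Module.Dual ℂ V) : Rca W κ :=
  RingQuot.mkAlgHom ℂ (Rel W κ) (FreeAlgebra.ι ℂ (Gen.x ξ))

/-- The element `y ∈ V` of the algebra. -/
noncomputable def Rca.Y {W : Subgroup (V ≃ₗ[ℂ] V)} (κ : V → Module.Dual ℂ V → W → ℂ)
    (v : V) : Rca W κ :=
  RingQuot.mkAlgHom ℂ (Rel W κ) (FreeAlgebra.ι ℂ (Gen.y v))

/-- The homomorphism from `W` to the algebra. -/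
noncomputable def Rca.G {W : Subgroup (V ≃ₗ[ℂ] V)} (κ : V → Module.Dual ℂ V → W → ℂ) :
    W →* Rca W κ where
  toFun w := RingQuot.mkAlgHom ℂ (Rel W κ) (FreeAlgebra.ι ℂ (Gen.g w))
  map_one' := by
    rw [RingQuot.mkAlgHom_rel ℂ (Rel.g_one (W := W) (κ := κ)), map_one]
  map_mul' w w' := by
    rw [RingQuot.mkAlgHom_rel ℂ (Rel.g_mul (κ := κ) w w'), map_mul]

/-- The invariants of positive degree in the algebra generated by `V^*`: elements of the ideal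
generated by `V^*` in this algebra which commute with `W`. -/
def Rca.invs {W : Subgroup (V ≃ₗ[ℂ] V)} (κ : V → Module.Dual ℂ V → W → ℂ) : Set (Rca W κ) :=
  {h | h ∈ Submodule.span ℂ {a : Rca W κ | ∃ ξ, ∃ b ∈ Algebra.adjoin ℂ (Set.range (Rca.X κ)),
    a = Rca.X κ ξ * b} ∧ ∀ w, Rca.G κ w * h = h * Rca.G κ w}

/-- The irreducible representation `E` of `W` belongs to the Calogero-Moser family of the point `p`
of the spectrum of the centre: the centre acts on the baby Verma module of `E` through `p`. -/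
def Rca.InFam {W : Subgroup (V ≃ₗ[ℂ] V)} (κ : V → Module.Dual ℂ V → W → ℂ)
    (p : Zc (Rca W κ) →ₐ[ℂ] ℂ) {E : Type} [AddCommGroup E] [Module ℂ E]
    (ρE : Representation ℂ W E) : Prop :=
  BVfam (Rca W κ) (Rca.G κ) (Set.range (Rca.Y κ)) (Rca.invs κ) p ρE

end

end Pool.Agent.V5helper32.CM
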