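import Pool.Agent.V5helper32.CM.MAIN

/-!
# Project CM, the final theorem from the jobs (helper32)
-/

namespace Pool.Agent.V5helper32.CM

open MvPolynomial
open scoped TensorProduct

section

variable {V : Type} [AddCommGroup V] [Module ℂ V]

/-- `V^τ`. -/
abbrev fixV (τ : V ≃ₗ[ℂ] V) : Submodule ℂ V :=
  LinearMap.ker ((τ : V →ₗ[ℂ] V) - LinearMap.id)

/-- `W^τ`, the centraliser of `τ` in `W`, acting on `V^τ`. -/
def cenG (W : Subgroup (V ≃ₗ[ℂ] V)) (τ : V ≃ₗ[ℂ] V) : Subgroup (fixV τ ≃ₗ[ℂ] fixV τ) where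
  carrier := {g | ∃ w ∈ W, w * τ = τ * w ∧ ∀ x : fixV τ, (g x : V) = w x}
  mul_mem' := by
    rintro g g' ⟨w, hw, hc, h⟩ ⟨w', hw', hc', h'⟩
    refine ⟨w * w', W.mul_mem hw hw', ?_, fun x => ?_⟩
    · rw [mul_assoc, hc', ← mul_assoc, hc, mul_assoc]
    · change ((g (g' x) : fixV τ) : V) = w (w' x)
      rw [h, h']
  one_mem' := ⟨1, W.one_mem, by rw [one_mul, mul_one], fun x => rfl⟩
  inv_mem' := by
    rintro g ⟨w, hw, hc, h⟩
    refine ⟨w⁻¹, W.inv_mem hw, ?_, fun x => ?_⟩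
    · rw [inv_mul_eq_iff_eq_mul, ← mul_assoc, hc, mul_assoc, mul_inv_cancel, mul_one]
    · have h1 := h (g⁻¹ x)
      have h2 : g (g⁻¹ x) = x := g.apply_symm_apply x
      rw [h2] at h1
      rw [h1]
      exact (w.symm_apply_apply _).symm

/-- Reflection groups are transported by linear isomorphisms. -/
theorem reflGrp_of_equiv {V' V'' : Type} [AddCommGroup V'] [Module ℂ V'] [AddCommGroup V'']
    [Module ℂ V''] (e : V' ≃ₗ[ℂ] V'') (G' : Subgroup (V' ≃ₗ[ℂ] V')) (G : Subgroup (V'' ≃ₗ[ℂ] V''))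
    (h : ∀ g : V' ≃ₗ[ℂ] V', g ∈ G' ↔ e.symm.trans (g.trans e) ∈ G) (hG : IsReflGrp G) :
    IsReflGrp G' := by
  let φ : (V' ≃ₗ[ℂ] V') ≃* (V'' ≃ₗ[ℂ] V'') :=
    { toFun := fun g => e.symm.trans (g.trans e)
      invFun := fun g => e.trans (g.trans e.symm)
      left_inv := fun g => by
        ext x
        simp
      right_inv := fun g => by
        ext x
        simp
      map_mul' := fun g g' => by
        ext x
        simp }
  have hφ : ∀ g x, φ g (e x) = e (g x) := by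
    intro g x
    change e (g (e.symm (e x))) = e (g x)
    rw [e.symm_apply_apply]
  have hcomap : G' = G.comap φ.toMonoidHom := by
    ext g
    exact h g
  have hrefl : ∀ g, IsRefl (φ g) ↔ IsRefl g := by
    intro g
    unfold IsRefl
    have h1 : LinearMap.range (((φ g : V'' ≃ₗ[ℂ] V'') : V'' →ₗ[ℂ] V'') - LinearMap.id) =
        (LinearMap.range ((g : V' →ₗ[ℂ] V') - LinearMap.id)).map (e : V' →ₗ[ℂ] V'') := by
      ext y
      constructor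
      · rintro ⟨x, rfl⟩
        refine ⟨g (e.symm x) - e.symm x, ⟨e.symm x, rfl⟩, ?_⟩
        have h2 := hφ g (e.symm x)
        rw [e.apply_symm_apply] at h2
        change e (g (e.symm x) - e.symm x) = φ g x - x
        rw [map_sub, e.apply_symm_apply, h2]
      · rintro ⟨z, ⟨x, rfl⟩, rfl⟩
        refine ⟨e x, ?_⟩
        change φ g (e x) - e x = e (g x - x)
        rw [map_sub, hφ]
    rw [h1, LinearEquiv.finrank_map_eq]
  refine ⟨?_, ?_⟩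
  · have hf : Finite G := hG.1
    exact Finite.of_injective (fun g : G' => (⟨φ g, (h g).1 g.2⟩ : G)) (fun a b hab => by
      apply Subtype.ext
      exact φ.injective (congrArg Subtype.val hab))
  · have h2 : {s | s ∈ G' ∧ IsRefl s} = φ.symm '' {s | s ∈ G ∧ IsRefl s} := by
      ext s
      constructor
      · rintro ⟨h3, h4⟩
        exact ⟨φ s, ⟨(h s).1 h3, (hrefl s).2 h4⟩, φ.symm_apply_apply s⟩
      · rintro ⟨g, ⟨h3, h4⟩, rfl⟩
        refine ⟨(h _).2 ?_, (hrefl _).1 ?_⟩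
        · have h5 : φ (φ.symm g) ∈ G := by rwa [φ.apply_symm_apply]
          exact h5
        · rwa [φ.apply_symm_apply]
    have h6 := MonoidHom.map_closure φ.symm.toMonoidHom {s | s ∈ G ∧ IsRefl s}
    rw [hG.2] at h6
    rw [h2]
    refine (h6.symm.trans ?_ : Subgroup.closure (φ.symm '' {s | s ∈ G ∧ IsRefl s}) = G')
    ext g
    rw [Subgroup.mem_map]
    constructor
    · rintro ⟨g', hg', rfl⟩
      refine (h _).2 ?_
      have h5 : φ (φ.symm g') ∈ G := by rwa [φ.apply_symm_apply]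
      exact h5
    · intro hg
      exact ⟨φ g, (h g).1 hg, φ.symm_apply_apply g⟩

/-- The centraliser of `τ`, realised on a space `V'` isomorphic to `V^τ`. -/
theorem reflGrp_fix {V' : Type} [AddCommGroup V'] [Module ℂ V'] (W : Subgroup (V ≃ₗ[ℂ] V))
    (τ : V ≃ₗ[ℂ] V) (ι : V' →ₗ[ℂ] V) (hι : Function.Injective ι)
    (hιr : ∀ v, v ∈ LinearMap.range ι ↔ τ v = v) (W' : Subgroup (V' ≃ₗ[ℂ] V'))
    (hW' : ∀ g, g ∈ W' ↔ ∃ w ∈ W, w * τ = τ * w ∧ ∀ x, ι (g x) = w (ι x))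
    (h : IsReflGrp (cenG W τ)) : IsReflGrp W' := by
  have hker0 : LinearMap.range ι = fixV τ := by
    ext x
    rw [hιr x, LinearMap.mem_ker, LinearMap.sub_apply, LinearMap.id_apply, sub_eq_zero]
    rfl
  let e : V' ≃ₗ[ℂ] fixV τ := (LinearEquiv.ofInjective ι hι).trans (LinearEquiv.ofEq _ _ hker0)
  have he : ∀ x, (e x : V) = ι x := fun x => rfl
  refine reflGrp_of_equiv e W' (cenG W τ) (fun g => ?_) h
  rw [hW' g]
  constructor
  · rintro ⟨w, hw, hc, hx⟩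
    refine ⟨w, hw, hc, fun y => ?_⟩
    obtain ⟨x, rfl⟩ := e.surjective y
    change (e (g (e.symm (e x))) : V) = w (e x)
    rw [e.symm_apply_apply, he, he, hx]
  · rintro ⟨w, hw, hc, hx⟩
    refine ⟨w, hw, hc, fun x => ?_⟩
    have h1 : (e (g (e.symm (e x))) : V) = w (e x) := hx (e x)
    rw [e.symm_apply_apply, he, he] at h1
    exact h1

/-- The irreducible representation `E_i` of `W` is stable under (conjugation by) `τ`. -/
def Stable {W : Subgroup (V ≃ₗ[ℂ] V)} (τ : V ≃ₗ[ℂ] V) (S : IrrSys W) (i : S.I) : Prop :=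
  ∃ e : S.E i ≃ₗ[ℂ] S.E i, ∀ w w' : W, (w' : V ≃ₗ[ℂ] V) = τ * w * τ⁻¹ →
    ∀ x, e (S.ρ i w x) = S.ρ i w' (e x)

theorem stable_iff {W : Subgroup (V ≃ₗ[ℂ] V)} (τ : V ≃ₗ[ℂ] V) (S : IrrSys W) (θ : W ≃* W)
    (hθ : ∀ w, (θ w : V ≃ₗ[ℂ] V) = τ * w * τ⁻¹) (i : S.I) : Stable τ S i ↔ Tw S θ i i := by
  constructor
  · rintro ⟨e, he⟩
    exact ⟨e, fun w x => he w (θ w) (hθ w) x⟩
  · rintro ⟨e, he⟩
    refine ⟨e, fun w w' h x => ?_⟩
    have h1 : w' = θ w := Subtype.ext (h.trans (hθ w).symm)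
    rw [h1]
    exact he w x

/-- All bridges together: the data attached to a geometric reflection group. -/
theorem geom (hKAP : S_KAP) (hRD : S_RD) (hFX : S_FULLX) (hINV : S_INV) (hBV : S_BV)
    [FiniteDimensional ℂ V] {n : ℕ} (b : Module.Basis (Fin n) ℂ V)
    (W : Subgroup (V ≃ₗ[ℂ] V)) [Fintype W] (hW : IsReflGrp W)
    (k : Submodule ℂ V → ℕ → ℂ) (hk : IsPar W k)
    (α : Submodule ℂ V → Module.Dual ℂ V) (β : Submodule ℂ V → V) (hαβ : IsRoots W α β)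
    (τ : V ≃ₗ[ℂ] V) (m : ℕ) (hm : 0 < m) (hτ : τ ^ m = 1) (hτW : ∀ w ∈ W, τ * w * τ⁻¹ ∈ W)
    (hreg : ∃ v, τ v = v ∧ ∀ w ∈ W, w v = v → w = 1)
    (σ : Rca W (kap W k α β) ≃ₐ[ℂ] Rca W (kap W k α β))
    (hσx : ∀ ξ, σ (Rca.X _ ξ) = Rca.X _ (ξ ∘ₗ ((τ⁻¹ : V ≃ₗ[ℂ] V) : V →ₗ[ℂ] V)))
    (hσy : ∀ v, σ (Rca.Y _ v) = Rca.Y _ (τ v))
    (hσg : ∀ w w' : W, (w' : V ≃ₗ[ℂ] V) = τ * w * τ⁻¹ → σ (Rca.G _ w) = Rca.G _ w') :
    ∃ (D : Rd n W) (Φ : Full D (Rca W (kap W k α β))), D.t = matB b τ ∧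
      (∀ w, (D.θ w : V ≃ₗ[ℂ] V) = τ * w * τ⁻¹) ∧
      Module.finrank ℂ (LinearMap.ker (Matrix.toLin' (D.t.val - 1))) =
        Module.finrank ℂ (LinearMap.ker ((τ : V →ₗ[ℂ] V) - LinearMap.id)) ∧
      Φ.σ = σ ∧ Φ.γ = Rca.gam (kap W k α β) ∧
      ∀ p : Zc (Rca W (kap W k α β)) →ₐ[ℂ] ℂ, PG Φ p → ∀ (S : IrrSys W) (i : S.I),
        (Rca.InFam (kap W k α β) p (S.ρ i) ↔ Fam Φ p (S.ρ i)) := by
  obtain ⟨c, hc1, hc2, hc3⟩ := hKAP V W hW k hk α β hαβ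
  obtain ⟨D, hDρ, hDt, hDθ, hDk⟩ := hRD V n b W hW τ m hm hτ hτW hreg
  obtain ⟨Φ, hΦi, hΦj, hΦu, hΦσ, hΦγ⟩ := hFX V n b W c (kap W k α β) hc1 hc2 hc3 τ D hDρ hDt hDθ σ
    hσx hσy hσg
  refine ⟨D, Φ, hDt, hDθ, hDk, hΦσ, hΦγ, fun p hp S i => ?_⟩
  obtain ⟨h1, h2⟩ := hINV V n b W (kap W k α β) D.ρ Φ.T hΦi hΦj hΦu
  have h3 := hBV n W D _ Φ (Set.range (Rca.Y (kap W k α β))) h2 p hp (S.E i) (S.ρ i) (S.nt i)
    (S.irr i)
  rw [← h3, ← h1, hΦu]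
  exact Iff.rfl

open Classical in
/-- The sum of `|χ~(τ)|²` over the `τ`-stable members of the family of `p`; `χ~` is the character of
a representation `ρt i` of `W⟨τ⟩` which extends `E_i`. -/
noncomputable def famSum {W : Subgroup (V ≃ₗ[ℂ] V)} (κ : V → Module.Dual ℂ V → W → ℂ)
    (p : Zc (Rca W κ) →ₐ[ℂ] ℂ) (τ : V ≃ₗ[ℂ] V) (S : IrrSys W)
    (ρt : ∀ i, Representation ℂ (Subgroup.closure ((W : Set (V ≃ₗ[ℂ] V)) ∪ {τ})) (S.E i)) : ℝ :=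
  ∑ i, if Rca.InFam κ p (S.ρ i) ∧ Stable τ S i then
    ‖LinearMap.trace ℂ (S.E i) (ρt i ⟨τ, Subgroup.subset_closure (Or.inr rfl)⟩)‖ ^ 2 else 0

open Classical in
/-- The sum of `χ(1)²` over the members of the family of `p`. -/
noncomputable def famDim {W : Subgroup (V ≃ₗ[ℂ] V)} (κ : V → Module.Dual ℂ V → W → ℂ)
    (p : Zc (Rca W κ) →ₐ[ℂ] ℂ) (S : IrrSys W) : ℝ :=
  ∑ i, if Rca.InFam κ p (S.ρ i) then (Module.finrank ℂ (S.E i) : ℝ) ^ 2 else 0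

theorem final_thm (hKAP : S_KAP) (hRD : S_RD) (hFX : S_FULLX) (hINV : S_INV) (hBV : S_BV)
    (hOM : S_OM) (hMAIN : S_MAIN) [FiniteDimensional ℂ V]
    (W : Subgroup (V ≃ₗ[ℂ] V)) (hW : IsReflGrp W) (k : Submodule ℂ V → ℕ → ℂ) (hk : IsPar W k)
    (α : Submodule ℂ V → Module.Dual ℂ V) (β : Submodule ℂ V → V) (hαβ : IsRoots W α β)
    (τ : V ≃ₗ[ℂ] V) (m : ℕ) (hm : 0 < m) (hτ : τ ^ m = 1) (hτW : ∀ w ∈ W, τ * w * τ⁻¹ ∈ W)
    (hreg : ∃ v, τ v = v ∧ ∀ w ∈ W, w v = v → w = 1)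
    (σ : Rca W (kap W k α β) ≃ₐ[ℂ] Rca W (kap W k α β))
    (hσx : ∀ ξ, σ (Rca.X _ ξ) = Rca.X _ (ξ ∘ₗ ((τ⁻¹ : V ≃ₗ[ℂ] V) : V →ₗ[ℂ] V)))
    (hσy : ∀ v, σ (Rca.Y _ v) = Rca.Y _ (τ v))
    (hσg : ∀ w w' : W, (w' : V ≃ₗ[ℂ] V) = τ * w * τ⁻¹ → σ (Rca.G _ w) = Rca.G _ w')
    (Q : Ideal (Zc (Rca W (kap W k α β)))) (hQ : IsMaxQ σ Q)
    {V' : Type} [AddCommGroup V'] [Module ℂ V'] (ι : V' →ₗ[ℂ] V) (hι : Function.Injective ι)
    (hιr : ∀ v, v ∈ LinearMap.range ι ↔ τ v = v) (W' : Subgroup (V' ≃ₗ[ℂ] V'))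
    (hW' : ∀ g, g ∈ W' ↔ ∃ w ∈ W, w * τ = τ * w ∧ ∀ x, ι (g x) = w (ι x))
    (hWr : IsReflGrp W')
    (l : Submodule ℂ V' → ℕ → ℂ) (hl : IsPar W' l)
    (α' : Submodule ℂ V' → Module.Dual ℂ V') (β' : Submodule ℂ V' → V') (hαβ' : IsRoots W' α' β')
    (π : Zc (Rca W (kap W k α β)) →ₐ[ℂ] Zc (Rca W' (kap W' l α' β')))
    (hπ : Function.Surjective π) (hker : ∀ z, π z = 0 ↔ z ∈ Q)
    (hequ : ∀ (s : ℂˣ) (a b : Zc (Rca W (kap W k α β))),
      (b : Rca W (kap W k α β)) = Rca.gam _ s a →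
        (π b : Rca W' (kap W' l α' β')) = Rca.gam _ s (π a : Rca W' (kap W' l α' β')))
    (p : Zc (Rca W (kap W k α β)) →ₐ[ℂ] ℂ)
    (hp : ∀ (s : ℂˣ) (a b : Zc (Rca W (kap W k α β))),
      (b : Rca W (kap W k α β)) = Rca.gam _ s a → p b = p a)
    (p' : Zc (Rca W' (kap W' l α' β')) →ₐ[ℂ] ℂ)
    (hp' : ∀ a, p' (π a) = p a)
    (S : IrrSys W) (S' : IrrSys W')
    (ρt : ∀ i, Representation ℂ (Subgroup.closure ((W : Set (V ≃ₗ[ℂ] V)) ∪ {τ})) (S.E i))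
    (hρt : ∀ i, Stable τ S i → ∀ (w : W) (g : Subgroup.closure ((W : Set (V ≃ₗ[ℂ] V)) ∪ {τ})),
      (g : V ≃ₗ[ℂ] V) = w → ρt i g = S.ρ i w) :
    famSum (kap W k α β) p τ S ρt = famDim (kap W' l α' β') p' S' := by
  classical
  have hfinW : Finite W := hW.1
  have hfinW' : Finite W' := hWr.1
  let _ : Fintype W := Fintype.ofFinite W
  let _ : Fintype W' := Fintype.ofFinite W'
  obtain ⟨D, Φ, hDt, hDθ, hDk, hΦσ, hΦγ, hfam⟩ := geom hKAP hRD hFX hINV hBV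
    (Module.finBasis ℂ V) W hW k hk α β hαβ τ m hm hτ hτW hreg σ hσx hσy hσg
  obtain ⟨v, hv, hvreg⟩ := hreg
  obtain ⟨v0, hv0⟩ := (hιr v).2 hv
  have hfd : FiniteDimensional ℂ V' := Module.Finite.of_injective ι hι
  obtain ⟨D1, Φ1, hDt1, hDθ1, hDk1, hΦσ1, hΦγ1, hfam1⟩ := geom hKAP hRD hFX hINV hBV
    (Module.finBasis ℂ V') W' hWr l hl α' β' hαβ'
    1 1 one_pos (pow_one 1) (fun w hw => by rwa [one_mul, inv_one, mul_one])
    ⟨v0, rfl, fun g hg h => by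
      obtain ⟨w, hw, -, hx⟩ := (hW' g).1 hg
      have h1 : w = 1 := hvreg w hw (by
        have h2 := hx v0
        rw [h, hv0] at h2
        exact h2.symm)
      apply LinearEquiv.ext
      intro x
      apply hι
      rw [hx x, h1]
      rfl⟩ AlgEquiv.refl (fun ξ => rfl) (fun v => rfl) (fun w w' h => by
      have h1 : w' = w := Subtype.ext (by rw [h, one_mul, inv_one, mul_one])
      rw [h1]
      rfl)
  have hker0 : LinearMap.range ι = LinearMap.ker ((τ : V →ₗ[ℂ] V) - LinearMap.id) := by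
    ext x
    rw [hιr x, LinearMap.mem_ker, LinearMap.sub_apply, LinearMap.id_apply, sub_eq_zero]
    rfl
  have hdim : Module.finrank ℂ V' =
      Module.finrank ℂ (LinearMap.ker ((τ : V →ₗ[ℂ] V) - LinearMap.id)) := by
    rw [← hker0]
    exact (LinearMap.finrank_range_of_inj hι).symm
  -- stability
  have hst : ∀ i, Stable τ S i ↔ Tw S D.θ i i := stable_iff τ S D.θ hDθ
  -- the operators
  have hτmem : τ ∈ Subgroup.closure ((W : Set (V ≃ₗ[ℂ] V)) ∪ {τ}) :=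
    Subgroup.subset_closure (Or.inr rfl)
  have hExt : Ext D S (fun i => ρt i ⟨τ, hτmem⟩) := by
    intro i hi
    have hρ := hρt i ((hst i).2 hi)
    refine ⟨⟨m, hm, ?_⟩, fun w x => ?_⟩
    · rw [← map_pow]
      have h1 : (⟨τ, hτmem⟩ : Subgroup.closure ((W : Set (V ≃ₗ[ℂ] V)) ∪ {τ})) ^ m = 1 :=
        Subtype.ext hτ
      rw [h1, map_one]
    · have hw : (w : V ≃ₗ[ℂ] V) ∈ Subgroup.closure ((W : Set (V ≃ₗ[ℂ] V)) ∪ {τ}) :=
        Subgroup.subset_closure (Or.inl w.2)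
      have hw' : (D.θ w : V ≃ₗ[ℂ] V) ∈ Subgroup.closure ((W : Set (V ≃ₗ[ℂ] V)) ∪ {τ}) :=
        Subgroup.subset_closure (Or.inl (D.θ w).2)
      rw [← hρ w ⟨w, hw⟩ rfl, ← hρ (D.θ w) ⟨D.θ w, hw'⟩ rfl, ← Module.End.mul_apply,
        ← Module.End.mul_apply, ← map_mul, ← map_mul]
      have h1 : (⟨τ, hτmem⟩ : Subgroup.closure ((W : Set (V ≃ₗ[ℂ] V)) ∪ {τ})) * ⟨w, hw⟩ =
          ⟨D.θ w, hw'⟩ * ⟨τ, hτmem⟩ := by
        apply Subtype.ext
        change τ * (w : V ≃ₗ[ℂ] V) = (D.θ w : V ≃ₗ[ℂ] V) * τ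
        rw [hDθ w, mul_assoc, inv_mul_cancel, mul_one]
      rw [h1]
  have hPG : PG Φ p := by
    intro z a b hab
    rw [hΦγ] at hab
    exact hp z a b hab
  have hcomm : ∀ w : W, D.θ w = w ↔ (w : V ≃ₗ[ℂ] V) * τ = τ * w := by
    intro w
    rw [← Subtype.coe_inj, hDθ w, mul_inv_eq_iff_eq_mul]
    exact eq_comm
  -- the restriction map is a bijection
  have hcard : Fintype.card W' = Nat.card {w : W // D.θ w = w} := by
    rw [← Nat.card_eq_fintype_card]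
    symm
    have hfun : ∀ w : V ≃ₗ[ℂ] V, w * τ = τ * w → ∃ f : V' →ₗ[ℂ] V', ∀ x, ι (f x) = w (ι x) := by
      intro w hw
      have hst1 : ∀ x : V', w (ι x) ∈ LinearMap.range ι := by
        intro x
        have hx : τ (ι x) = ι x := (hιr _).1 ⟨x, rfl⟩
        rw [hιr]
        have h1 : (τ * w) (ι x) = (w * τ) (ι x) := by rw [hw]
        change τ (w (ι x)) = w (τ (ι x)) at h1
        rw [h1]
        exact congrArg w hx
      refine ⟨(LinearEquiv.ofInjective ι hι).symm.toLinearMap ∘ₗ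
        ((w : V →ₗ[ℂ] V) ∘ₗ ι).codRestrict (LinearMap.range ι) hst1, fun x => ?_⟩
      have h2 := (LinearEquiv.ofInjective ι hι).apply_symm_apply
        (((w : V →ₗ[ℂ] V) ∘ₗ ι).codRestrict (LinearMap.range ι) hst1 x)
      exact congrArg Subtype.val h2
    have hex : ∀ w : {w : W // D.θ w = w}, ∃ g : W', ∀ x, ι ((g : V' ≃ₗ[ℂ] V') x) =
        ((w : W) : V ≃ₗ[ℂ] V) (ι x) := by
      intro w
      have hw := (hcomm w.1).1 w.2
      have hwi : ((w.1 : V ≃ₗ[ℂ] V))⁻¹ * τ = τ * ((w.1 : V ≃ₗ[ℂ] V))⁻¹ := by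
        rw [inv_mul_eq_iff_eq_mul, ← mul_assoc, hw, mul_assoc, mul_inv_cancel, mul_one]
      obtain ⟨f, hf⟩ := hfun _ hw
      obtain ⟨f', hf'⟩ := hfun _ hwi
      let g : V' ≃ₗ[ℂ] V' := LinearEquiv.ofLinearMap f f'
        (LinearMap.ext fun x => hι (by
          change ι (f (f' x)) = ι x
          rw [hf, hf']
          exact (w.1 : V ≃ₗ[ℂ] V).apply_symm_apply (ι x)))
        (LinearMap.ext fun x => hι (by
          change ι (f' (f x)) = ι x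
          rw [hf', hf]
          exact (w.1 : V ≃ₗ[ℂ] V).symm_apply_apply (ι x)))
      have hg : g ∈ W' := (hW' g).2 ⟨w.1, w.1.2, hw, hf⟩
      exact ⟨⟨g, hg⟩, hf⟩
    choose r hr using hex
    refine Nat.card_congr (Equiv.ofBijective r ⟨fun a b hab => ?_, fun g => ?_⟩)
    · have h1 : ((a : W) : V ≃ₗ[ℂ] V) v = ((b : W) : V ≃ₗ[ℂ] V) v := by
        rw [← hv0, ← hr a v0, ← hr b v0, hab]
      have h2 : ((b : W)⁻¹ * (a : W) : W) = 1 := by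
        apply Subtype.ext
        refine hvreg _ (((b : W)⁻¹ * (a : W) : W)).2 ?_
        change ((b : W) : V ≃ₗ[ℂ] V)⁻¹ (((a : W) : V ≃ₗ[ℂ] V) v) = v
        rw [h1]
        exact ((b : W) : V ≃ₗ[ℂ] V).symm_apply_apply v
      apply Subtype.ext
      rw [inv_mul_eq_one] at h2
      exact h2.symm
    · obtain ⟨w, hw, hwτ, hx⟩ := (hW' g.1).1 g.2
      refine ⟨⟨⟨w, hw⟩, (hcomm ⟨w, hw⟩).2 hwτ⟩, ?_⟩
      apply Subtype.ext
      apply LinearEquiv.ext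
      intro x
      apply hι
      rw [hr, hx x]
  have hmain := hMAIN _ W D _ Φ _ W' D1 _ Φ1 (by rw [hDt1, map_one])
    (fun w => Subtype.ext (by rw [hDθ1 w, one_mul, inv_one, mul_one])) hΦσ1
    (by rw [hDk, hdim]) hcard Q (by rw [hΦσ]; exact hQ) π hπ hker
    (by rw [hΦγ, hΦγ1]; exact hequ) S (fun i => ρt i ⟨τ, hτmem⟩) hExt S' p hPG p' hp'
  have hPG1 : PG Φ1 p' := by
    intro z a1 b1 hab
    obtain ⟨a, rfl⟩ := hπ a1
    have hmem := (hOM _ W D _ Φ).2.2.2.2.1 z a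
    have h1 : b1 = π ⟨Φ.γ z a, hmem⟩ := by
      apply Subtype.ext
      rw [hab, hΦγ1, hequ z a ⟨Φ.γ z a, hmem⟩ (DFunLike.congr_fun (congrFun hΦγ z) _)]
    rw [h1, hp', hp']
    exact hPG z a _ rfl
  have e1 : famSum (kap W k α β) p τ S ρt = lhs Φ S (fun i => ρt i ⟨τ, hτmem⟩) p := by
    unfold famSum lhs
    refine Finset.sum_congr rfl fun i _ => ?_
    have h1 : (Rca.InFam (kap W k α β) p (S.ρ i) ∧ Stable τ S i) ↔
        (Fam Φ p (S.ρ i) ∧ Tw S D.θ i i) := by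
      rw [hfam p hPG S i, hst i]
    by_cases h2 : Fam Φ p (S.ρ i) ∧ Tw S D.θ i i
    · rw [if_pos h2, if_pos (h1.2 h2)]
    · rw [if_neg h2, if_neg fun h => h2 (h1.1 h)]
  have e2 : famDim (kap W' l α' β') p' S' = lhs Φ1 S' (fun _ => LinearMap.id) p' := by
    unfold famDim lhs
    refine Finset.sum_congr rfl fun i _ => ?_
    have h0 : Tw S' D1.θ i i := by
      refine ⟨LinearEquiv.refl ℂ _, fun w x => ?_⟩
      have h3 : D1.θ w = w := Subtype.ext (by rw [hDθ1 w, one_mul, inv_one, mul_one])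
      rw [h3]
      rfl
    have h1 : Rca.InFam (kap W' l α' β') p' (S'.ρ i) ↔ (Fam Φ1 p' (S'.ρ i) ∧ Tw S' D1.θ i i) := by
      rw [hfam1 p' hPG1 S' i]
      exact ⟨fun h => ⟨h, h0⟩, fun h => h.1⟩
    by_cases h2 : Fam Φ1 p' (S'.ρ i) ∧ Tw S' D1.θ i i
    · rw [if_pos h2, if_pos (h1.2 h2)]
      have h3 : LinearMap.trace ℂ (S'.E i) (LinearMap.id : S'.E i →ₗ[ℂ] S'.E i) =
          (Module.finrank ℂ (S'.E i) : ℂ) := LinearMap.trace_id ℂ _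
      rw [h3, Complex.norm_natCast]
    · rw [if_neg h2, if_neg fun h => h2 (h1.1 h)]
  rw [e1, e2]
  exact hmain

end

end Pool.Agent.V5helper32.CM
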