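import Pool.Agent.V5helper32.CM.Stm3

/-!
# Project CM, job MAIN (helper32)
-/

namespace Pool.Agent.V5helper32.CM

open MvPolynomial
open scoped TensorProduct

/-- `ker (1 - 1)` in coordinates. -/
theorem finrank_ker_zero {n : ℕ} {t : Gl n} (ht : t = 1) :
    Module.finrank ℂ (LinearMap.ker (Matrix.toLin' (t.val - 1))) = n := by
  subst ht
  rw [Units.val_one, sub_self, map_zero, LinearMap.ker_zero, finrank_top, Module.finrank_fin_fun]

/-- A commutative algebra which is finitely generated over `ℂ[xs]` is of finite type. -/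
theorem finiteType_of_FG {B : Type} [CommRing B] [Algebra ℂ B] {xs : List B} (h : FG xs B) :
    Algebra.FiniteType ℂ B := by
  classical
  obtain ⟨s, hs⟩ := h
  refine ⟨⟨s ∪ xs.toFinset, ?_⟩⟩
  have h1 := hs (Subalgebra.toSubmodule (Algebra.adjoin ℂ ((s ∪ xs.toFinset : Finset B) : Set B)))
    (fun v hv => Algebra.subset_adjoin (by simp [hv])) (fun x hx m hm => by
      have h2 : x ∈ Algebra.adjoin ℂ ((s ∪ xs.toFinset : Finset B) : Set B) :=
        Algebra.subset_adjoin (by simp [hx])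
      exact (Algebra.adjoin ℂ ((s ∪ xs.toFinset : Finset B) : Set B)).mul_mem h2 hm)
  exact Algebra.toSubmodule_eq_top.1 h1

/-- Such an algebra has finite Krull dimension. -/
theorem dim_lt_top {B : Type} [CommRing B] [Algebra ℂ B] [Algebra.FiniteType ℂ B] :
    ringKrullDim B < ⊤ := by
  obtain ⟨k, f, hf⟩ := Algebra.FiniteType.iff_quotient_mvPolynomial''.1
    (inferInstance : Algebra.FiniteType ℂ B)
  refine lt_of_le_of_lt (ringKrullDim_le_of_surjective f.toRingHom hf) ?_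
  rw [MvPolynomial.ringKrullDim_of_isNoetherianRing, ringKrullDim_eq_zero_of_field, zero_add]
  exact WithBot.coe_lt_coe.2 (ENat.natCast_lt_top _)

theorem dim_quot_lt {R : Type} [CommRing R] [IsDomain R] (hd : ringKrullDim R < ⊤)
    (Q' : Ideal R) (hQ' : Q'.IsPrime) (hne : Q' ≠ ⊥) :
    ringKrullDim (R ⧸ Q') < ringKrullDim (R ⧸ (⊥ : Ideal R)) := by
  obtain ⟨x, hx, hx0⟩ := Submodule.exists_mem_ne_zero_of_ne_bot hne
  have h1 := ringKrullDim_succ_le_of_surjective (Ideal.Quotient.mk Q')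
    Ideal.Quotient.mk_surjective (mem_nonZeroDivisors_of_ne_zero hx0)
    (Ideal.Quotient.eq_zero_iff_mem.2 hx)
  have h2 : ringKrullDim (R ⧸ (⊥ : Ideal R)) = ringKrullDim R :=
    ringKrullDim_eq_of_ringEquiv (RingEquiv.quotientBot R)
  rw [h2]
  have : Nontrivial (R ⧸ Q') := Ideal.Quotient.nontrivial_iff.2 hQ'.ne_top
  have h4 : ringKrullDim (R ⧸ Q') < ⊤ :=
    lt_of_le_of_lt (ringKrullDim_le_of_surjective (Ideal.Quotient.mk Q')
      Ideal.Quotient.mk_surjective) hd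
  have h5 : (0 : WithBot ℕ∞) ≤ ringKrullDim (R ⧸ Q') := ringKrullDim_nonneg_of_nontrivial
  refine lt_of_lt_of_le ?_ h1
  obtain ⟨k, hk⟩ : ∃ k : ℕ, ringKrullDim (R ⧸ Q') = k := by
    revert h4 h5
    generalize ringKrullDim (R ⧸ Q') = d
    intro h4 h5
    induction d using WithBot.recBotCoe with
    | bot => exact absurd h5 (by simp)
    | coe d =>
      have h6 : d < ⊤ := WithBot.coe_lt_coe.1 h4
      obtain ⟨k, hk⟩ := ENat.ne_top_iff_exists.1 h6.ne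
      exact ⟨k, by rw [← hk]; rfl⟩
  rw [hk]
  exact_mod_cast Nat.lt_succ_self k

/-- A quotient by a prime ideal is a domain. -/
theorem isDomain_of_ker {A B : Type} [CommRing A] [CommRing B] [Algebra ℂ A] [Algebra ℂ B]
    (π : A →ₐ[ℂ] B) (hπ : Function.Surjective π) (Q : Ideal A) (hQ : Q.IsPrime)
    (hker : ∀ z, π z = 0 ↔ z ∈ Q) : IsDomain B := by
  have : Nontrivial B := by
    refine ⟨0, 1, fun h => ?_⟩
    apply hQ.ne_top
    rw [Ideal.eq_top_iff_one, ← hker, map_one, h]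
  have : NoZeroDivisors B := by
    refine ⟨fun {x y} h => ?_⟩
    obtain ⟨a, rfl⟩ := hπ x
    obtain ⟨b, rfl⟩ := hπ y
    rw [← map_mul, hker] at h
    rw [hker, hker]
    exact hQ.mem_or_mem h
  exact NoZeroDivisors.to_isDomain B

/-- A character of the quotient. -/
theorem exists_char {A B : Type} [CommRing A] [CommRing B] [Algebra ℂ A] [Algebra ℂ B]
    (π : A →ₐ[ℂ] B) (hπ : Function.Surjective π) (Q : Ideal A)
    (hker : ∀ z, π z = 0 ↔ z ∈ Q) (p : A →ₐ[ℂ] ℂ) (hp : ∀ a ∈ Q, p a = 0) :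
    ∃ q : B →ₐ[ℂ] ℂ, ∀ a, q (π a) = p a := by
  refine ⟨AlgHom.liftOfSurjective π hπ p ?_, fun a => AlgHom.liftOfSurjective_apply _ _ _ _ a⟩
  intro a ha
  exact hp a ((hker a).1 ha)

/-- Change of parameters in the form used here. -/
theorem chg_use (hC : S_CHG) {B : Type} [CommRing B] [Algebra ℂ B] (𝒟 : ℤ → Submodule ℂ B)
    [GradedAlgebra 𝒟] (f g f1 g1 : List B) (hf : ∀ x ∈ f, ∃ d, 0 < d ∧ x ∈ 𝒟 d)
    (hg : ∀ x ∈ g, ∃ d, d < 0 ∧ x ∈ 𝒟 d) (hf1 : ∀ x ∈ f1, ∃ d, 0 < d ∧ x ∈ 𝒟 d)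
    (hg1 : ∀ x ∈ g1, ∃ d, d < 0 ∧ x ∈ 𝒟 d) (l1 : f1.length ≤ f.length)
    (l2 : g1.length ≤ g.length) (h : FG (f ++ g) B) (h1 : FG (f1 ++ g1) B) :
    ∃ κ : ℂ, ∀ p : B →ₐ[ℂ] ℂ, (∀ d, d ≠ 0 → ∀ x ∈ 𝒟 d, p x = 0) →
      EE (phi (AlgHom.id ℂ B) p 1) (f ++ g) B = κ * EE (phi (AlgHom.id ℂ B) p 1) (f1 ++ g1) B :=
  hC B 𝒟 f f1 g g1 hf hf1 hg hg1 l1 l2 h h1

open Classical in
/-- Bookkeeping for the sum over all points. -/
theorem sum_core {I I1 P P1 : Type} [Fintype I] [Fintype I1] (a : I → ℝ) (b : I1 → ℝ)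
    (pc : I → P) (qc : I1 → P1) (G : P → Prop) (G1 : P1 → Prop) (L : P → ℝ) (L1 : P1 → ℝ)
    (hpc : ∀ i, G (pc i)) (hqc : ∀ j, G1 (qc j))
    (hL : ∀ p, G p → L p = ∑ i, if pc i = p then a i else 0)
    (hL1 : ∀ q, G1 q → L1 q = ∑ j, if qc j = q then b j else 0)
    (r : P1 → P) (hr : Function.Injective r) (hG : ∀ q, G1 q → G (r q))
    (hs : ∀ p, G p → L p ≠ 0 → ∃ q, G1 q ∧ r q = p)
    (c c1 : ℂ) (X : P1 → ℂ) (hc : ∀ q, G1 q → (L (r q) : ℂ) = c * X q)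
    (hc1 : ∀ q, G1 q → (L1 q : ℂ) = c1 * X q) (m : ℝ) (hm : m ≠ 0) (ha : ∑ i, a i = m)
    (hb : ∑ j, b j = m) : ∀ q, G1 q → L (r q) = L1 q := by
  have tot : ∀ {I P : Type} [Fintype I] (a : I → ℝ) (pc : I → P) (L : P → ℝ),
      (∀ i, L (pc i) = ∑ i', if pc i' = pc i then a i' else 0) →
      ∑ p ∈ Finset.univ.image pc, L p = ∑ i, a i := by
    intro I P _ a pc L h
    have h1 : ∀ p ∈ Finset.univ.image pc, L p = ∑ i', if pc i' = p then a i' else 0 := by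
      intro p hp
      obtain ⟨i, _, rfl⟩ := Finset.mem_image.1 hp
      exact h i
    rw [Finset.sum_congr rfl h1, Finset.sum_comm]
    refine Finset.sum_congr rfl fun i _ => ?_
    rw [Finset.sum_ite_eq, if_pos (Finset.mem_image_of_mem _ (Finset.mem_univ i))]
  have hT := tot a pc L fun i => hL _ (hpc i)
  have hT1 := tot b qc L1 fun j => hL1 _ (hqc j)
  rw [ha] at hT
  rw [hb] at hT1
  -- a point with nonzero value is in the image
  have hne : ∀ p, G p → L p ≠ 0 → p ∈ Finset.univ.image pc := by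
    intro p hp h0
    by_contra hcon
    apply h0
    rw [hL p hp]
    refine Finset.sum_eq_zero fun i _ => if_neg fun h => hcon ?_
    exact Finset.mem_image.2 ⟨i, Finset.mem_univ i, h⟩
  have hne1 : ∀ q, G1 q → L1 q ≠ 0 → q ∈ Finset.univ.image qc := by
    intro q hq h0
    by_contra hcon
    apply h0
    rw [hL1 q hq]
    refine Finset.sum_eq_zero fun i _ => if_neg fun h => hcon ?_
    exact Finset.mem_image.2 ⟨i, Finset.mem_univ i, h⟩
  have hc1ne : c1 ≠ 0 := by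
    intro h0
    have : ∀ q ∈ Finset.univ.image qc, L1 q = 0 := by
      intro q hq
      obtain ⟨j, _, rfl⟩ := Finset.mem_image.1 hq
      have := hc1 _ (hqc j)
      rw [h0, zero_mul] at this
      exact_mod_cast this
    rw [Finset.sum_eq_zero this] at hT1
    exact hm hT1.symm
  set C : ℂ := c / c1 with hC
  have key : ∀ q, G1 q → (L (r q) : ℂ) = C * L1 q := by
    intro q hq
    rw [hc q hq, hc1 q hq, hC]
    field_simp
  have hsum : ∑ q ∈ Finset.univ.image qc, L (r q) = ∑ p ∈ Finset.univ.image pc, L p := by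
    refine Finset.sum_bij_ne_zero (fun q _ _ => r q) ?_ ?_ ?_ ?_
    · intro q hq h0
      obtain ⟨j, _, rfl⟩ := Finset.mem_image.1 hq
      exact hne _ (hG _ (hqc j)) h0
    · intro q _ _ q' _ _ h
      exact hr h
    · intro p hp h0
      obtain ⟨i, _, rfl⟩ := Finset.mem_image.1 hp
      obtain ⟨q, hq, hqp⟩ := hs _ (hpc i) h0
      have h1 : L1 q ≠ 0 := by
        intro h2
        have h3 := key q hq
        rw [h2, Complex.ofReal_zero, mul_zero, hqp] at h3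
        exact h0 (by exact_mod_cast h3)
      exact ⟨q, hne1 q hq h1, by rw [hqp]; exact h0, hqp⟩
    · intro q _ _
      rfl
  rw [hT] at hsum
  have h4 : (∑ q ∈ Finset.univ.image qc, (L (r q) : ℂ)) = C * ∑ q ∈ Finset.univ.image qc,
      (L1 q : ℂ) := by
    rw [Finset.mul_sum]
    refine Finset.sum_congr rfl fun q hq => ?_
    obtain ⟨j, _, rfl⟩ := Finset.mem_image.1 hq
    exact key _ (hqc j)
  rw [← Complex.ofReal_sum, ← Complex.ofReal_sum, hsum, hT1] at h4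
  have hC1 : C = 1 := by
    have hm' : (m : ℂ) ≠ 0 := by exact_mod_cast hm
    have := mul_right_cancel₀ hm' (show (1 : ℂ) * m = C * m by rw [one_mul]; exact h4)
    exact this.symm
  intro q hq
  have := key q hq
  rw [hC1, one_mul] at this
  exact_mod_cast this


section

variable {n : ℕ} {W : Type} [Group W] [Fintype W] {D : Rd n W} {H : Type} [Ring H] [Algebra ℂ H]

open Classical in
/-- The term of an irreducible representation. -/
noncomputable def trm (D : Rd n W) (S : IrrSys W) (R : ∀ i, S.E i →ₗ[ℂ] S.E i) (i : S.I) : ℝ :=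
  if Tw S D.θ i i then ‖LinearMap.trace ℂ _ (R i)‖ ^ 2 else 0

open Classical in
theorem lhs_eq (Φ : Full D H) (S : IrrSys W) (R : ∀ i, S.E i →ₗ[ℂ] S.E i)
    (pc : S.I → (Zc H →ₐ[ℂ] ℂ)) (h1 : ∀ i, Fam Φ (pc i) (S.ρ i))
    (h2 : ∀ i (p' : Zc H →ₐ[ℂ] ℂ), PG Φ p' → Fam Φ p' (S.ρ i) → p' = pc i)
    (p : Zc H →ₐ[ℂ] ℂ) (hp : PG Φ p) :
    lhs Φ S R p = ∑ i, if pc i = p then trm D S R i else 0 := by
  unfold lhs trm
  refine Finset.sum_congr rfl fun i _ => ?_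
  have h3 : Fam Φ p (S.ρ i) ↔ pc i = p := ⟨fun h => (h2 i p hp h).symm, fun h => h ▸ h1 i⟩
  by_cases h4 : pc i = p
  · rw [if_pos h4]
    by_cases h5 : Tw S D.θ i i
    · rw [if_pos ⟨h3.2 h4, h5⟩, if_pos h5]
    · rw [if_neg fun h => h5 h.2, if_neg h5]
  · rw [if_neg h4, if_neg fun h => h4 (h3.1 h.1)]

open Classical in
theorem trm_sum (hRep : S_REP) (D : Rd n W) (S : IrrSys W) (R : ∀ i, S.E i →ₗ[ℂ] S.E i)
    (hR : Ext D S R) : ∑ i, trm D S R i = (Nat.card {w : W // D.θ w = w} : ℝ) := by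
  have h := (hRep W D.θ S R (fun _ => True) (fun i _ h => hR i h) fun _ _ _ => Iff.rfl).2
    fun _ => trivial
  rw [← h]
  refine Finset.sum_congr rfl fun i _ => ?_
  unfold trm
  by_cases h5 : Tw S D.θ i i
  · rw [if_pos h5, if_pos ⟨trivial, h5⟩]
  · rw [if_neg h5, if_neg fun h => h5 h.2]

/-- Points fixed by the grading action vanish in degree `≠ 0`. -/
theorem PG.zero {Φ : Full D H} {p : Zc H →ₐ[ℂ] ℂ} (hp : PG Φ p) (d : ℤ) (hd : d ≠ 0) (x : Zc H)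
    (hx : ∀ s, Φ.γ s x = ((s ^ d : ℂˣ) : ℂ) • (x : H)) : p x = 0 := by
  set s : ℂˣ := Units.mk0 (2 : ℂ) two_ne_zero with hs
  have h1 := hp s x (((s ^ d : ℂˣ) : ℂ) • x) (by rw [hx s]; rfl)
  rw [map_smul, smul_eq_mul] at h1
  have h2 : ((s ^ d : ℂˣ) : ℂ) ≠ 1 := by
    rw [Units.val_zpow_eq_zpow_val, hs, Units.val_mk0]
    intro h3
    have h4 : (2 : ℝ) ^ d = 1 := by
      have h5 := congrArg (fun z : ℂ => ‖z‖) h3
      simpa [norm_zpow] using h5
    exact hd ((zpow_eq_one_iff_right₀ (by norm_num) (by norm_num)).1 h4)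
  have h3 : (((s ^ d : ℂˣ) : ℂ) - 1) * p x = 0 := by rw [sub_mul, one_mul, h1, sub_self]
  exact (mul_eq_zero.1 h3).resolve_left (sub_ne_zero.2 h2)

end

theorem isMaxQ_bot {H : Type} [Ring H] [Algebra ℂ H] [IsDomain (Zc H)]
    (hd : ringKrullDim (Zc H) < ⊤) : IsMaxQ (AlgEquiv.refl : H ≃ₐ[ℂ] H) (⊥ : Ideal (Zc H)) := by
  refine ⟨Ideal.isPrime_bot, fun a b hab => ?_, fun Q' hQ' _ hne => dim_quot_lt hd Q' hQ' hne⟩
  have h1 : b = a := Subtype.ext hab
  rw [h1, sub_self]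
  exact Ideal.zero_mem _

/-- The main theorem in coordinates. -/
theorem t_MAIN (hL : S_LEFT) (hC : S_CHG) (hX : S_CHAR) (hRep : S_REP) (hGr : S_GRD)
    (hO : S_OM) : S_MAIN := by
  intro n W _ _ D H _ _ Φ n1 W1 _ _ D1 H1 _ _ Φ1 ht1 hθ1 hσ1 hn1 hcard Q hQ π hπ hker heq S R hR
    S1 p hp p1 hp1
  obtain ⟨F, G, c, hF, hG, lF, lG, _, _, hfg, hL1, hL2⟩ :=
    hL n W D H Φ Q hQ (Zc H1) π hπ hker S R hR
  have hdom : IsDomain (Zc H1) := isDomain_of_ker π hπ Q hQ.1 hker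
  have hft : Algebra.FiniteType ℂ (Zc H1) := finiteType_of_FG hfg
  have hQ1 : IsMaxQ Φ1.σ (⊥ : Ideal (Zc H1)) := by
    rw [hσ1]
    exact isMaxQ_bot dim_lt_top
  have hR1 : Ext D1 S1 (fun _ => LinearMap.id) := by
    intro i _
    refine ⟨⟨1, one_pos, pow_one _⟩, fun w x => ?_⟩
    rw [hθ1 w]
    rfl
  obtain ⟨F1, G1, c1, hF1, hG1, lF1, lG1, uF1, uG1, hfg1, hL3, _⟩ :=
    hL n1 W1 D1 H1 Φ1 ⊥ hQ1 (Zc H1) (AlgHom.id ℂ (Zc H1)) Function.surjective_id
      (fun z => by rw [Ideal.mem_bot]; rfl) S1 (fun _ => LinearMap.id) hR1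
  rw [finrank_ker_zero ht1] at lF1 lG1
  obtain ⟨𝒟, ⟨inst⟩, h𝒟⟩ := hGr n1 W1 D1 H1 Φ1
  have hid : (F1 ++ G1).map (AlgHom.id ℂ (Zc H1)) = F1 ++ G1 := List.map_id _
  rw [hid] at hfg1 hL3
  rw [List.map_append] at hfg hL1
  have hmap : ∀ (x : Zc H) (d : ℤ), (∀ s, Φ.γ s x = ((s ^ d : ℂˣ) : ℂ) • (x : H)) →
      π x ∈ 𝒟 d := by
    intro x d hx
    rw [h𝒟]
    intro s
    rw [← heq s x (((s ^ d : ℂˣ) : ℂ) • x) (by rw [hx s]; rfl), map_smul]
    rfl
  obtain ⟨κ, hκ⟩ := chg_use hC 𝒟 (F.map π) (G.map π) F1 G1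
    (by
      intro x hx
      obtain ⟨y, hy, rfl⟩ := List.mem_map.1 hx
      obtain ⟨d, hd, hd'⟩ := hF y hy
      exact ⟨d, hd, hmap y d hd'⟩)
    (by
      intro x hx
      obtain ⟨y, hy, rfl⟩ := List.mem_map.1 hx
      obtain ⟨d, hd, hd'⟩ := hG y hy
      exact ⟨d, hd, hmap y d hd'⟩)
    (by
      intro x hx
      obtain ⟨d, hd, hd'⟩ := hF1 x hx
      exact ⟨d, hd, (h𝒟 d x).2 hd'⟩)
    (by
      intro x hx
      obtain ⟨d, hd, hd'⟩ := hG1 x hx
      exact ⟨d, hd, (h𝒟 d x).2 hd'⟩)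
    (by rw [List.length_map]; exact uF1.trans (hn1.le.trans lF))
    (by rw [List.length_map]; exact uG1.trans (hn1.le.trans lG)) hfg hfg1
  obtain ⟨hX1, -, -⟩ := hX n W D H Φ S
  choose pc hpc using hX1
  obtain ⟨hX2, -, -⟩ := hX n1 W1 D1 H1 Φ1 S1
  choose qc hqc using hX2
  have hPG : ∀ q : Zc H1 →ₐ[ℂ] ℂ, PG Φ1 q → PG Φ (q.comp π) := by
    intro q hq z a b hab
    exact hq z (π a) (π b) (heq z a b hab)
  have hcard1 : (Nat.card {w : W1 // D1.θ w = w} : ℝ) = Nat.card {w : W // D.θ w = w} := by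
    rw [← hcard, ← Nat.card_eq_fintype_card]
    congr 1
    exact Nat.card_congr (Equiv.subtypeUnivEquiv hθ1)
  have hpos : (Nat.card {w : W // D.θ w = w} : ℝ) ≠ 0 := by
    have : Nonempty {w : W // D.θ w = w} := ⟨⟨1, map_one _⟩⟩
    have h1 : 0 < Nat.card {w : W // D.θ w = w} := Nat.card_pos
    exact_mod_cast h1.ne'
  have hp1G : PG Φ1 p1 := by
    intro z a1 b1 hab
    obtain ⟨a, rfl⟩ := hπ a1
    have hmem := (hO n W D H Φ).2.2.2.2.1 z a
    have h1 : b1 = π ⟨Φ.γ z a, hmem⟩ := by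
      apply Subtype.ext
      rw [hab, heq z a ⟨Φ.γ z a, hmem⟩ rfl]
    rw [h1, hp1, hp1]
    exact hp z a _ rfl
  have hfin := sum_core (trm D S R) (trm D1 S1 fun _ => LinearMap.id) pc qc (PG Φ) (PG Φ1)
    (lhs Φ S R) (lhs Φ1 S1 fun _ => LinearMap.id) (fun i => (hpc i).1) (fun j => (hqc j).1)
    (lhs_eq Φ S R pc (fun i => (hpc i).2.1) fun i => (hpc i).2.2)
    (lhs_eq Φ1 S1 _ qc (fun i => (hqc i).2.1) fun i => (hqc i).2.2)
    (fun q => q.comp π)
    (by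
      intro q q' h
      apply AlgHom.ext
      intro x
      obtain ⟨a, rfl⟩ := hπ x
      exact DFunLike.congr_fun h a)
    hPG
    (by
      intro p' hp' hne
      have h1 : ∀ a ∈ Q, p' a = 0 := by
        by_contra hcon
        push Not at hcon
        exact hne (hL2 p' hp' hcon)
      obtain ⟨q, hq⟩ := exists_char π hπ Q hker p' h1
      refine ⟨q, ?_, AlgHom.ext hq⟩
      intro z a1 b1 hab
      obtain ⟨a, rfl⟩ := hπ a1
      have hmem := (hO n W D H Φ).2.2.2.2.1 z a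
      have h1 : b1 = π ⟨Φ.γ z a, hmem⟩ := by
        apply Subtype.ext
        rw [hab, heq z a ⟨Φ.γ z a, hmem⟩ rfl]
      rw [h1, hq, hq]
      exact hp' z a _ rfl)
    (c * κ) c1 (fun q => EE (phi (AlgHom.id ℂ (Zc H1)) q 1) (F1 ++ G1) (Zc H1))
    (by
      intro q hq
      have e1 := hL1 (q.comp π) (hPG q hq) q fun _ => rfl
      have e2 := hκ q fun d hd x hx => hq.zero d hd x ((h𝒟 d x).1 hx)
      rw [e2, ← mul_assoc] at e1
      exact e1)
    (by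
      intro q hq
      exact hL3 q hq q fun _ => rfl)
    _ hpos (trm_sum hRep D S R hR)
    ((trm_sum hRep D1 S1 _ hR1).trans hcard1) p1 hp1G
  have hpp : p1.comp π = p := AlgHom.ext hp1
  rw [← hfin]
  exact congrArg (lhs Φ S R) hpp.symm

end Pool.Agent.V5helper32.CM
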