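import Pool.Agent.V5helper32.CM.Stm2
import Pool.Agent.V5helper32.CM.Def

/-!
# Rational Cherednik algebras at `t = 0`: the action of `ℂˣ` (the other definitions are in `Def.lean`)
-/

namespace Pool.Agent.V5helper32.CM

section

variable {V : Type} [AddCommGroup V] [Module ℂ V]

/-- The images of the generators under the action of `z ∈ ℂˣ`: `x ↦ z x`, `y ↦ z⁻¹ y`, `w ↦ w`. -/
noncomputable abbrev Rca.gamGen {W : Subgroup (V ≃ₗ[ℂ] V)} (κ : V → Module.Dual ℂ V → W → ℂ)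
    (z : ℂˣ) : Gen V W → Rca W κ
  | Gen.x ξ => (z : ℂ) • Rca.X κ ξ
  | Gen.y v => ((z⁻¹ : ℂˣ) : ℂ) • Rca.Y κ v
  | Gen.g w => Rca.G κ w

theorem Rca.gam_rel {W : Subgroup (V ≃ₗ[ℂ] V)} (κ : V → Module.Dual ℂ V → W → ℂ)
    (z : ℂˣ) : ∀ ⦃a b : FreeAlgebra ℂ (Gen V W)⦄, Rel W κ a b →
      FreeAlgebra.lift ℂ (Rca.gamGen κ z) a = FreeAlgebra.lift ℂ (Rca.gamGen κ z) b := by
    intro a b h
    cases h with
    | x_add ξ η =>
      simp only [map_add, FreeAlgebra.lift_ι_apply, Rca.gamGen, Rca.X]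
      rw [RingQuot.mkAlgHom_rel ℂ (Rel.x_add (κ := κ) ξ η), map_add, smul_add]
    | x_smul c ξ =>
      simp only [map_smul, FreeAlgebra.lift_ι_apply, Rca.gamGen, Rca.X]
      rw [RingQuot.mkAlgHom_rel ℂ (Rel.x_smul (κ := κ) c ξ), map_smul, smul_comm]
    | y_add v v' =>
      simp only [map_add, FreeAlgebra.lift_ι_apply, Rca.gamGen, Rca.Y]
      rw [RingQuot.mkAlgHom_rel ℂ (Rel.y_add (κ := κ) v v'), map_add, smul_add]
    | y_smul c v =>
      simp only [map_smul, FreeAlgebra.lift_ι_apply, Rca.gamGen, Rca.Y]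
      rw [RingQuot.mkAlgHom_rel ℂ (Rel.y_smul (κ := κ) c v), map_smul, smul_comm]
    | g_one => simp [Rca.gamGen]
    | g_mul w w' => simp [Rca.gamGen]
    | g_x w ξ =>
      simp only [map_mul, FreeAlgebra.lift_ι_apply, Rca.gamGen, mul_smul_comm, smul_mul_assoc, Rca.X, Rca.G,
        MonoidHom.coe_mk, OneHom.coe_mk]
      rw [← map_mul, RingQuot.mkAlgHom_rel ℂ (Rel.g_x (κ := κ) w ξ), map_mul]
    | g_y w v =>
      simp only [map_mul, FreeAlgebra.lift_ι_apply, Rca.gamGen, mul_smul_comm, smul_mul_assoc, Rca.Y, Rca.G,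
        MonoidHom.coe_mk, OneHom.coe_mk]
      rw [← map_mul, RingQuot.mkAlgHom_rel ℂ (Rel.g_y (κ := κ) w v), map_mul]
    | x_x ξ η =>
      simp only [map_mul, FreeAlgebra.lift_ι_apply, Rca.gamGen, mul_smul_comm, smul_mul_assoc, Rca.X]
      rw [← map_mul, RingQuot.mkAlgHom_rel ℂ (Rel.x_x (κ := κ) ξ η), map_mul]
    | y_y v v' =>
      simp only [map_mul, FreeAlgebra.lift_ι_apply, Rca.gamGen, mul_smul_comm, smul_mul_assoc, Rca.Y]
      rw [← map_mul, RingQuot.mkAlgHom_rel ℂ (Rel.y_y (κ := κ) v v'), map_mul]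
    | y_x v ξ =>
      have h1 := RingQuot.mkAlgHom_rel ℂ (Rel.y_x (κ := κ) v ξ)
      rw [map_sub, map_mul, map_mul] at h1
      have h2 : (FreeAlgebra.lift ℂ (Rca.gamGen κ z))
          (∑ᶠ w : W, κ v ξ w • FreeAlgebra.ι ℂ (Gen.g w)) =
          RingQuot.mkAlgHom ℂ (Rel W κ) (∑ᶠ w : W, κ v ξ w • FreeAlgebra.ι ℂ (Gen.g w)) := by
        by_cases hf : (Function.support
            fun w : W => κ v ξ w • FreeAlgebra.ι ℂ (Gen.g w)).Finite
        · rw [finsum_eq_sum _ hf, map_sum, map_sum]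
          refine Finset.sum_congr rfl fun w _ => ?_
          rw [map_smul, map_smul, FreeAlgebra.lift_ι_apply]
          rfl
        · rw [finsum_of_infinite_support hf, map_zero, map_zero]
      rw [h2, ← h1]
      simp only [map_sub, map_mul, FreeAlgebra.lift_ι_apply, Rca.gamGen, mul_smul_comm, smul_mul_assoc]
      rw [smul_smul, smul_smul, Units.mul_inv, Units.inv_mul, one_smul, one_smul]
      rfl

/-- The action of `z ∈ ℂˣ`: `x ↦ z x`, `y ↦ z⁻¹ y`, `w ↦ w`. -/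
noncomputable def Rca.gam {W : Subgroup (V ≃ₗ[ℂ] V)} (κ : V → Module.Dual ℂ V → W → ℂ)
    (z : ℂˣ) : Rca W κ →ₐ[ℂ] Rca W κ :=
  RingQuot.liftAlgHom ℂ ⟨FreeAlgebra.lift ℂ (Rca.gamGen κ z), Rca.gam_rel κ z⟩

end

end Pool.Agent.V5helper32.CM
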