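import Pool.Agent.V5helper32.CM.Rca

/-!
# Project CM (helper32), wave 3: from coordinates to the general statement, and the main argument
-/

namespace Pool.Agent.V5helper32.CM

open MvPolynomial
open scoped TensorProduct

/-! ## I. Bridges -/

/-- The matrix of an automorphism of `V` in a basis. -/
noncomputable def matB {n : ℕ} {V : Type} [AddCommGroup V] [Module ℂ V]
    (b : Module.Basis (Fin n) ℂ V) : (V ≃ₗ[ℂ] V) →* Gl n where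
  toFun g := ⟨LinearMap.toMatrix b b (g : V →ₗ[ℂ] V),
    LinearMap.toMatrix b b ((g⁻¹ : V ≃ₗ[ℂ] V) : V →ₗ[ℂ] V), by
      rw [← LinearMap.toMatrix_mul, ← LinearMap.toMatrix_one b]
      exact congrArg _ (LinearMap.ext fun v => g.apply_symm_apply v), by
      rw [← LinearMap.toMatrix_mul, ← LinearMap.toMatrix_one b]
      exact congrArg _ (LinearMap.ext fun v => g.symm_apply_apply v)⟩
  map_one' := Units.ext (LinearMap.toMatrix_one b)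
  map_mul' g h := Units.ext (LinearMap.toMatrix_mul b (g : V →ₗ[ℂ] V) (h : V →ₗ[ℂ] V))

/-- **Job RUN** (200 lines): the presented algebra satisfies the coordinate relations and is
universal.

Proof. Coordinates `x_a = X (b.coord a)`, `y_a = Y (b a)`.  `ux`: `coord a ∘ w⁻¹ =
Σ_c (w⁻¹)_{ac} coord c`, linearity of `X` (relations `x_add`, `x_smul`).  `uy`: `w (b a) =
Σ_c w_{ca} b c`.  `yx`: `κ (b a) (coord b') w = c_w ((w⁻¹)_{b'a} - δ)`.  Universal property: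
`RingQuot.liftAlgHom` with `x ξ ↦ Σ_a ξ(b a) x'_a`, `y v ↦ Σ_a (coord a v) y'_a`, `g w ↦ u' w`
(the relation `y_x` is bilinear in `v, ξ`).  Generation: `FreeAlgebra` induction. -/
def S_RUN : Prop :=
  ∀ (V : Type) [AddCommGroup V] [Module ℂ V] (n : ℕ) (b : Module.Basis (Fin n) ℂ V)
    (W : Subgroup (V ≃ₗ[ℂ] V)) [Fintype W] (c : W → ℂ) (κ : V → Module.Dual ℂ V → W → ℂ),
    (∀ v ξ w, κ v ξ w = c w * (ξ (((w : V ≃ₗ[ℂ] V)⁻¹ : V ≃ₗ[ℂ] V) v) - ξ v)) →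
    ∃ R : ChRel ((matB b).comp W.subtype) c (Rca W κ), (∀ a, R.x a = Rca.X κ (b.coord a)) ∧
      (∀ a, R.y a = Rca.Y κ (b a)) ∧ R.u = Rca.G κ ∧ Univ R

/-- **Job KAP** (200 lines): the parameter `k` as a class function on the reflections.

Proof. Put `c_w = - Σ_{j < e_H} k_{H,j} det(w)^j` if `w ≠ 1` fixes some (then unique,
`H = ker (w - 1)`) `H ∈ hyps W` pointwise, and `c_w = 0` otherwise.  Only such `H` contribute to
`kap .. w` (`epsH`).  `w = 1`: every `H` contributes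
`(..) Σ_{j < e}(k_{H,j} - k_{H,j+1}) = (..)(k_{H,0} - k_{H,e}) = 0`.  Let `w ≠ 1` fix `H`
pointwise; then `w` is a reflection, `w β = d β` with `d = det w` (`V = H ⊕ ℂβ`), `d^e = 1` as
`w^e = 1` (`e = e_H` is the order of the pointwise stabiliser).  For
`v = h + (α(v)/α(β)) β`: `ξ(w⁻¹ v) - ξ(v) = (d⁻¹ - 1) α(v) ξ(β)/α(β)`, and
`-(Σ_j k_j d^j)(d⁻¹ - 1) = Σ_j k_j d^j - Σ_j k_j d^(j-1) = Σ_{j<e} (k_j - k_{j+1}) d^j` by
periodicity and `d^e = 1`.  Class function: `g w g⁻¹` fixes `g H`, same order, same determinant,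
`k (g H) = k H`, and `g H ∈ hyps W`.  `hyps W` is finite. -/
def S_KAP : Prop :=
  ∀ (V : Type) [AddCommGroup V] [Module ℂ V] [FiniteDimensional ℂ V]
    (W : Subgroup (V ≃ₗ[ℂ] V)), IsReflGrp W → ∀ k : Submodule ℂ V → ℕ → ℂ, IsPar W k →
    ∀ (α : Submodule ℂ V → Module.Dual ℂ V) (β : Submodule ℂ V → V), IsRoots W α β →
    ∃ c : W → ℂ, (∀ w w', c (w * w' * w⁻¹) = c w') ∧ (∀ w, c w ≠ 0 → IsRefl (w : V ≃ₗ[ℂ] V)) ∧
      ∀ v ξ w, kap W k α β v ξ w = c w * (ξ (((w : V ≃ₗ[ℂ] V)⁻¹ : V ≃ₗ[ℂ] V) v) - ξ v)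

/-- **Job RD** (120 lines): the data `Rd` of a reflection group with an automorphism.

Proof. `rank (matrix - 1) = finrank range (w - 1)`; `θ w = τ w τ⁻¹` (bijective because `W` is
finite, or `τ⁻¹ = τ^(m-1)`).  `v` has coordinates `b.repr v`. -/
def S_RD : Prop :=
  ∀ (V : Type) [AddCommGroup V] [Module ℂ V] (n : ℕ) (b : Module.Basis (Fin n) ℂ V)
    (W : Subgroup (V ≃ₗ[ℂ] V)) [Fintype W], IsReflGrp W →
    ∀ (τ : V ≃ₗ[ℂ] V) (m : ℕ), 0 < m → τ ^ m = 1 → (∀ w ∈ W, τ * w * τ⁻¹ ∈ W) →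
    (∃ v, τ v = v ∧ ∀ w ∈ W, w v = v → w = 1) →
    ∃ D : Rd n W, D.ρ = (matB b).comp W.subtype ∧ D.t = matB b τ ∧
      (∀ w, (D.θ w : V ≃ₗ[ℂ] V) = τ * w * τ⁻¹) ∧
      Module.finrank ℂ (LinearMap.ker (Matrix.toLin' (D.t.val - 1))) =
        Module.finrank ℂ (LinearMap.ker ((τ : V →ₗ[ℂ] V) - LinearMap.id))

/-- **Job FULLX** (150 lines; may use RUN, TRI): the structure `Full` on the presented algebra.

Proof. RUN and TRI (`(matB b).comp W.subtype` is injective; `rank (ρ w - 1) = 1` from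
`IsRefl w`).  `σi`, `σj`: both sides are algebra homomorphisms in `f`, check on `X a`
(`coord a ∘ τ⁻¹ = Σ_c (τ⁻¹)_{ac} coord c`; `τ (b a) = Σ_c τ_{ca} b c`). -/
def S_FULLX : Prop :=
  ∀ (V : Type) [AddCommGroup V] [Module ℂ V] (n : ℕ) (b : Module.Basis (Fin n) ℂ V)
    (W : Subgroup (V ≃ₗ[ℂ] V)) [Fintype W] (c : W → ℂ) (κ : V → Module.Dual ℂ V → W → ℂ),
    (∀ w w', c (w * w' * w⁻¹) = c w') → (∀ w, c w ≠ 0 → IsRefl (w : V ≃ₗ[ℂ] V)) →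
    (∀ v ξ w, κ v ξ w = c w * (ξ (((w : V ≃ₗ[ℂ] V)⁻¹ : V ≃ₗ[ℂ] V) v) - ξ v)) →
    ∀ (τ : V ≃ₗ[ℂ] V) (D : Rd n W), D.ρ = (matB b).comp W.subtype → D.t = matB b τ →
    (∀ w, (D.θ w : V ≃ₗ[ℂ] V) = τ * w * τ⁻¹) →
    ∀ σ : Rca W κ ≃ₐ[ℂ] Rca W κ,
      (∀ ξ, σ (Rca.X κ ξ) = Rca.X κ (ξ ∘ₗ ((τ⁻¹ : V ≃ₗ[ℂ] V) : V →ₗ[ℂ] V))) →
      (∀ v, σ (Rca.Y κ v) = Rca.Y κ (τ v)) →
      (∀ w w' : W, (w' : V ≃ₗ[ℂ] V) = τ * w * τ⁻¹ → σ (Rca.G κ w) = Rca.G κ w') →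
      ∃ Φ : Full D (Rca W κ), (∀ a, Φ.T.i (X a) = Rca.X κ (b.coord a)) ∧
        (∀ a, Φ.T.j (X a) = Rca.Y κ (b a)) ∧ Φ.T.u = Rca.G κ ∧ Φ.σ = σ ∧ Φ.γ = Rca.gam κ

/-- **Job INV** (80 lines): invariants of positive degree.

Proof. `Algebra.adjoin ℂ (range X) = T.i.range` (every `X ξ` is a combination of the
`T.i (X a)`), so the span in `Rca.invs` is `T.i {f | constantCoeff f = 0}`; `T.i` is injective (PBW)
and `u w i f = i f u w` iff `act (ρ w) f = f` (`ui` and `u w` invertible). -/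
def S_INV : Prop :=
  ∀ (V : Type) [AddCommGroup V] [Module ℂ V] (n : ℕ) (b : Module.Basis (Fin n) ℂ V)
    (W : Subgroup (V ≃ₗ[ℂ] V)) [Fintype W] (κ : V → Module.Dual ℂ V → W → ℂ)
    (ρ : W →* Gl n) (T : Tri ρ (Rca W κ)), (∀ a, T.i (X a) = Rca.X κ (b.coord a)) →
    (∀ a, T.j (X a) = Rca.Y κ (b a)) → T.u = Rca.G κ →
    Rca.invs κ = {h | ∃ f : MvPolynomial (Fin n) ℂ, (∀ w, act (ρ w) f = f) ∧
        constantCoeff f = 0 ∧ h = T.i f} ∧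
    Submodule.span ℂ (Set.range (Rca.Y κ)) =
      Submodule.span ℂ (Set.range fun a => T.j (X a))

/-! ## J. The main argument -/

open Classical in
/-- The left hand side: the sum of `|χ~(τ)|²` over the `τ`-stable members of the family of `p`. -/
noncomputable def lhs {n : ℕ} {W : Type} [Group W] [Fintype W] {D : Rd n W} {H : Type} [Ring H]
    [Algebra ℂ H] (Φ : Full D H) (S : IrrSys W) (R : ∀ i, S.E i →ₗ[ℂ] S.E i)
    (p : Zc H →ₐ[ℂ] ℂ) : ℝ :=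
  ∑ i, if Fam Φ p (S.ρ i) ∧ Tw S D.θ i i then ‖LinearMap.trace ℂ _ (R i)‖ ^ 2 else 0

/-- `R i` extends the representation `E_i` to `t`, for all `θ`-stable `E_i`. -/
def Ext {n : ℕ} {W : Type} [Group W] [Fintype W] (D : Rd n W) (S : IrrSys W)
    (R : ∀ i, S.E i →ₗ[ℂ] S.E i) : Prop :=
  ∀ i, Tw S D.θ i i → (∃ m, 0 < m ∧ R i ^ m = 1) ∧
    ∀ w x, R i (S.ρ i w x) = S.ρ i (D.θ w) (R i x)

/-- **Job THMA** (100 lines; may use REGN, TRACE, REP, CHAR, PHI): the Euler characteristic of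
`N = Sp/(F_i, G_i : ζ ≠ 1)Sp` is the left hand side.

Proof. REGN for `φ = phi A.s.ι p A.s.t` (PHI, `p ∘ σ = p` from `PS`), then TRACE with
`U = {a | ∀ i, ¬ Fam i → ρ_i(a) = 0}` and `T` = restriction of `mapDomain θ`
(`U` is stable: for `i` not in the family the twist of `E_i` by `θ` is isomorphic to some `E_j`
(`S.surj`), that is `Tw i j`, so `j` is not in the family by CHAR (2), `ρ_j(a) = 0`, so
`ρ_i(θ a) = 0`), and REP with `P i = Fam .. (S.ρ i)`. -/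
def S_THMA : Prop :=
  ∀ (n : ℕ) (W : Type) [Group W] [Fintype W] (D : Rd n W) (H : Type) [Ring H] [Algebra ℂ H]
    (Λ : Type) [Ring Λ] [Algebra ℂ Λ] (Sp : Type) [AddCommGroup Sp] [Module ℂ Sp]
    [Module Λ Sp] [IsScalarTower ℂ Λ Sp] (A : Su D H Λ Sp) (p : Zc H →ₐ[ℂ] ℂ), PG A.Φ p →
    PS A.Φ p → ∀ (S : IrrSys W) (R : ∀ i, S.E i →ₗ[ℂ] S.E i), Ext D S R →
    ∀ (r : ℕ) (en : Fin r ≃ {i // A.CF.ζ i = 1} ⊕ {i // A.CG.ζ i = 1})
      (a : MvPolynomial (Fin r) ℂ →ₐ[ℂ] Zc H),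
      (∀ k, a (X k) = Sum.elim (fun i => A.F i.1) (fun i => A.G i.1) (en k)) →
      EE (phi A.s.ι p A.s.t) (List.ofFn fun k => A.s.ι (a (X k)))
        (Sp ⧸ Submodule.span Λ {v : Sp | ∃ (i : Fin n) (m : Sp),
          (A.CF.ζ i ≠ 1 ∧ v = A.s.ι (A.F i) • m) ∨ (A.CG.ζ i ≠ 1 ∧ v = A.s.ι (A.G i) • m)}) =
      ((lhs A.Φ S R p : ℝ) : ℂ)

/-- **Job LEFT** (400 lines; may use FG, ECMP, PHI, DEV, DIM, SU, ZFIN, THMA, CHAR): the left hand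
side is a constant times the Euler characteristic of `B = Zc H ⧸ Q`, given by a surjection
`π : Zc H → B` with kernel `Q`.

Proof. Take `A` from SU.  `F` = list of the `A.F i` with `CF.ζ i = 1`, `G` = list of the `A.G i`
with `CG.ζ i = 1` (e.g. enumerate `{i // ζ i = 1}` by an equivalence with `Fin r₁`, `Fin r₂` and use
`List.ofFn`; `r = r₁ + r₂`, `en` from `finSumFinEquiv`, `List.ofFn` on `Fin (r₁ + r₂)` is the
append).  Degrees: `γ s (F i) = s^(d_i) F i`, `γ s (G i) = s^(-d_i) G i`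
(homogeneous polynomials, `γi`, `γj`).  Lengths: `Cdat.dim` for `CF` and `CG`
(`ker (dualG t - 1)` has the same dimension as `ker (t - 1)`), and `≤ n`.
If `ζ_i ≠ 1` then `σ (F i) = ζ_i F i` and `(ζ_i - 1) F i ∈ Q`, so `F i ∈ Q`; same for `G`.  ZFIN gives
`FG` for `Zc H`, hence for `B` over all `π (F i), π (G i)`, hence over the lists `F ++ G` (the
others act by `0`).
`N = Sp/(F_i, G_i : ζ ≠ 1)Sp` has `FG` over the list (ZFIN, FG).  By THMA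
`lhs p = EE (phi ι p t) xs N` for `p` in `PG`, `PS`.
DEV with `M = N`, `D = D₀`: `D₀ = B` (or `Zc H ⧸ Q`) as a `Λ`-module through the universal property
in SU (`f z` = multiplication by `π z`, `T = 1`; `π (σ z) = π z`), `d = 1`.  The hypothesis of DEV on
`Q`: let `q` be a
prime with `σ z - z ∈ q` and `A ∩ q = 0`; if `q ≠ Q` then `dim Z/q < dim Z/Q` by `IsMaxQ`,
contradiction to DIM (every `z` is integral over `ℂ[F ++ G]` modulo `Q ⊓ q`: `Zc H` is a finitely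
generated module over `ℂ[all F i, G i]`, and the `F i`, `G i` with `ζ ≠ 1` are
in `Q ⊓ q`).  So `lhs p = c EE (phi ι p t) xs D₀`.
ECMP with `K = Option (Zc H)`, `l (some z) = ι z`, `l none = t`, `l' (some z) = π z`,
`l' none = 1`, `η = 1`, PHI (second part, `e = π`): for `p` with `p = pB ∘ π`,
`EE (phi ι p t) xs D₀ = EE (phi id pB 1) (π xs) B`.  [`p = pB ∘ π` implies `PS p`.]
For `p` in `PG`, not zero on `Q`: if `PS p`, then `EE (phi ι p t) xs D₀ = 0`: ECMP with the same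
pairs and `η = 0`: a `Λ`-module `M` which matches a `B`-module is killed by `Q`, so
`gsp ι p M = 0` (`a ∈ Q`, `p a ≠ 0`: `(ι a - p a)^N = (-p a)^N` on `M`) and `phi = 0`.
If not `PS p`: no `i` with `Tw i i` is in the family of `p` (CHAR (3)), `lhs p = 0`. -/
def S_LEFT : Prop :=
  ∀ (n : ℕ) (W : Type) [Group W] [Fintype W] (D : Rd n W) (H : Type) [Ring H] [Algebra ℂ H]
    (Φ : Full D H) (Q : Ideal (Zc H)), IsMaxQ Φ.σ Q → ∀ (B : Type) [CommRing B] [Algebra ℂ B]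
    (π : Zc H →ₐ[ℂ] B), Function.Surjective π → (∀ z, π z = 0 ↔ z ∈ Q) → ∀ (S : IrrSys W)
    (R : ∀ i, S.E i →ₗ[ℂ] S.E i), Ext D S R →
    ∃ (F G : List (Zc H)) (c : ℂ),
      (∀ x ∈ F, ∃ d : ℤ, 0 < d ∧ ∀ s, Φ.γ s x = ((s ^ d : ℂˣ) : ℂ) • (x : H)) ∧
      (∀ x ∈ G, ∃ d : ℤ, d < 0 ∧ ∀ s, Φ.γ s x = ((s ^ d : ℂˣ) : ℂ) • (x : H)) ∧
      Module.finrank ℂ (LinearMap.ker (Matrix.toLin' (D.t.val - 1))) ≤ F.length ∧
      Module.finrank ℂ (LinearMap.ker (Matrix.toLin' (D.t.val - 1))) ≤ G.length ∧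
      F.length ≤ n ∧ G.length ≤ n ∧ FG ((F ++ G).map π) B ∧
      (∀ p : Zc H →ₐ[ℂ] ℂ, PG Φ p → ∀ pB : B →ₐ[ℂ] ℂ, (∀ a, pB (π a) = p a) →
        ((lhs Φ S R p : ℝ) : ℂ) = c * EE (phi (AlgHom.id ℂ B) pB 1) ((F ++ G).map π) B) ∧
      ∀ p : Zc H →ₐ[ℂ] ℂ, PG Φ p → (∃ a ∈ Q, p a ≠ 0) → lhs Φ S R p = 0

/-- **Job MAIN** (300 lines; helper32).

Proof. LEFT for `(D, H, Q, π)` and for `(D1, H1, ⊥, id)` (with `R = 1`; `⊥` is maximal: `Zc H1 ≅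
Zc H ⧸ Q` is a domain of finite dimension).  CHG on `Zc H1` compares the two Euler
characteristics.  So `lhs p = C lhs₁ p₁`.  Sum over all `p`: both totals are
`|{w | θ w = w}| = |W1|`. -/
def S_MAIN : Prop :=
  ∀ (n : ℕ) (W : Type) [Group W] [Fintype W] (D : Rd n W) (H : Type) [Ring H] [Algebra ℂ H]
    (Φ : Full D H) (n1 : ℕ) (W1 : Type) [Group W1] [Fintype W1] (D1 : Rd n1 W1) (H1 : Type)
    [Ring H1] [Algebra ℂ H1] (Φ1 : Full D1 H1),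
    D1.t = 1 → (∀ w, D1.θ w = w) → Φ1.σ = AlgEquiv.refl →
    n1 = Module.finrank ℂ (LinearMap.ker (Matrix.toLin' (D.t.val - 1))) →
    Fintype.card W1 = Nat.card {w : W // D.θ w = w} →
    ∀ Q : Ideal (Zc H), IsMaxQ Φ.σ Q → ∀ π : Zc H →ₐ[ℂ] Zc H1, Function.Surjective π →
    (∀ z, π z = 0 ↔ z ∈ Q) →
    (∀ (s : ℂˣ) (a b : Zc H), (b : H) = Φ.γ s a → (π b : H1) = Φ1.γ s (π a : H1)) →
    ∀ (S : IrrSys W) (R : ∀ i, S.E i →ₗ[ℂ] S.E i), Ext D S R → ∀ S1 : IrrSys W1,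
    ∀ p : Zc H →ₐ[ℂ] ℂ, PG Φ p → ∀ p1 : Zc H1 →ₐ[ℂ] ℂ, (∀ a, p1 (π a) = p a) →
      lhs Φ S R p = lhs Φ1 S1 (fun _ => LinearMap.id) p1

end Pool.Agent.V5helper32.CM
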