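import Pool.Agent.V5helper32.CM.Stm3

namespace Pool.Agent.V5helper32.CM

/-- **Job SIG** (200 lines; may use KAP): an element `τ` which normalises `W` and fixes the
parameter `k` induces an automorphism of the algebra.

Proof. (1) `κ = kap W k α β` satisfies `κ (τ v) (ξ ∘ τ⁻¹) (τ w τ⁻¹) = κ v ξ w`: reindex the sum over
`H ∈ hyps W` by `H ↦ τ H` (`hyps W` is finite and stable under `τ`: `τ s τ⁻¹` is a reflection with
hyperplane `τ H`), `e_{τH} = e_H`, the pointwise stabiliser of `τ H` is `τ W_H τ⁻¹`,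
`det (τ w τ⁻¹) = det w`, `k (τ H) = k H`, and the factor `α_H(y) x(β_H)/α_H(β_H)` does not depend on
the choice of `α_H, β_H` (it is `x` of the component of `y` in the complement of `H` stable under the
pointwise stabiliser; this complement is unique: an eigenline of a reflection `s ≠ 1`, it is the range
of `s - 1`).
(2) The map on generators `x ξ ↦ X (ξ ∘ τ⁻¹)`, `y v ↦ Y (τ v)`, `g w ↦ G (τ w τ⁻¹)` respects the
relations (`RingQuot.liftAlgHom`, as in the definition of `Rca.gam`), and so does the map for `τ⁻¹`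
(`τ⁻¹ = τ ^ (m - 1)`), they are inverse to each other on the generators. -/
def S_SIG : Prop :=
  ∀ (V : Type) [AddCommGroup V] [Module ℂ V] [FiniteDimensional ℂ V]
    (W : Subgroup (V ≃ₗ[ℂ] V)), IsReflGrp W → ∀ k : Submodule ℂ V → ℕ → ℂ, IsPar W k →
    ∀ (α : Submodule ℂ V → Module.Dual ℂ V) (β : Submodule ℂ V → V), IsRoots W α β →
    ∀ (τ : V ≃ₗ[ℂ] V) (m : ℕ), 0 < m → τ ^ m = 1 → (∀ w ∈ W, τ * w * τ⁻¹ ∈ W) →
    (∀ H ∈ hyps W, ∀ j, k (H.map (τ : V →ₗ[ℂ] V)) j = k H j) →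
    ∃ σ : Rca W (kap W k α β) ≃ₐ[ℂ] Rca W (kap W k α β),
      (∀ ξ, σ (Rca.X _ ξ) = Rca.X _ (ξ ∘ₗ ((τ⁻¹ : V ≃ₗ[ℂ] V) : V →ₗ[ℂ] V))) ∧
      (∀ v, σ (Rca.Y _ v) = Rca.Y _ (τ v)) ∧
      ∀ w w' : W, (w' : V ≃ₗ[ℂ] V) = τ * w * τ⁻¹ → σ (Rca.G _ w) = Rca.G _ w'

end Pool.Agent.V5helper32.CM
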