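import Pool.Agent.V5helper32.CM.FINAL

/-!
# Project CM (helper32), last wave: Springer's theorem

The centraliser `W^τ` of a regular element `τ` acts on `V^τ` as a reflection group.
-/

namespace Pool.Agent.V5helper32.CM

open MvPolynomial

/-- **Job GEN** (100 lines): the invariants are the polynomials in the basic invariants.

Proof. Independence: uniqueness in `C.free` (`0 = Σ_j q_j(f) c_j` with `q_j = δ_{j j₀} P`; note
`N ≥ 1`; if `P(f) = 0` then `q = (P, 0, ..)` and `q = 0` both represent `0`).  Let `h` be a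
homogeneous invariant of degree `e`; induction on `e`; `e = 0`: constant.  `e > 0`: `Ψ h` is
invariant under left translations (`Ψw`), so it is a constant function; `Ψ 1` is a nonzero constant
function (`1` is invariant; `1 ∉ (f)` as `d_i > 0`).  So `h - c ∈ (f)` for some `c ∈ ℂ`, and
`h ∈ (f)` as `(f)` is homogeneous and contains no constants.  Write `h = Σ a_i f_i`, `a_i`
homogeneous of degree `e - d_i`, and average over `W`: the `a_i` may be taken invariant; by induction
they are polynomials in `f`.  A general invariant is the sum of its homogeneous components, which are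
invariant. -/
def S_GEN : Prop :=
  ∀ (n : ℕ) (W : Type) [Group W] [Fintype W] (D : Rd n W) (C : Cdat D),
    AlgebraicIndependent ℂ C.f ∧
      ∀ h, IsInv D h → ∃ q : MvPolynomial (Fin n) ℂ, h = aeval C.f q

/-- **Job DIFF** (150 lines): the differentials of the basic invariants at the regular vector.

Proof. Let `ev : F → (W → ℂ)`, `h ↦ (u ↦ h(ρ(u) v))`; the points `ρ(u) v` are distinct, so `ev` is
surjective.  `N = |W|`: `F/(f)` has the basis `c_j` (from `free`) and is isomorphic to `W → ℂ`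
by `Ψ`.  `ev (Σ q_j(f) c_j) = Σ q_j(f(v)) ev c_j` (`f_i(ρ(u)v) = f_i(v)`), so the `ev c_j` span
`W → ℂ` and are a basis.  So if `ev h = 0` then `q_j(f(v)) = 0` for all `j`, hence `q_j` is in the
ideal generated by the `X_i - f_i(v)` and `h ∈ Σ_i (f_i - f_i(v)) F`.  Let `e ∈ F` with
`e(v) = 1`, `e(ρ(u)v) = 0` for `u ≠ 1`.  Apply this to `h = e (X_j - v_j)`:
`e (X_j - v_j) = Σ_i h_{ji} (f_i - f_i(v))`; differentiate at `v`:
`δ_{jl} = Σ_i h_{ji}(v) ∂_l f_i(v)`.  So `M` has a left inverse.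
Second part: `f_i(t⁻¹ x) = ζ_i f_i(x)`; differentiate at `x = v = t⁻¹ v`. -/
def S_DIFF : Prop :=
  ∀ (n : ℕ) (W : Type) [Group W] [Fintype W] (D : Rd n W) (C : Cdat D)
    (M : Matrix (Fin n) (Fin n) ℂ), (∀ i j, M i j = eval D.v (pderiv j (C.f i))) →
    M.det ≠ 0 ∧ M * (D.t⁻¹).val = Matrix.diagonal C.ζ * M

/-- **Job GRTR** (300 lines; may use DIFF, GEN): the number and the product of the degrees with
eigenvalue one.

Proof. First part: by DIFF `t⁻¹` is conjugate to `diag ζ`, and `ker (t - 1) = ker (t⁻¹ - 1)`.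
Second part: `F_e` = homogeneous polynomials of degree `e`, `a_e = tr (act t | F_e)`.  The linear
forms `L_i = Σ_j M_ij X_j` are a basis and `act t L_i = ζ_i L_i`; so the monomials in the `L_i` are
an eigenbasis of `F` and `Σ_e a_e T^e = ∏_i (1 - ζ_i T)⁻¹` in `ℂ⟦T⟧`.  On the other hand
let `Q_e = F_e/(F_e ∩ (f))` and `b_e = tr (act t | Q_e)` (`b_e = 0` for large `e`).  Choose a graded
`t`-stable complement `C` of `(f)` (`t` is of finite order, hence diagonalisable on each
`F_e`; `(f) ∩ F_e` is `t`-stable); then `ℂ[f] ⊗ C → F` is an isomorphism (graded Nakayama +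
`dim C = N`, or Hilbert series), so `F` has the basis `f^ν c'_k` with `c'_k` eigenvectors in `C`,
`act t (f^ν c'_k) = ζ^ν η_k f^ν c'_k`, which gives
`∏_i (1 - ζ_i T)⁻¹ = ∏_i (1 - ζ_i T^(d_i))⁻¹ Σ_e b_e T^e`.
So the polynomial `B(T) = Σ_e b_e T^e` satisfies `B ∏_i (1 - ζ_i T) = ∏_i (1 - ζ_i T^(d_i))`;
dividing by `(1 - T)` for every `i` with `ζ_i = 1` and putting `T = 1`:
`B(1) = ∏_{ζ_i = 1} d_i` (the other factors are `(1 - ζ_i)` on both sides).  And
`B(1) = tr (act t | F/(f)) = ` trace on `W → ℂ` of `φ ↦ φ ∘ θ⁻¹` (by `Ψ`, `Ψt`) `=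
#{w | θ w = w}`. -/
def S_GRTR : Prop :=
  ∀ (n : ℕ) (W : Type) [Group W] [Fintype W] (D : Rd n W) (C : Cdat D),
    Nat.card {i // C.ζ i = 1} =
      Module.finrank ℂ (LinearMap.ker (Matrix.toLin' (D.t.val - 1))) ∧
    (∏ i, Function.update (fun _ : ℂ => 1) 1 (C.d i) (C.ζ i)) = Nat.card {w : W // D.θ w = w}

/-- **Job JACI** (150 lines): the Jacobian criterion in characteristic zero.

Proof. (←) Suppose `P(f) = 0`, `P ≠ 0` of minimal total degree.  Differentiate:
`Σ_i (∂_i P)(f) ∂_j f_i = 0` for all `j`, so `(∂_i P)(f) = 0` for all `i` (determinant `≠ 0` in a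
domain), `∂_i P = 0` by minimality, `P` is constant, contradiction.
(→) Each `X_k` is algebraic over `ℂ(f)` (transcendence degree `n`): there is `P_k ≠ 0` in
`ℂ[y_1..y_n][T]` with `P_k(f, X_k) = 0`, of minimal degree in `T`; so `(∂_T P_k)(f, X_k) ≠ 0`
(char 0, `f` independent so that `P_k` does not have degree `0` in `T`).  Differentiate by `X_j`:
`Σ_i (∂_{y_i} P_k)(f, X_k) ∂_j f_i = - δ_{kj} (∂_T P_k)(f, X_k)`: a matrix product with nonzero
determinant. -/
def S_JACI : Prop :=
  ∀ (n : ℕ) (f : Fin n → MvPolynomial (Fin n) ℂ),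
    AlgebraicIndependent ℂ f ↔ (Matrix.of fun i j => pderiv j (f i)).det ≠ 0

/-- **Job MOL** (350 lines): the number of reflections is at least `Σ (d_i - 1)`.

Proof. `R_e` = invariants in `F_e`; `dim R_e = |G|⁻¹ Σ_g tr(act (ρ g) | F_e)` (trace of the averaging
projection).  `ρ g` is of finite order, hence diagonalisable with eigenvalues of absolute value one;
`Σ_e tr(act (ρ g) | F_e) x^e = ∏_j (1 - λ_j x)⁻¹` for `0 ≤ x < 1`, `λ_j` the eigenvalues of
`(ρ g)⁻¹` (monomials in an eigenbasis of linear forms).  So for `0 < x < 1`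
`M(x) := Σ_e dim R_e x^e = |G|⁻¹ Σ_g ∏_j (1 - λ_j(g) x)⁻¹`.  The monomials in the `f_i` are linearly
independent elements of `R`, so `M(x) ≥ ∏_i (1 - x^(d_i))⁻¹`.  Multiply
`|G|⁻¹ Σ_{g ≠ 1} ∏_j (1 - λ_j(g) x)⁻¹ ≥ ∏_i (1 - x^(d_i))⁻¹ - |G|⁻¹ (1 - x)^(-a)` by
`(1 - x)^(a-1)` (`a ≥ 1`; the case `a = 0` is trivial) and let `x → 1`.  Left: only the elements with
exactly `a - 1` eigenvalues `1` (the reflections; `ρ` injective so `g ≠ 1` has at most `a - 1`)
survive, the limit is `|G|⁻¹ Σ_{g refl} (1 - λ(g))⁻¹`, with real part `|G|⁻¹ N/2`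
(`Re (1 - λ)⁻¹ = 1/2` for `|λ| = 1`, `λ ≠ 1`).  Right: with `[d]_x = (1 - x^d)/(1 - x)`,
`|G| = ∏ d_i`: `(1-x)⁻¹ (∏ [d_i]_x⁻¹ - ∏ d_i⁻¹) → ∏ d_i⁻¹ Σ_i (d_i - 1)/2` (the derivative of
`[d]_x` at `1` is `d(d-1)/2`).  So `N/2 ≥ Σ (d_i - 1)/2`. -/
def S_MOL : Prop :=
  ∀ (a : ℕ) (G : Type) [Group G] [Fintype G] (ρ : G →* Gl a), Function.Injective ρ →
    ∀ (f : Fin a → MvPolynomial (Fin a) ℂ) (d : Fin a → ℕ),
      (∀ i, (f i).IsHomogeneous (d i)) → (∀ i, 0 < d i) → (∀ i g, act (ρ g) (f i) = f i) →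
      AlgebraicIndependent ℂ f → (∏ i, d i) = Fintype.card G →
      ∑ i, (d i - 1) ≤ Nat.card {g : G // ((ρ g).val - 1).rank = 1}

/-- **Job JACD** (250 lines; may use JACI): the number of reflections is at most `Σ (d_i - 1)`.

Proof. `J = det (∂_j f_i)` is nonzero (JACI) and homogeneous of degree `Σ (d_i - 1)`.  For a
hyperplane `H = ker α` let `G_H = {g | ρ g fixes H pointwise}`, of order `e_H`; the reflections of `G`
with hyperplane `H` are the `e_H - 1` elements `≠ 1` of `G_H` (a nontrivial element of finite order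
fixing `H` pointwise has rank one).  `det : G_H → ℂ*` is injective (`det g = 1` and `g = 1` on `H`
makes `g` unipotent, of finite order, so `g = 1`), so its image is the group of `e_H`-th roots of
unity.  All elements of `G_H` are diagonal with respect to `H ⊕ ℂβ` (`β` spans
the range of `s - 1` for a generator; complement stable under `G_H`).  For an invariant `f` and
`x ∈ H` the polynomial `z ↦ f(x + z β)` is invariant under `z ↦ λ z`, `λ^(e_H) = 1`, so it is a
polynomial in `z^(e_H)`, and `∂_β f` is divisible by `α^(e_H - 1)`.  So `J` is divisible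
by `α^(e_H - 1)` (change the basis to one containing `β`).  Different `H` give non-associated primes
`α_H`; so `∏_H α_H^(e_H - 1)` divides `J`, `N = Σ_H (e_H - 1) ≤ deg J`. -/
def S_JACD : Prop :=
  ∀ (a : ℕ) (G : Type) [Group G] [Fintype G] (ρ : G →* Gl a), Function.Injective ρ →
    ∀ (f : Fin a → MvPolynomial (Fin a) ℂ) (d : Fin a → ℕ),
      (∀ i, (f i).IsHomogeneous (d i)) → (∀ i, 0 < d i) → (∀ i g, act (ρ g) (f i) = f i) →
      AlgebraicIndependent ℂ f →
      Nat.card {g : G // ((ρ g).val - 1).rank = 1} ≤ ∑ i, (d i - 1)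

/-- **Job DEG** (100 lines; may use JACI): comparison of degrees.

Proof. `f_i = P_i(h)`; since `h` is independent and `f_i` homogeneous we may take `P_i` weighted
homogeneous of degree `d_i` for the weights `e` (replace by that component).  The `P_i` are
algebraically independent (as the `f_i` are), so `det (∂_j P_i) ≠ 0` (JACI) and there is a
permutation `π` with `∂_{π i} P_i ≠ 0` for all `i`; so the variable `y_{π i}` occurs in `P_i` and
`e_{π i} ≤ d_i`. -/
def S_DEG : Prop :=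
  ∀ (a : ℕ) (h f : Fin a → MvPolynomial (Fin a) ℂ) (e d : Fin a → ℕ),
    (∀ i, (h i).IsHomogeneous (e i)) → (∀ i, (f i).IsHomogeneous (d i)) →
    AlgebraicIndependent ℂ h → AlgebraicIndependent ℂ f → (∀ i, 0 < e i) →
    (∀ i, ∃ P : MvPolynomial (Fin a) ℂ, f i = aeval h P) →
    ∃ π : Equiv.Perm (Fin a), ∀ i, e (π i) ≤ d i

/-- **Job SPR** (350 lines; may use RD, CST5, GEN, DIFF, GRTR, JACI, MOL, JACD, DEG): Springer's
theorem.

Proof. Let `D` be the data of RD for `W, τ`, `C : Cdat D` (CST5), `G = cenG W τ`,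
`a = dim V^τ`; the restriction `{w ∈ W | w τ = τ w} → G` is bijective (injective by
the regular vector `v ∈ V^τ`), so `|G| = #{w | θ w = w}`.  Let `I = {i | ζ_i = 1}`; by GRTR `|I| = a`
and `∏_{i ∈ I} d_i = |G|`.  Choose a basis of `V^τ`; let `f'_i` (`i ∈ I`, reindexed by `Fin a`) be the
restriction of `f_i` to `V^τ` in these coordinates: homogeneous of degree `d_i`, invariant under `G`.
They are algebraically independent: the Jacobian matrix at `v` is the matrix of the differentials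
`df_i(v)` (`i ∈ I`) restricted to `V^τ = ker (t - 1)`, and by DIFF `(df_i(v))_i` is an isomorphism
`V → ℂ^n` which intertwines `t⁻¹` with `diag ζ`, so it maps `ker (t - 1)` isomorphically onto
`ℂ^I`; use JACI.  By MOL `Σ_I (d_i - 1) ≤ N`, `N` the number of reflections of `G`.
Let `G_r` be the subgroup of `G` generated by the reflections of `G`; `v` is regular for it; so
RD (`τ = 1`, `m = 1`) gives `D_r : Rd a G_r`, let `C_r : Cdat D_r` (CST5) with invariants `h_j` of
degrees `e_j`.  GRTR (`t = 1`; all `ζ = 1`, `θ = 1`): `∏ e_j = |G_r|`.  JACD for `G_r`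
(same reflections): `N ≤ Σ (e_j - 1)`.  The `f'_i` are invariant under `G_r`, so they are
polynomials in `h` (GEN), and DEG gives `e_{π i} ≤ d_i`.  Hence
`Σ (e_j - 1) ≤ Σ (d_i - 1) ≤ N ≤ Σ (e_j - 1)`, so `e_{π i} = d_i` for all `i`,
`|G_r| = ∏ e_j = ∏ d_i = |G|` and `G_r = G`. -/
def S_SPR : Prop :=
  ∀ (V : Type) [AddCommGroup V] [Module ℂ V] [FiniteDimensional ℂ V]
    (W : Subgroup (V ≃ₗ[ℂ] V)), IsReflGrp W →
    ∀ (τ : V ≃ₗ[ℂ] V) (m : ℕ), 0 < m → τ ^ m = 1 → (∀ w ∈ W, τ * w * τ⁻¹ ∈ W) →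
    (∃ v, τ v = v ∧ ∀ w ∈ W, w v = v → w = 1) → IsReflGrp (cenG W τ)

end Pool.Agent.V5helper32.CM
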